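import Pool.Agent.H62.OWN.Jv
import Pool.Agent.H15.KM7.Pair

/-!
# Visible gradients are not constant along the lines (classes)

`pair_sel`: a relation of two samples with the same value of `g` has at most the probability of the
same relation with a selected sample. `Clo`: the gradient `T` at the sample is near the
covector `τ`, in the units of the natural box. `jv_ev`: in a class with the thresholds of the chain
labels, an event on which a visible gradient to which the lines are tangent is near a function of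
the line and of the window, with a precision above the threshold of the balls, is small.
`jv_cls`: two independent samples of the same line and window are not close.
-/

set_option autoImplicit false

namespace Pool.JVE

open Finset Real MvPolynomial
open Pool.Agent.H49.Ent Pool.Agent.H32.Dense Pool.STK Pool.KA Pool.KSAT Pool.K2S Pool.PB Pool.S6C
open Pool.GEN Pool.CHT
open Pool.LBT (ThrOf)
open Pool.KM7 (P2)

open Classical in
theorem pe_sum {Ω : Type} [Fintype Ω] (p : Ω → ℝ) (A : Ω → Prop) :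
    Pe p A = ∑ ω, if A ω then p ω else 0 := by
  show law p A True = _
  unfold law
  refine Finset.sum_congr rfl fun ω _ => ?_
  by_cases h : A ω
  · rw [if_pos (eq_true h), if_pos h]
  · rw [if_neg (fun h' => h (of_eq_true h')), if_neg h]

/-! ### A selected sample -/

/-- **A selected sample**: the relation of two conditionally independent samples. -/
theorem pair_sel {Ω GT : Type} [Fintype Ω] [Nonempty Ω] {p : Ω → ℝ} (hp : ∀ ω, 0 ≤ p ω)
    (g : Ω → GT) (R : Ω → Ω → Prop) : ∃ sel : GT → Ω,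
      Pe (P2 p g) (fun x => R x.1 x.2) ≤ Pe p (fun ω => R ω (sel (g ω))) := by
  classical
  obtain ⟨f, hf⟩ : ∃ f : GT → Ω → ℝ, f = fun s ω' =>
      ∑ ω, if g ω = s ∧ R ω ω' then p ω else 0 := ⟨_, rfl⟩
  have hex : ∀ s, ∃ ω' : Ω, ∀ ω'' : Ω, f s ω'' ≤ f s ω' := by
    intro s
    obtain ⟨x, -, hx⟩ := Finset.exists_max_image (Finset.univ : Finset Ω) (f s)
      Finset.univ_nonempty
    exact ⟨x, fun y => hx y (Finset.mem_univ y)⟩
  choose sel hsel using hex
  refine ⟨sel, ?_⟩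
  have h1 : Pe (P2 p g) (fun x => R x.1 x.2) =
      ∑ ω', p ω' / law p g (g ω') * f (g ω') ω' := by
    rw [pe_sum, Fintype.sum_prod_type_right]
    refine Finset.sum_congr rfl fun ω' _ => ?_
    rw [hf, Finset.mul_sum]
    refine Finset.sum_congr rfl fun ω _ => ?_
    show (if R ω ω' then (if g ω = g ω' then p ω * p ω' / law p g (g ω) else 0) else 0) =
      p ω' / law p g (g ω') * (if g ω = g ω' ∧ R ω ω' then p ω else 0)
    by_cases hg : g ω = g ω'
    · by_cases hR : R ω ω'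
      · rw [if_pos hR, if_pos hg, if_pos ⟨hg, hR⟩, hg]
        ring
      · rw [if_neg hR, if_neg (fun h => hR h.2), mul_zero]
    · have hn : ¬ (g ω = g ω' ∧ R ω ω') := fun h => hg h.1
      rw [if_neg hg, if_neg hn, mul_zero, ite_self]
  have h2 : ∀ ω', p ω' / law p g (g ω') * f (g ω') ω' ≤
      p ω' / law p g (g ω') * f (g ω') (sel (g ω')) := fun ω' =>
    mul_le_mul_of_nonneg_left (hsel _ _) (div_nonneg (hp _) (law_nonneg hp _ _))
  rw [h1]
  refine (Finset.sum_le_sum fun ω' _ => h2 ω').trans ?_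
  have h3 : ∑ ω', p ω' / law p g (g ω') * f (g ω') (sel (g ω')) =
      ∑ ω, ∑ ω', (if g ω = g ω' ∧ R ω (sel (g ω')) then p ω * (p ω' / law p g (g ω')) else 0) := by
    rw [Finset.sum_comm]
    refine Finset.sum_congr rfl fun ω' _ => ?_
    rw [hf, Finset.mul_sum]
    refine Finset.sum_congr rfl fun ω _ => ?_
    show p ω' / law p g (g ω') * (if g ω = g ω' ∧ R ω (sel (g ω')) then p ω else 0) = _
    split_ifs
    · ring
    · rw [mul_zero]
  rw [h3, pe_sum]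
  refine Finset.sum_le_sum fun ω _ => ?_
  by_cases hR : R ω (sel (g ω))
  · rw [if_pos hR]
    have h4 : ∀ ω', (if g ω = g ω' ∧ R ω (sel (g ω')) then p ω * (p ω' / law p g (g ω')) else 0) =
        p ω * ((if g ω' = g ω then p ω' else 0) / law p g (g ω)) := by
      intro ω'
      by_cases hg : g ω = g ω'
      · rw [if_pos ⟨hg, by rw [← hg]; exact hR⟩, if_pos hg.symm, hg]
      · rw [if_neg (fun h => hg h.1), if_neg (fun h => hg h.symm), zero_div, mul_zero]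
    rw [Finset.sum_congr rfl fun ω' _ => h4 ω', ← Finset.mul_sum, ← Finset.sum_div]
    have h5 : (∑ ω', if g ω' = g ω then p ω' else 0) = law p g (g ω) := rfl
    rw [h5]
    rcases (law_nonneg hp g (g ω)).eq_or_lt with h6 | h6
    · rw [← h6, div_zero, mul_zero]
      exact hp ω
    · rw [div_self h6.ne', mul_one]
  · rw [if_neg hR]
    refine (Finset.sum_eq_zero fun ω' _ => ?_).le
    rw [if_neg]
    rintro ⟨h4, h5⟩
    rw [← h4] at h5
    exact hR h5

variable {m : ℕ}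

/-! ### Near a covector -/

/-- **Near a covector**, in the units of the natural box of the sample. -/
def Clo {J : ℕ} (F : Fam m J) (c : ℕ → Fin m) (i w Q : ℕ) (g : ℕ → ℕ)
    (G : PtT F → ℕ → MvPolynomial (Option (Fin m)) ℝ) (T : PtT F → ℕ → ℝ) (ω : F.Ω)
    (τ : ℕ → ℝ) : Prop :=
  ∀ b : Option (Fin m) → ℝ, NBx c (G (ptr F J ω)) g w (F.t ω) i b →
    |∑ l ∈ range i, (T (ptr F J ω) l - τ l) *
      (b (some (c l)) - pth F ω (b none) (c l))| ≤ 1 / 2 ^ Q

/-- **A visible gradient** of the coordinate `c i` over the coordinates before it, to which the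
lines are tangent, with the natural size, on `A`. -/
structure VGr {J : ℕ} (F : Fam m J) (c : ℕ → Fin m) (i w e v p Q : ℕ) (g : ℕ → ℕ)
    (A : F.Ω → Prop) (T : PtT F → ℕ → ℝ) (T₀ : PtT F → ℝ) : Prop where
  siz : ∀ ω, A ω → 1 + ∑ l ∈ range i, |T (ptr F J ω) l| ≤ 2 ^ v
  lip : ∀ ω, A ω → ∀ l < i,
    |T (ptr F J ω) l| ≤ 2 ^ (e + nlp (fun j => if j < i then g j else p) l i)
  vel : ∀ ω, A ω → |F.d ω (c i) - T₀ (ptr F J ω) -
    ∑ l ∈ range i, T (ptr F J ω) l * F.d ω (c l)| ≤ 2 ^ w / 2 ^ Q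

variable {θ : ℝ} {S : PCl m} {P : List (Fin m) × Fin m → ℝ → ℝ → ℝ}

theorem chN_false {J : ℕ} (F : Fam m J) (c : ℕ → Fin m) (r : ℕ) (K : ℕ → ℕ) (a w e : ℕ)
    (g : ℕ → ℕ) : ChN F c r K a w e g (fun _ => False) := by
  refine ⟨fun _ _ => 0, fun _ _ => 0, ⟨fun _ _ => ?_, fun _ _ => ?_, fun _ _ _ _ _ _ => rfl,
    fun _ _ _ _ _ _ => rfl, fun _ h => h.elim, fun _ h => h.elim, fun _ h => h.elim⟩⟩ <;>
  · rw [totalDegree_zero]
    exact Nat.zero_le _

/-- The events of a class with thresholds have positive mass. -/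
theorem pos_thr (hP : ThrOf (chsys m θ) S P) (c : ℕ → Fin m) (i : ℕ) (W : ℚ) (e h : ℝ)
    (hW0 : 0 ≤ W) (hW1 : W ≤ 1) (he : e < θ * W) (hh : 0 < h) (h1 : bet P c i W W + h ≤ 1) :
    Bas S (fun _ F A => 0 < Pe F.p A) := by
  obtain ⟨τ, hτ, J₁, hno⟩ := no_unif hP c i (fun _ => 0) W W e h hW0 le_rfl hW1 he hh h1
  refine ⟨τ, hτ, J₁, fun J hJ F A hA => ?_⟩
  by_contra hcon
  have h0 : Pe F.p A = 0 := le_antisymm (not_lt.1 hcon) (Pe_nonneg F.isLaw A)
  have hA' : S.St (τ + 0) J F (fun _ => False) :=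
    S.res le_rfl hA (fun ω hω => hω.elim) (by
      rw [h0, mul_zero]
      exact Pe_nonneg F.isLaw _)
  rw [add_zero] at hA'
  refine hno J hJ F _ hA' 0 0 0 (fun _ => J) le_rfl (Nat.zero_le _) (Nat.zero_le _)
    (Nat.zero_le _) (fun _ _ => le_rfl) ?_ (chN_false F _ _ _ _ _ _ _)
  have h2 : ⌊(bet P c i W W + h) * J⌋₊ ≤ J := by
    refine Nat.floor_le_of_le ?_
    have hJ0 : (0 : ℝ) ≤ J := Nat.cast_nonneg J
    nlinarith only [h1, hJ0]
  show _ + 0 ≤ J + _
  omega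

/-- **Events on which a visible gradient is constant along the lines are small.** -/
theorem jv_ev (hP : ThrOf (chsys m θ) S P) (c : ℕ → Fin m) (i : ℕ)
    (hc : Set.InjOn c (Set.Iio i)) (K : ℕ) (hK : 1 ≤ K) (W : ℚ) (e h : ℝ) (hW0 : 0 ≤ W)
    (hW1 : W ≤ 1) (he : e < θ * W) (hh : 0 < h) (h1 : bet P c i W W + h ≤ 1) :
    ∃ δ : ℝ, 0 < δ ∧ Bas S (fun J F A => ∀ (w e₀ v p Q : ℕ) (Kv g : ℕ → ℕ)
      (G : PtT F → ℕ → MvPolynomial (Option (Fin m)) ℝ)
      (H : LnT F → ℕ → MvPolynomial (Option (Fin m)) ℝ) (T : PtT F → ℕ → ℝ) (T₀ : PtT F → ℝ),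
      w ≤ ⌊(W : ℝ) * J⌋₊ → e₀ ≤ ⌊e * J⌋₊ → (∀ l, Kv l ≤ K) → (∀ l < i, g l ≤ J) →
      p + 2 ≤ Q → Q + v ≤ J → ⌊(bet P c i W W + h) * J⌋₊ + w ≤ p + ⌊(W : ℝ) * J⌋₊ →
      ∀ (B : F.Ω → Prop), Sub B A → ChOK F c i Kv w w e₀ g B G H →
      VGr F c i w e₀ v p Q g B T T₀ → ∀ (T' : LnT F → ℕ → ℝ),
      (∀ ω, B ω → Clo F c i w Q g G T ω (T' (slam F w ω))) →
      Pe F.p B ≤ Real.exp (-(δ * J)) * Pe F.p A) := by
  obtain ⟨τ, hτ, J₁, hno⟩ := no_unif hP c i (fun _ => K) W W e h hW0 le_rfl hW1 he hh h1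
  refine ⟨τ / 2, by linarith, τ / 2, by linarith, J₁, ?_⟩
  intro J hJ F A hA w e₀ v p Q Kv g G H T T₀ k1 k2 k3 k4 k5 k6 k7 B hBA hch hV T' hT'
  by_contra hcon
  push Not at hcon
  have hB : S.St (τ / 2 + τ / 2) J F B := S.res (by linarith) hA hBA hcon.le
  rw [add_halves] at hB
  have hpJ : p ≤ J := by omega
  refine hno J hJ F B hB w w e₀ (fun j => if j < i then g j else p) le_rfl k1 k1 k2
    (fun l _ => ?_) ?_ ⟨_, _, jv_fam (θ := T) (θ₀ := T₀) (θ' := T') hK k3 k5 k6 hc hch hV.siz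
      hV.lip hV.vel hT'⟩
  · show (if l < i then g l else p) ≤ J
    split_ifs with hl
    · exact k4 l hl
    · exact hpJ
  · show _ ≤ (if i < i then g i else p) + _
    rw [if_neg (lt_irrefl i)]
    exact k7

/-- **Two independent samples of one line and window have different gradients**, with probability
near one, for every law with a bounded density on the event. -/
theorem jv_cls (hP : ThrOf (chsys m θ) S P) (c : ℕ → Fin m) (i : ℕ)
    (hc : Set.InjOn c (Set.Iio i)) (K : ℕ) (hK : 1 ≤ K) (W : ℚ) (e h : ℝ) (hW0 : 0 ≤ W)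
    (hW1 : W ≤ 1) (he : e < θ * W) (hh : 0 < h) (h1 : bet P c i W W + h ≤ 1) :
    ∃ δ : ℝ, 0 < δ ∧ Bas S (fun J F A => ∀ (w e₀ v p Q : ℕ) (Kv g : ℕ → ℕ)
      (G : PtT F → ℕ → MvPolynomial (Option (Fin m)) ℝ)
      (H : LnT F → ℕ → MvPolynomial (Option (Fin m)) ℝ) (T : PtT F → ℕ → ℝ) (T₀ : PtT F → ℝ),
      w ≤ ⌊(W : ℝ) * J⌋₊ → e₀ ≤ ⌊e * J⌋₊ → (∀ l, Kv l ≤ K) → (∀ l < i, g l ≤ J) →
      p + 2 ≤ Q → Q + v ≤ J → ⌊(bet P c i W W + h) * J⌋₊ + w ≤ p + ⌊(W : ℝ) * J⌋₊ →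
      ∀ (B : F.Ω → Prop), Sub B A → ChOK F c i Kv w w e₀ g B G H →
      VGr F c i w e₀ v p Q g B T T₀ → ∀ (q : F.Ω → ℝ) (M : ℝ), IsLaw q → 0 ≤ M →
      (∀ ω, 0 < q ω → B ω) → (∀ ω, q ω * Pe F.p A ≤ M * F.p ω) →
      Pe (P2 q (slam F w)) (fun x => Clo F c i w Q g G T x.1 (T (ptr F J x.2))) ≤
        M * Real.exp (-(δ * J))) := by
  classical
  obtain ⟨δ, hδ, τ, hτ, J₁, hev⟩ := jv_ev hP c i hc K hK W e h hW0 hW1 he hh h1
  obtain ⟨τ₂, hτ₂, J₂, hpos⟩ := pos_thr hP c i W e h hW0 hW1 he hh h1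
  refine ⟨δ, hδ, min τ τ₂, lt_min hτ hτ₂, max J₁ J₂, ?_⟩
  intro J hJ' F A hA w e₀ v p Q Kv g G H T T₀ k1 k2 k3 k4 k5 k6 k7 B hBA hch hV q M hq hM hqB hqM
  have hJ : J ≥ J₁ ∧ J ≥ J₂ := ⟨(le_max_left _ _).trans hJ', (le_max_right _ _).trans hJ'⟩
  have hne : Nonempty F.Ω := by
    by_contra hcon
    rw [not_nonempty_iff] at hcon
    have h2 := hq.sum_one
    rw [Finset.univ_eq_empty, Finset.sum_empty] at h2
    exact zero_ne_one h2
  obtain ⟨sel, hsel⟩ := pair_sel hq.nonneg (slam F w)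
    (fun ω ω' => Clo F c i w Q g G T ω (T (ptr F J ω')))
  refine hsel.trans ?_
  obtain ⟨B', hB'⟩ : ∃ B' : F.Ω → Prop, B' = fun ω => B ω ∧
    Clo F c i w Q g G T ω (T (ptr F J (sel (slam F w ω)))) := ⟨_, rfl⟩
  have hB'B : Sub B' B := fun ω hω => by
    rw [hB'] at hω
    exact hω.1
  have h2 := hev J hJ.1 F A (S.mono (min_le_left _ _) hA) w e₀ v p Q Kv g G H T T₀ k1 k2 k3 k4
    k5 k6 k7 B' (fun ω hω => hBA ω (hB'B ω hω)) (hch.sub hB'B)
    ⟨fun ω hω => hV.siz ω (hB'B ω hω), fun ω hω => hV.lip ω (hB'B ω hω),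
      fun ω hω => hV.vel ω (hB'B ω hω)⟩ (fun s => T (ptr F J (sel s))) (fun ω hω => by
        rw [hB'] at hω
        exact hω.2)
  have hPA := Pe_nonneg F.isLaw A
  have h3 : Pe q (fun ω => Clo F c i w Q g G T ω (T (ptr F J (sel (slam F w ω))))) ≤
      Pe q B' := by
    rw [pe_sum, pe_sum]
    refine Finset.sum_le_sum fun ω _ => ?_
    rcases (hq.nonneg ω).eq_or_lt with h0 | h0
    · rw [← h0]
      simp
    · by_cases h4 : Clo F c i w Q g G T ω (T (ptr F J (sel (slam F w ω))))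
      · rw [if_pos h4, if_pos (by rw [hB']; exact ⟨hqB ω h0, h4⟩)]
      · rw [if_neg h4]
        split_ifs
        exacts [h0.le, le_rfl]
  refine h3.trans ?_
  have h4 : Pe q B' * Pe F.p A ≤ M * Pe F.p B' := by
    rw [pe_sum q, pe_sum F.p B', Finset.sum_mul, Finset.mul_sum]
    refine Finset.sum_le_sum fun ω _ => ?_
    split_ifs with h5
    · exact hqM ω
    · rw [zero_mul, mul_zero]
  have h5 : 0 < Pe F.p A := hpos J hJ.2 F A (S.mono (min_le_right _ _) hA)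
  have h6 : Pe q B' * Pe F.p A ≤ M * (Real.exp (-(δ * J)) * Pe F.p A) :=
    h4.trans (mul_le_mul_of_nonneg_left h2 hM)
  rw [← mul_assoc] at h6
  exact le_of_mul_le_mul_right h6 h5

end Pool.JVE
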