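import Pool.Agent.H62.OWN.Jvc

/-!
# The slope of a line label over a tied coordinate is transversal at the exact points

`c i` (the coordinate `v`) has over the coordinates before it a gradient `τ`, a function of the
line and of the window. `Ju`, `Jv`: the visible gradients of the coordinate `u = c j` and of `v`
over the other coordinates, so that `τ l + τ j * Ju l = Jv l`. If `τ j` is near to a function `β`
of the exact point, then `(Jv - β Ju, β)` is a visible gradient which is constant along the lines.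
Hence two conditionally independent samples with the same exact point have different slopes `τ j`,
with probability near one (`tr_cls`).
-/

set_option autoImplicit false

namespace Pool.JVE

open Finset Real MvPolynomial
open Pool.Agent.H49.Ent Pool.Agent.H32.Dense Pool.STK Pool.KA Pool.KSAT Pool.K2S Pool.PB Pool.S6C
open Pool.GEN Pool.CHT
open Pool.KM7 (P2)
open Pool.LBT (ThrOf)

variable {m : ℕ}

/-- The gradient of `v`, if its slope over `u` is `β`. -/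
def tg (j : ℕ) (Ju Jv : ℕ → ℝ) (β : ℝ) (l : ℕ) : ℝ := if l = j then β else Jv l - β * Ju l

theorem tg_self (j : ℕ) (Ju Jv : ℕ → ℝ) (β : ℝ) : tg j Ju Jv β j = β := if_pos rfl

theorem tg_ne {j l : ℕ} (h : l ≠ j) (Ju Jv : ℕ → ℝ) (β : ℝ) :
    tg j Ju Jv β l = Jv l - β * Ju l := if_neg h

theorem sum_tg {i j : ℕ} (hj : j < i) (Ju Jv : ℕ → ℝ) (β : ℝ) (f : ℕ → ℝ) :
    ∑ l ∈ range i, tg j Ju Jv β l * f l = β * f j + ∑ l ∈ (range i).erase j, Jv l * f l -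
      β * ∑ l ∈ (range i).erase j, Ju l * f l := by
  rw [← Finset.add_sum_erase (range i) _ (mem_range.2 hj), tg_self, Finset.mul_sum, add_sub_assoc,
    ← Finset.sum_sub_distrib]
  congr 1
  refine Finset.sum_congr rfl fun l hl => ?_
  rw [tg_ne (Finset.ne_of_mem_erase hl)]
  ring

/-- **Visible gradients** of `u = c j` and of `v = c i` over the other coordinates before `c i`, to
which the lines are tangent, with the natural sizes, on `A`; `β₀`: a bound for the slope of `v` over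
`u`, `U`: the natural side of `u`. -/
structure Cmp {J : ℕ} (F : Fam m J) (c : ℕ → Fin m) (i j w e v p Q : ℕ) (g : ℕ → ℕ)
    (A : F.Ω → Prop) (G : PtT F → ℕ → MvPolynomial (Option (Fin m)) ℝ) (Ju Jv : PtT F → ℕ → ℝ)
    (Ju₀ Jv₀ : PtT F → ℝ) (β₀ U : ℝ) : Prop where
  siz : ∀ ω, A ω → ∀ β : ℝ, |β| ≤ β₀ →
    1 + ∑ l ∈ range i, |tg j (Ju (ptr F J ω)) (Jv (ptr F J ω)) β l| ≤ 2 ^ v
  lip : ∀ ω, A ω → ∀ β : ℝ, |β| ≤ β₀ → ∀ l < i,
    |tg j (Ju (ptr F J ω)) (Jv (ptr F J ω)) β l| ≤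
      2 ^ (e + nlp (fun k => if k < i then g k else p) l i)
  velu : ∀ ω, A ω → β₀ * |F.d ω (c j) - Ju₀ (ptr F J ω) -
    ∑ l ∈ (range i).erase j, Ju (ptr F J ω) l * F.d ω (c l)| ≤ 2 ^ w / 2 ^ (Q + 1)
  velv : ∀ ω, A ω → |F.d ω (c i) - Jv₀ (ptr F J ω) -
    ∑ l ∈ (range i).erase j, Jv (ptr F J ω) l * F.d ω (c l)| ≤ 2 ^ w / 2 ^ (Q + 1)
  box : ∀ ω, A ω → ∀ b : Option (Fin m) → ℝ, NBx c (G (ptr F J ω)) g w (F.t ω) i b →
    |(b (some (c j)) - pth F ω (b none) (c j)) -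
      ∑ l ∈ (range i).erase j, Ju (ptr F J ω) l * (b (some (c l)) - pth F ω (b none) (c l))| ≤ U

/-- **The gradient of the line** is tied to the visible gradients. -/
def Tie {J : ℕ} (F : Fam m J) (c : ℕ → Fin m) (i j w Q : ℕ) (g : ℕ → ℕ) (A : F.Ω → Prop)
    (G : PtT F → ℕ → MvPolynomial (Option (Fin m)) ℝ) (Ju Jv : PtT F → ℕ → ℝ)
    (τ : LnT F → ℕ → ℝ) : Prop :=
  ∀ ω, A ω → ∀ b : Option (Fin m) → ℝ, NBx c (G (ptr F J ω)) g w (F.t ω) i b →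
    |∑ l ∈ (range i).erase j, (τ (slam F w ω) l + τ (slam F w ω) j * Ju (ptr F J ω) l -
      Jv (ptr F J ω) l) * (b (some (c l)) - pth F ω (b none) (c l))| ≤ 1 / 2 ^ (Q + 1)

/-- The visible gradient with a visible slope. -/
theorem Cmp.vgr {J : ℕ} {F : Fam m J} {c : ℕ → Fin m} {i j w e v p Q : ℕ} {g : ℕ → ℕ}
    {A B : F.Ω → Prop} {G : PtT F → ℕ → MvPolynomial (Option (Fin m)) ℝ} {Ju Jv : PtT F → ℕ → ℝ}
    {Ju₀ Jv₀ : PtT F → ℝ} {β₀ U : ℝ} (h : Cmp F c i j w e v p Q g A G Ju Jv Ju₀ Jv₀ β₀ U)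
    (hj : j < i) (hBA : Sub B A) (β : PtT F → ℝ) (hβ : ∀ ω, B ω → |β (ptr F J ω)| ≤ β₀) :
    VGr F c i w e v p Q g B (fun y => tg j (Ju y) (Jv y) (β y))
      (fun y => Jv₀ y - β y * Ju₀ y) := by
  refine ⟨fun ω hω => h.siz ω (hBA ω hω) _ (hβ ω hω), fun ω hω => h.lip ω (hBA ω hω) _ (hβ ω hω),
    fun ω hω => ?_⟩
  have h1 := h.velv ω (hBA ω hω)
  have h2 := h.velu ω (hBA ω hω)
  have h3 := hβ ω hω
  rw [sum_tg hj]
  obtain ⟨y, hy⟩ : ∃ y, y = ptr F J ω := ⟨_, rfl⟩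
  rw [← hy] at h1 h2 h3 ⊢
  obtain ⟨a, ha⟩ : ∃ a, a = F.d ω (c j) - Ju₀ y - ∑ l ∈ (range i).erase j, Ju y l * F.d ω (c l) :=
    ⟨_, rfl⟩
  obtain ⟨a', ha'⟩ : ∃ a', a' = F.d ω (c i) - Jv₀ y -
    ∑ l ∈ (range i).erase j, Jv y l * F.d ω (c l) := ⟨_, rfl⟩
  rw [← ha] at h2
  rw [← ha'] at h1
  have e1 : F.d ω (c i) - (Jv₀ y - β y * Ju₀ y) - (β y * F.d ω (c j) +
      ∑ l ∈ (range i).erase j, Jv y l * F.d ω (c l) -
        β y * ∑ l ∈ (range i).erase j, Ju y l * F.d ω (c l)) = a' - β y * a := by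
    rw [ha, ha']
    ring
  rw [e1]
  have h4 : |β y * a| ≤ 2 ^ w / 2 ^ (Q + 1) := by
    rw [abs_mul]
    exact (mul_le_mul_of_nonneg_right h3 (abs_nonneg _)).trans h2
  refine ((abs_sub _ _).trans (add_le_add h1 h4)).trans (le_of_eq ?_)
  rw [pow_succ]
  field_simp
  norm_num

/-- The line gradient is near to the visible one. -/
theorem Cmp.clo {J : ℕ} {F : Fam m J} {c : ℕ → Fin m} {i j w e v p Q : ℕ} {g : ℕ → ℕ}
    {A : F.Ω → Prop} {G : PtT F → ℕ → MvPolynomial (Option (Fin m)) ℝ} {Ju Jv : PtT F → ℕ → ℝ}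
    {Ju₀ Jv₀ : PtT F → ℝ} {β₀ U : ℝ} (h : Cmp F c i j w e v p Q g A G Ju Jv Ju₀ Jv₀ β₀ U)
    {τ : LnT F → ℕ → ℝ} (ht : Tie F c i j w Q g A G Ju Jv τ) (hj : j < i) (β : PtT F → ℝ)
    {ω : F.Ω} (hω : A ω) (hβ : |τ (slam F w ω) j - β (ptr F J ω)| * U ≤ 1 / 2 ^ (Q + 1)) :
    Clo F c i w Q g G (fun y => tg j (Ju y) (Jv y) (β y)) ω (τ (slam F w ω)) := by
  intro b hb
  have h1 := ht ω hω b hb
  have h2 := h.box ω hω b hb
  obtain ⟨y, hy⟩ : ∃ y, y = ptr F J ω := ⟨_, rfl⟩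
  obtain ⟨s, hs⟩ : ∃ s, s = slam F w ω := ⟨_, rfl⟩
  obtain ⟨ξ, hξ⟩ : ∃ ξ : ℕ → ℝ, ξ = fun l => b (some (c l)) - pth F ω (b none) (c l) := ⟨_, rfl⟩
  have e0 : ∀ l, b (some (c l)) - pth F ω (b none) (c l) = ξ l := fun l => by rw [hξ]
  simp only [e0, ← hy, ← hs] at h1 h2 hβ ⊢
  obtain ⟨a, ha⟩ : ∃ a, a = ξ j - ∑ l ∈ (range i).erase j, Ju y l * ξ l := ⟨_, rfl⟩
  obtain ⟨a', ha'⟩ : ∃ a', a' = ∑ l ∈ (range i).erase j, (τ s l + τ s j * Ju y l - Jv y l) * ξ l :=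
    ⟨_, rfl⟩
  rw [← ha] at h2
  rw [← ha'] at h1
  have e1 : ∑ l ∈ range i, (tg j (Ju y) (Jv y) (β y) l - τ s l) * ξ l =
      -((τ s j - β y) * a) - a' := by
    have e2 : ∑ l ∈ range i, (tg j (Ju y) (Jv y) (β y) l - τ s l) * ξ l =
        ∑ l ∈ range i, tg j (Ju y) (Jv y) (β y) l * ξ l - ∑ l ∈ range i, τ s l * ξ l := by
      rw [← Finset.sum_sub_distrib]
      exact Finset.sum_congr rfl fun l _ => by ring
    have e3 : ∑ l ∈ range i, τ s l * ξ l =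
        τ s j * ξ j + ∑ l ∈ (range i).erase j, τ s l * ξ l :=
      (Finset.add_sum_erase (range i) _ (mem_range.2 hj)).symm
    have e4 : a' = ∑ l ∈ (range i).erase j, τ s l * ξ l +
        τ s j * ∑ l ∈ (range i).erase j, Ju y l * ξ l -
          ∑ l ∈ (range i).erase j, Jv y l * ξ l := by
      rw [ha', Finset.mul_sum, ← Finset.sum_add_distrib, ← Finset.sum_sub_distrib]
      exact Finset.sum_congr rfl fun l _ => by ring
    rw [e2, e3, sum_tg hj, e4, ha]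
    ring
  rw [e1]
  have h3 : |(τ s j - β y) * a| ≤ 1 / 2 ^ (Q + 1) := by
    rw [abs_mul]
    exact (mul_le_mul_of_nonneg_left h2 (abs_nonneg _)).trans hβ
  have h4 := abs_sub (-((τ s j - β y) * a)) a'
  rw [abs_neg] at h4
  refine (h4.trans (add_le_add h3 h1)).trans (le_of_eq ?_)
  rw [pow_succ]
  field_simp
  norm_num

variable {θ : ℝ} {S : PCl m} {P : List (Fin m) × Fin m → ℝ → ℝ → ℝ}

/-- **The slopes over a tied coordinate are transversal**: two conditionally independent samples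
with the same exact point have different slopes, with probability near one, for every law with a
bounded density on the event. -/
theorem tr_cls (hP : ThrOf (chsys m θ) S P) (c : ℕ → Fin m) (i j : ℕ) (hj : j < i)
    (hc : Set.InjOn c (Set.Iio i)) (K : ℕ) (hK : 1 ≤ K) (W : ℚ) (e h : ℝ) (hW0 : 0 ≤ W)
    (hW1 : W ≤ 1) (he : e < θ * W) (hh : 0 < h) (h1 : bet P c i W W + h ≤ 1) :
    ∃ δ : ℝ, 0 < δ ∧ Bas S (fun J F A => ∀ (w e₀ v p Q : ℕ) (Kv g : ℕ → ℕ)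
      (G : PtT F → ℕ → MvPolynomial (Option (Fin m)) ℝ)
      (H : LnT F → ℕ → MvPolynomial (Option (Fin m)) ℝ) (Ju Jv : PtT F → ℕ → ℝ)
      (Ju₀ Jv₀ : PtT F → ℝ) (β₀ U : ℝ) (τ : LnT F → ℕ → ℝ),
      w ≤ ⌊(W : ℝ) * J⌋₊ → e₀ ≤ ⌊e * J⌋₊ → (∀ l, Kv l ≤ K) → (∀ l < i, g l ≤ J) →
      p + 2 ≤ Q → Q + v ≤ J → ⌊(bet P c i W W + h) * J⌋₊ + w ≤ p + ⌊(W : ℝ) * J⌋₊ →
      ∀ (B : F.Ω → Prop), Sub B A → ChOK F c i Kv w w e₀ g B G H →
      Cmp F c i j w e₀ v p Q g B G Ju Jv Ju₀ Jv₀ β₀ U → Tie F c i j w Q g B G Ju Jv τ →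
      (∀ ω, B ω → |τ (slam F w ω) j| ≤ β₀) →
      ∀ (q : F.Ω → ℝ) (M : ℝ), IsLaw q → 0 ≤ M → (∀ ω, 0 < q ω → B ω) →
      (∀ ω, q ω * Pe F.p A ≤ M * F.p ω) →
      Pe (P2 q (ptr F J)) (fun x => |τ (slam F w x.1) j - τ (slam F w x.2) j| * U ≤
        1 / 2 ^ (Q + 1)) ≤ M * Real.exp (-(δ * J))) := by
  classical
  obtain ⟨δ, hδ, τ₁, hτ, J₁, hev⟩ := jv_ev hP c i hc K hK W e h hW0 hW1 he hh h1
  obtain ⟨τ₂, hτ₂, J₂, hpos⟩ := pos_thr hP c i W e h hW0 hW1 he hh h1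
  refine ⟨δ, hδ, min τ₁ τ₂, lt_min hτ hτ₂, max J₁ J₂, ?_⟩
  intro J hJ' F A hA w e₀ v p Q Kv g G H Ju Jv Ju₀ Jv₀ β₀ U τ k1 k2 k3 k4 k5 k6 k7 B hBA hch hV
    hT hτβ q M hq hM hqB hqM
  have hJ : J ≥ J₁ ∧ J ≥ J₂ := ⟨(le_max_left _ _).trans hJ', (le_max_right _ _).trans hJ'⟩
  have hne : Nonempty F.Ω := by
    by_contra hcon
    rw [not_nonempty_iff] at hcon
    have h2 := hq.sum_one
    rw [Finset.univ_eq_empty, Finset.sum_empty] at h2
    exact zero_ne_one h2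
  obtain ⟨sel, hsel⟩ := pair_sel hq.nonneg (ptr F J)
    (fun ω ω' => B ω' ∧ |τ (slam F w ω) j - τ (slam F w ω') j| * U ≤ 1 / 2 ^ (Q + 1))
  have hadd : Pe (P2 q (ptr F J)) (fun x => |τ (slam F w x.1) j - τ (slam F w x.2) j| * U ≤
      1 / 2 ^ (Q + 1)) ≤ Pe (P2 q (ptr F J)) (fun x => B x.2 ∧
        |τ (slam F w x.1) j - τ (slam F w x.2) j| * U ≤ 1 / 2 ^ (Q + 1)) := by
    rw [pe_sum, pe_sum]
    refine Finset.sum_le_sum fun x _ => ?_
    by_cases hx : |τ (slam F w x.1) j - τ (slam F w x.2) j| * U ≤ 1 / 2 ^ (Q + 1)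
    · rw [if_pos hx]
      by_cases h2 : B x.2
      · rw [if_pos ⟨h2, hx⟩]
      · rw [if_neg (fun h => h2 h.1)]
        have h3 : q x.2 = 0 := by
          by_contra h3
          exact h2 (hqB _ (lt_of_le_of_ne (hq.nonneg _) (Ne.symm h3)))
        unfold P2 glue
        rw [h3]
        simp
    · rw [if_neg hx, if_neg (fun h => hx h.2)]
  refine (hadd.trans hsel).trans ?_
  obtain ⟨β, hβ⟩ : ∃ β : PtT F → ℝ, β = fun y => τ (slam F w (sel y)) j := ⟨_, rfl⟩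
  obtain ⟨B', hB'⟩ : ∃ B' : F.Ω → Prop, B' = fun ω => B ω ∧ (B (sel (ptr F J ω)) ∧
    |τ (slam F w ω) j - β (ptr F J ω)| * U ≤ 1 / 2 ^ (Q + 1)) := ⟨_, rfl⟩
  have hB'B : Sub B' B := fun ω hω => by
    rw [hB'] at hω
    exact hω.1
  have hV' := hV.vgr hj hB'B β (fun ω hω => by
    rw [hB'] at hω
    rw [hβ]
    exact hτβ _ hω.2.1)
  have h2 := hev J hJ.1 F A (S.mono (min_le_left _ _) hA) w e₀ v p Q Kv g G H _ _ k1 k2 k3 k4
    k5 k6 k7 B' (fun ω hω => hBA ω (hB'B ω hω)) (hch.sub hB'B) hV' τ (fun ω hω => by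
        rw [hB'] at hω
        exact hV.clo hT hj β hω.1 hω.2.2)
  have hPA := Pe_nonneg F.isLaw A
  have h3 : Pe q (fun ω => B (sel (ptr F J ω)) ∧
      |τ (slam F w ω) j - τ (slam F w (sel (ptr F J ω))) j| * U ≤ 1 / 2 ^ (Q + 1)) ≤
      Pe q B' := by
    rw [pe_sum, pe_sum]
    refine Finset.sum_le_sum fun ω _ => ?_
    rcases (hq.nonneg ω).eq_or_lt with h0 | h0
    · rw [← h0]
      simp
    · by_cases h4 : B (sel (ptr F J ω)) ∧
        |τ (slam F w ω) j - τ (slam F w (sel (ptr F J ω))) j| * U ≤ 1 / 2 ^ (Q + 1)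
      · rw [if_pos h4, if_pos (by rw [hB', hβ]; exact ⟨hqB ω h0, h4⟩)]
      · rw [if_neg h4]
        split_ifs
        exacts [h0.le, le_rfl]
  refine h3.trans ?_
  have h4 : Pe q B' * Pe F.p A ≤ M * Pe F.p B' := by
    rw [pe_sum q, pe_sum F.p B', Finset.sum_mul, Finset.mul_sum]
    refine Finset.sum_le_sum fun ω _ => ?_
    split_ifs with h5
    · exact hqM ω
    · rw [zero_mul, mul_zero]
  have h5 : 0 < Pe F.p A := hpos J hJ.2 F A (S.mono (min_le_right _ _) hA)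
  have h6 : Pe q B' * Pe F.p A ≤ M * (Real.exp (-(δ * J)) * Pe F.p A) :=
    h4.trans (mul_le_mul_of_nonneg_left h2 hM)
  rw [← mul_assoc] at h6
  exact le_of_mul_le_mul_right h6 h5

end Pool.JVE
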