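import Pool.Agent.H62.OWN.LabI
import Pool.Agent.H62.OWN.Tr
import Pool.Agent.H6.OWN.NgD

/-!
# The slope of a line label over a tied coordinate is transversal: numbers of the closed labels

`Y`: base coordinates, `u`: tied to `Y`, with the gradient `au` at the exact points, which is near
`2 ^ (-N)` to a function `j` of the line in the window; `v`: with the gradient `av` at the exact
points and with the line label `σ + τ au = av`. If the slope `τ` over `u` is near `2 ^ (-Q)` to a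
function of the exact point, `M ≤ N + Q`, there is an affine closed label of `v` over `Y` and `u`
(`lev_fam`). Hence in a class with the numbers `L` this is so on small events only (`tr_lev`), and
two conditionally independent samples with the same exact point have different slopes (`tr_lam`).
-/

set_option autoImplicit false

namespace Pool.JVE

open Finset Real MvPolynomial
open Pool.Agent.H49.Ent Pool.Agent.H32.Dense Pool.STK Pool.KA Pool.KSAT Pool.K2S Pool.PB Pool.GEN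
open Pool.MIC6 (floor_diff floor_div_near res_of)
open Pool.S6C
open Pool.KM7 (P2)

variable {m J : ℕ}

/-- **The data**: the coordinate `v` has a line label over `Y` and over the tied coordinate `u`. -/
structure TrD (F : Fam m J) (B : F.Ω → Prop) (Y : Finset (Fin m)) (u v : Fin m)
    (W e M N Q : ℕ) (au av : PtT F → Fin m → ℝ) (cu cv : PtT F → ℝ) (τ : LnT F → ℝ)
    (σ j : LnT F → Fin m → ℝ) (b₀ : ℝ) : Prop where
  bd : ∀ ω, B ω → (∀ k ∈ Y, |au (ptr F J ω) k| ≤ 2 ^ e ∧ |av (ptr F J ω) k| ≤ 2 ^ e) ∧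
    |cu (ptr F J ω)| ≤ 2 ^ e ∧ |cv (ptr F J ω)| ≤ 2 ^ e
  slo : ∀ ω, B ω → |τ (slam F W ω)| + 2 / 2 ^ Q ≤ b₀
  b₀e : b₀ ≤ 2 ^ e
  velv : ∀ ω, B ω →
    |F.d ω v - cv (ptr F J ω) - ∑ k ∈ Y, av (ptr F J ω) k * F.d ω k| ≤ 1 / 2 ^ M
  velu : ∀ ω, B ω →
    b₀ * |F.d ω u - cu (ptr F J ω) - ∑ k ∈ Y, au (ptr F J ω) k * F.d ω k| ≤ 1 / 2 ^ M
  rel : ∀ ω, B ω → ∀ k ∈ Y, |σ (slam F W ω) k + τ (slam F W ω) * au (ptr F J ω) k -
    av (ptr F J ω) k| ≤ 1 / 2 ^ M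
  nat : ∀ ω, B ω → ∀ k ∈ Y, |j (slam F W ω) k - au (ptr F J ω) k| ≤ 1 / 2 ^ N
  num : M ≤ N + Q

theorem TrD.sub {F : Fam m J} {A B : F.Ω → Prop} {Y : Finset (Fin m)} {u v : Fin m}
    {W e M N Q : ℕ} {au av : PtT F → Fin m → ℝ} {cu cv : PtT F → ℝ} {τ : LnT F → ℝ}
    {σ j : LnT F → Fin m → ℝ} {b₀ : ℝ} (h : TrD F A Y u v W e M N Q au av cu cv τ σ j b₀)
    (hB : Sub B A) : TrD F B Y u v W e M N Q au av cu cv τ σ j b₀ :=
  ⟨fun ω hω => h.bd ω (hB ω hω), fun ω hω => h.slo ω (hB ω hω), h.b₀e,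
    fun ω hω => h.velv ω (hB ω hω), fun ω hω => h.velu ω (hB ω hω),
    fun ω hω => h.rel ω (hB ω hω), fun ω hω => h.nat ω (hB ω hω), h.num⟩

/-- **A visible slope over the tied coordinate gives a closed label.** -/
theorem lev_fam {F : Fam m J} {B : F.Ω → Prop} {Y : Finset (Fin m)} {u v : Fin m} (hu : u ∉ Y)
    {W e M M' N Q P : ℕ} {au av : PtT F → Fin m → ℝ} {cu cv : PtT F → ℝ} {τ : LnT F → ℝ}
    {σ j : LnT F → Fin m → ℝ} {b₀ : ℝ} (h : TrD F B Y u v W e M N Q au av cu cv τ σ j b₀)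
    (β : PtT F → ℝ) (hβ : ∀ ω, B ω → |τ (slam F W ω) - β (ptr F J ω)| ≤ 1 / 2 ^ Q) (hW : W ≤ J)
    (hM : M' + 2 ≤ M) (h4 : W + M' + (2 * e + 1) + m + 3 ≤ J) (h5 : P + m + 3 ≤ W + M') :
    ∃ B' : F.Ω → Prop, Sub B' B ∧ Pe F.p B ≤ 5 * cI m * Pe F.p B' ∧
      ∀ ρ : ℕ, Lb F (insert u Y) v 1 (2 * e + 2) J W ρ P B' := by
  classical
  have pQ : (0 : ℝ) < 2 ^ Q := by positivity
  have pM : (0 : ℝ) < 2 ^ M := by positivity
  have pM' : (0 : ℝ) < 2 ^ M' := by positivity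
  have pN : (0 : ℝ) < 2 ^ N := by positivity
  have hMM : (3 : ℝ) / 2 ^ M ≤ 1 / 2 ^ M' := by
    rw [div_le_div_iff₀ pM pM', one_mul]
    calc (3 : ℝ) * 2 ^ M' ≤ 2 ^ 2 * 2 ^ M' :=
          mul_le_mul_of_nonneg_right (by norm_num) (by positivity)
      _ = 2 ^ (2 + M') := by rw [pow_add]
      _ ≤ 2 ^ M := pow_le_pow_right₀ (by norm_num) (by omega)
  -- the code of the slope
  obtain ⟨f, hf⟩ : ∃ f : PtT F → ℤ, f = fun p => ⌊(2 : ℝ) ^ Q * β p⌋ := ⟨_, rfl⟩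
  obtain ⟨B₁, b1, b2, φ, b3⟩ := Pool.S6K.exact_label F.isLaw 2 (slam F W)
    (fun ω (_ : Fin 1) => f (ptr F J ω)) B (fun ω ω' hω hω' hh i => by
      have k3 := hβ ω hω
      have k4 := hβ ω' hω'
      rw [hh] at k3
      rw [hf]
      refine floor_diff ?_
      rw [← mul_sub, abs_mul, abs_of_pos pQ]
      have k5 : |β (ptr F J ω) - β (ptr F J ω')| ≤ 2 / 2 ^ Q := by
        have e1 : (2 : ℝ) / 2 ^ Q = 1 / 2 ^ Q + 1 / 2 ^ Q := by ring
        rw [e1]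
        rw [abs_le] at k3 k4 ⊢
        constructor <;> linarith [k3.1, k3.2, k4.1, k4.2]
      rw [le_div_iff₀ pQ] at k5
      push_cast
      linarith)
  obtain ⟨β₁, hβ₁⟩ : ∃ β₁ : PtT F → ℝ, β₁ = fun p => (f p : ℝ) / 2 ^ Q := ⟨_, rfl⟩
  obtain ⟨β₂, hβ₂⟩ : ∃ β₂ : LnT F → ℝ, β₂ = fun s => (φ s 0 : ℝ) / 2 ^ Q := ⟨_, rfl⟩
  have hcl : ∀ ω, B₁ ω → β₁ (ptr F J ω) = β₂ (slam F W ω) := by
    intro ω hω
    have a1 : f (ptr F J ω) = φ (slam F W ω) 0 := congrFun (b3 ω hω) 0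
    rw [hβ₁, hβ₂]
    show (f (ptr F J ω) : ℝ) / 2 ^ Q = (φ (slam F W ω) 0 : ℝ) / 2 ^ Q
    rw [a1]
  have hn1 : ∀ ω, B ω → |τ (slam F W ω) - β₁ (ptr F J ω)| ≤ 2 / 2 ^ Q := by
    intro ω hω
    have a1 := hβ ω hω
    have a2 : |β (ptr F J ω) - β₁ (ptr F J ω)| ≤ 1 / 2 ^ Q := by
      rw [hβ₁, hf]
      exact floor_div_near pQ
    have e1 : (2 : ℝ) / 2 ^ Q = 1 / 2 ^ Q + 1 / 2 ^ Q := by ring
    rw [e1]
    rw [abs_le] at a1 a2 ⊢
    constructor <;> linarith [a1.1, a1.2, a2.1, a2.2]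
  have hβb : ∀ ω, B ω → |β₁ (ptr F J ω)| ≤ b₀ := by
    intro ω hω
    have a1 := h.slo ω hω
    have a2 := hn1 ω hω
    have a3 : |β₁ (ptr F J ω)| ≤ |τ (slam F W ω)| + |τ (slam F W ω) - β₁ (ptr F J ω)| := by
      have e1 : β₁ (ptr F J ω) = τ (slam F W ω) - (τ (slam F W ω) - β₁ (ptr F J ω)) := by ring
      have a4 := abs_sub (τ (slam F W ω)) (τ (slam F W ω) - β₁ (ptr F J ω))
      rw [← e1] at a4
      exact a4
    linarith
  have he1 : (1 : ℝ) ≤ 2 ^ e := one_le_pow₀ (by norm_num)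
  have he2 : (2 : ℝ) ^ e ≤ 2 ^ (2 * e + 1) := pow_le_pow_right₀ (by norm_num) (by omega)
  have he3 : (2 : ℝ) ^ e + 2 ^ e * 2 ^ e ≤ 2 ^ (2 * e + 1) := by
    have k1 : (2 : ℝ) ^ (2 * e + 1) = 2 ^ e * 2 ^ e + 2 ^ e * 2 ^ e := by
      rw [pow_succ, two_mul, pow_add]
      ring
    have k2 : (2 : ℝ) ^ e * 1 ≤ 2 ^ e * 2 ^ e := mul_le_mul_of_nonneg_left he1 (by positivity)
    rw [k1]
    linarith
  have hmix : ∀ x y b : ℝ, |x| ≤ 2 ^ e → |y| ≤ 2 ^ e → |b| ≤ 2 ^ e →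
      |x - b * y| ≤ 2 ^ (2 * e + 1) := by
    intro x y b hx hy hb
    refine (abs_sub _ _).trans ((add_le_add hx ?_).trans he3)
    rw [abs_mul]
    exact mul_le_mul hb hy (abs_nonneg _) (by positivity)
  obtain ⟨a, ha⟩ : ∃ a : PtT F → Fin m → ℝ, a = fun p k =>
    if k = u then β₁ p else av p k - β₁ p * au p k := ⟨_, rfl⟩
  obtain ⟨c, hc⟩ : ∃ c : PtT F → ℝ, c = fun p => cv p - β₁ p * cu p := ⟨_, rfl⟩
  obtain ⟨th, hth⟩ : ∃ th : LnT F → Fin m → ℝ, th = fun s k =>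
    if k = u then β₂ s else σ s k + (τ s - β₂ s) * j s k := ⟨_, rfl⟩
  have hau : ∀ p, a p u = β₁ p := fun p => by
    rw [ha]
    exact if_pos rfl
  have hak : ∀ p, ∀ k ∈ Y, a p k = av p k - β₁ p * au p k := fun p k hk => by
    rw [ha]
    exact if_neg (fun hh : k = u => hu (hh ▸ hk))
  have hdp : DpI F B₁ (insert u Y) v (2 * e + 1) M' a c := by
    intro ω hω
    have hωB := b1 ω hω
    obtain ⟨k1, k2, k3⟩ := h.bd ω hωB
    have k4 := (hβb ω hωB).trans h.b₀e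
    refine ⟨fun k hk => ?_, ?_, ?_⟩
    · rcases Finset.mem_insert.1 hk with rfl | hk
      · rw [hau]
        exact k4.trans he2
      · rw [hak _ k hk]
        exact hmix _ _ _ (k1 k hk).2 (k1 k hk).1 k4
    · rw [hc]
      exact hmix _ _ _ k3 k2 k4
    · have k5 := h.velv ω hωB
      have k6 := h.velu ω hωB
      have k7 := hβb ω hωB
      rw [Finset.sum_insert hu, hau, hc]
      have e1 : ∑ k ∈ Y, a (ptr F J ω) k * F.d ω k =
          ∑ k ∈ Y, av (ptr F J ω) k * F.d ω k -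
            β₁ (ptr F J ω) * ∑ k ∈ Y, au (ptr F J ω) k * F.d ω k := by
        rw [Finset.mul_sum, ← Finset.sum_sub_distrib]
        refine Finset.sum_congr rfl fun k hk => ?_
        rw [hak _ k hk]
        ring
      rw [e1]
      obtain ⟨X, hX⟩ : ∃ X, X = F.d ω u - cu (ptr F J ω) -
        ∑ k ∈ Y, au (ptr F J ω) k * F.d ω k := ⟨_, rfl⟩
      obtain ⟨X', hX'⟩ : ∃ X', X' = F.d ω v - cv (ptr F J ω) -
        ∑ k ∈ Y, av (ptr F J ω) k * F.d ω k := ⟨_, rfl⟩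
      rw [← hX] at k6
      rw [← hX'] at k5
      have e2 : F.d ω v - (cv (ptr F J ω) - β₁ (ptr F J ω) * cu (ptr F J ω)) -
          (β₁ (ptr F J ω) * F.d ω u + (∑ k ∈ Y, av (ptr F J ω) k * F.d ω k -
            β₁ (ptr F J ω) * ∑ k ∈ Y, au (ptr F J ω) k * F.d ω k)) =
          X' - β₁ (ptr F J ω) * X := by
        rw [hX, hX']
        ring
      show |F.d ω v - (cv (ptr F J ω) - β₁ (ptr F J ω) * cu (ptr F J ω)) -
          (β₁ (ptr F J ω) * F.d ω u + (∑ k ∈ Y, av (ptr F J ω) k * F.d ω k -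
            β₁ (ptr F J ω) * ∑ k ∈ Y, au (ptr F J ω) k * F.d ω k))| ≤ _
      rw [e2]
      have k8 : |β₁ (ptr F J ω) * X| ≤ 1 / 2 ^ M := by
        rw [abs_mul]
        exact (mul_le_mul_of_nonneg_right k7 (abs_nonneg _)).trans k6
      refine ((abs_sub _ _).trans (add_le_add k5 k8)).trans ?_
      refine le_trans ?_ hMM
      rw [← add_div]
      exact div_le_div_of_nonneg_right (by norm_num) pM.le
  have hcls : ∀ ω, B₁ ω → ∀ k ∈ insert u Y,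
      |th (slam F W ω) k - a (ptr F J ω) k| ≤ 1 / 2 ^ M' := by
    intro ω hω k hk
    have hωB := b1 ω hω
    rcases Finset.mem_insert.1 hk with rfl | hk
    · rw [hau, hth]
      show |(if k = k then β₂ (slam F W ω) else _) - _| ≤ _
      rw [if_pos rfl, hcl ω hω, sub_self, abs_zero]
      positivity
    · have hku : k ≠ u := fun hh => hu (hh ▸ hk)
      rw [hak _ k hk, hth]
      show |(if k = u then β₂ (slam F W ω) else _) - _| ≤ _
      rw [if_neg hku, ← hcl ω hω]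
      have k1 := h.rel ω hωB k hk
      have k2 := h.nat ω hωB k hk
      have k3 := hn1 ω hωB
      have e1 : σ (slam F W ω) k + (τ (slam F W ω) - β₁ (ptr F J ω)) * j (slam F W ω) k -
          (av (ptr F J ω) k - β₁ (ptr F J ω) * au (ptr F J ω) k) =
          (σ (slam F W ω) k + τ (slam F W ω) * au (ptr F J ω) k - av (ptr F J ω) k) +
          (τ (slam F W ω) - β₁ (ptr F J ω)) * (j (slam F W ω) k - au (ptr F J ω) k) := by ring
      rw [e1]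
      have k4 : |(τ (slam F W ω) - β₁ (ptr F J ω)) * (j (slam F W ω) k - au (ptr F J ω) k)| ≤
          2 / 2 ^ M := by
        rw [abs_mul]
        refine (mul_le_mul k3 k2 (abs_nonneg _) (by positivity)).trans ?_
        rw [div_mul_div_comm, mul_one, ← pow_add, Nat.add_comm Q N]
        exact div_le_div_of_nonneg_left (by norm_num) pM
          (pow_le_pow_right₀ (by norm_num) h.num)
      refine ((abs_add_le _ _).trans (add_le_add k1 k4)).trans ?_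
      refine le_trans ?_ hMM
      rw [← add_div]
      exact div_le_div_of_nonneg_right (by norm_num) pM.le
  obtain ⟨B₂, c1, c2, c3⟩ := lab_grd hW hdp hcls h4 h5
  refine ⟨B₂, fun ω hω => b1 ω (c1 ω hω), ?_, c3⟩
  rw [pow_one] at b2
  have k1 : (2 * ((2 : ℕ) : ℝ) + 1) * Pe F.p B₁ ≤ 5 * (cI m * Pe F.p B₂) := by
    have k2 : (2 * ((2 : ℕ) : ℝ) + 1) = 5 := by
      push_cast
      norm_num
    rw [k2]
    exact mul_le_mul_of_nonneg_left c2 (by norm_num)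
  refine b2.trans (k1.trans (le_of_eq ?_))
  ring

/-- **Events on which the slope over the tied coordinate is visible are small.** -/
theorem tr_lev {S : PCl m} {L : Finset (Fin m) → Fin m → ℝ → ℝ → ℝ} (hL : LamW S L)
    {Y : Finset (Fin m)} {u v : Fin m} (hu : u ∉ Y) {W r s : ℝ} (hW0 : 0 ≤ W) (hs : 0 < s)
    (hLW : W ≤ L (insert u Y) v W r) (hLs : L (insert u Y) v W r + 2 * s ≤ 1) :
    ∃ d : ℝ, 0 < d ∧ ∀ e : ℝ, 0 < e → e ≤ d → ∃ δ : ℝ, 0 < δ ∧ Bas S (fun J F A =>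
      ∀ (B : F.Ω → Prop) (M N Q : ℕ) (au av : PtT F → Fin m → ℝ) (cu cv : PtT F → ℝ)
        (τ : LnT F → ℝ) (σ j : LnT F → Fin m → ℝ) (b₀ : ℝ), Sub B A →
        TrD F B Y u v ⌊W * J⌋₊ ⌊e * J⌋₊ M N Q au av cu cv τ σ j b₀ →
        ⌊(L (insert u Y) v W r - W + s) * J⌋₊ ≤ M → ∀ β : PtT F → ℝ,
        (∀ ω, B ω → |τ (slam F ⌊W * J⌋₊ ω) - β (ptr F J ω)| ≤ 1 / 2 ^ Q) →
        Pe F.p B ≤ Real.exp (-(δ * J)) * Pe F.p A) := by
  classical
  obtain ⟨Lw, hLw⟩ : ∃ Lw, Lw = L (insert u Y) v W r := ⟨_, rfl⟩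
  rw [← hLw] at hLs hLW
  obtain ⟨d, hd, hd1, habs⟩ := hL.abs (insert u Y) v W r (Lw + s / 2) (by rw [← hLw]; linarith)
    (by linarith)
  rw [← hLw]
  refine ⟨min (d / 4) (s / 8), lt_min (by linarith) (by linarith), ?_⟩
  intro e he hed
  have hed1 : e ≤ d / 4 := hed.trans (min_le_left _ _)
  have hed2 : e ≤ s / 8 := hed.trans (min_le_right _ _)
  obtain ⟨τ₄, hτ₄, J₄, hb₄⟩ := habs d le_rfl 1
  have hm0 : (0 : ℝ) ≤ m := Nat.cast_nonneg m
  obtain ⟨J₅, hJ₅⟩ := exists_nat_ge ((m + 10 : ℝ) / min e (τ₄ / 2))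
  obtain ⟨J₆, hJ₆⟩ := exists_nat_ge (Real.log (5 * cI m) / (τ₄ / 2))
  refine ⟨τ₄ / 4, by linarith, τ₄ / 4, by linarith, max J₄ (max J₅ J₆), ?_⟩
  intro J hJ F A hA B M N Q au av cu cv τ σ j b₀ hBA hD hM β hβ
  by_contra hcon
  push Not at hcon
  have hB : S.St (τ₄ / 4 + τ₄ / 4) J F B := S.res (by linarith) hA hBA hcon.le
  have e0 : τ₄ / 4 + τ₄ / 4 = τ₄ / 2 := by ring
  rw [e0] at hB
  have j4 : J₄ ≤ J := (le_max_left _ _).trans hJ
  have j5 : (J₅ : ℝ) ≤ J := by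
    exact_mod_cast ((le_max_left _ _).trans (le_max_right _ _)).trans hJ
  have j6 : (J₆ : ℝ) ≤ J := by
    exact_mod_cast ((le_max_right _ _).trans (le_max_right _ _)).trans hJ
  have hJ0 : (0 : ℝ) ≤ J := Nat.cast_nonneg J
  have q1 : (m + 10 : ℝ) ≤ e * J := by
    have h1 := hJ₅.trans j5
    rw [div_le_iff₀ (lt_min he (by linarith))] at h1
    have h2 : min e (τ₄ / 2) * J ≤ e * J := mul_le_mul_of_nonneg_right (min_le_left _ _) hJ0
    linarith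
  have hlog : Real.log (5 * cI m) ≤ τ₄ / 2 * J := by
    have h1 := hJ₆.trans j6
    rw [div_le_iff₀ (by linarith)] at h1
    linarith
  have f1 : (⌊W * (J : ℝ)⌋₊ : ℝ) ≤ W * J := Nat.floor_le (by positivity)
  have f1' : W * (J : ℝ) - 1 < ⌊W * (J : ℝ)⌋₊ := Nat.sub_one_lt_floor _
  have hx0 : 0 ≤ Lw - W + s := by linarith
  have f2 : (⌊(Lw - W + s) * (J : ℝ)⌋₊ : ℝ) ≤ (Lw - W + s) * J := Nat.floor_le (by positivity)
  have f2' : (Lw - W + s) * (J : ℝ) - 1 < ⌊(Lw - W + s) * (J : ℝ)⌋₊ := Nat.sub_one_lt_floor _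
  have f3 : (⌊e * (J : ℝ)⌋₊ : ℝ) ≤ e * J := Nat.floor_le (by positivity)
  have f4 : (⌊(Lw + s / 2) * (J : ℝ)⌋₊ : ℝ) ≤ (Lw + s / 2) * J :=
    Nat.floor_le (mul_nonneg (by linarith) hJ0)
  have f5 : d * (J : ℝ) - 1 < ⌊d * (J : ℝ)⌋₊ := Nat.sub_one_lt_floor _
  have f6 : (W + d) * (J : ℝ) - 1 < ⌊(W + d) * (J : ℝ)⌋₊ := Nat.sub_one_lt_floor _
  have f7 : (⌊(W + d) * (J : ℝ)⌋₊ : ℝ) ≤ (W + d) * J := Nat.floor_le (by positivity)
  have g1 : e * (J : ℝ) ≤ d / 4 * J := mul_le_mul_of_nonneg_right hed1 hJ0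
  have g2 : e * (J : ℝ) ≤ s / 8 * J := mul_le_mul_of_nonneg_right hed2 hJ0
  have g3 : (Lw + 2 * s) * J ≤ 1 * J := mul_le_mul_of_nonneg_right hLs hJ0
  have g4 : (W + d) * J ≤ 1 * J := mul_le_mul_of_nonneg_right hd1 hJ0
  have hcast : ∀ a b : ℕ, (a : ℝ) ≤ b → a ≤ b := fun a b h => by exact_mod_cast h
  -- the precision
  obtain ⟨M', hM'⟩ : ∃ M', M' = ⌊(Lw - W + s) * (J : ℝ)⌋₊ - 2 := ⟨_, rfl⟩
  have hge : 2 ≤ ⌊(Lw - W + s) * (J : ℝ)⌋₊ := hcast _ _ (by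
    have k1 : 0 ≤ (Lw - W) * J := mul_nonneg (by linarith) hJ0
    push_cast
    linarith only [f2', g2, q1, k1, hm0])
  have hM'1 : M' + 2 = ⌊(Lw - W + s) * (J : ℝ)⌋₊ := by omega
  have hM'2 : (M' : ℝ) + 2 = (⌊(Lw - W + s) * (J : ℝ)⌋₊ : ℝ) := by exact_mod_cast hM'1
  obtain ⟨B', b1, b2, b3⟩ := lev_fam (P := ⌊(Lw + s / 2) * J⌋₊) (M' := M') hu hD β hβ
    (hcast _ _ (by
      have : 0 ≤ d * (J : ℝ) := by positivity
      linarith only [f1, g4, this])) (by omega) (hcast _ _ (by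
      push_cast
      linarith only [f1, f2, f3, g2, g3, q1, hM'2])) (hcast _ _ (by
      push_cast
      linarith only [f1', f2', f4, g2, q1, hM'2]))
  have hB'S := res_of (by linarith : (0 : ℝ) ≤ τ₄ / 2) hB b1
    (by
      have := cI_pos m
      positivity : (0 : ℝ) < 5 * cI m) hlog b2
  have e1 : 2 * (τ₄ / 2) = τ₄ := by ring
  rw [e1] at hB'S
  refine hb₄ J j4 F B' hB'S ?_
  exact (b3 ⌊(r + d) * J⌋₊).mono (Finset.Subset.refl _) le_rfl (hcast _ _ (by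
      push_cast
      linarith only [f3, f5, g1, q1, hm0])) le_rfl (hcast _ _ (by
      linarith only [f1, f6, g1, q1, hm0])) (hcast _ _ (by linarith only [f7, g4])) le_rfl le_rfl

/-- The events of a class with numbers have positive mass. -/
theorem pos_lam {S : PCl m} {C₀ : ℝ} (htm : TmC S C₀) : Bas S (fun _ F A => 0 < Pe F.p A) :=
  ⟨1, one_pos, 0, fun J _ F A hA => (htm 1 J F A one_pos hA).1⟩

/-- **The slopes over a tied coordinate are transversal**: two conditionally independent samples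
with the same exact point have different slopes, with probability near one, for every law with a
bounded density on the event. -/
theorem tr_lam {S : PCl m} {C₀ : ℝ} (htm : TmC S C₀) {L : Finset (Fin m) → Fin m → ℝ → ℝ → ℝ}
    (hL : LamW S L) {Y : Finset (Fin m)} {u v : Fin m} (hu : u ∉ Y) {W r s : ℝ} (hW0 : 0 ≤ W)
    (hs : 0 < s) (hLW : W ≤ L (insert u Y) v W r) (hLs : L (insert u Y) v W r + 2 * s ≤ 1) :
    ∃ d : ℝ, 0 < d ∧ ∀ e : ℝ, 0 < e → e ≤ d → ∃ δ : ℝ, 0 < δ ∧ Bas S (fun J F A =>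
      ∀ (B : F.Ω → Prop) (M N Q : ℕ) (au av : PtT F → Fin m → ℝ) (cu cv : PtT F → ℝ)
        (τ : LnT F → ℝ) (σ j : LnT F → Fin m → ℝ) (b₀ : ℝ), Sub B A →
        TrD F B Y u v ⌊W * J⌋₊ ⌊e * J⌋₊ M N Q au av cu cv τ σ j b₀ →
        ⌊(L (insert u Y) v W r - W + s) * J⌋₊ ≤ M →
        ∀ (q : F.Ω → ℝ) (K : ℝ), IsLaw q → 0 ≤ K → (∀ ω, 0 < q ω → B ω) →
        (∀ ω, q ω * Pe F.p A ≤ K * F.p ω) →
        Pe (P2 q (ptr F J)) (fun x => |τ (slam F ⌊W * J⌋₊ x.1) - τ (slam F ⌊W * J⌋₊ x.2)| ≤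
          1 / 2 ^ Q) ≤ K * Real.exp (-(δ * J))) := by
  classical
  obtain ⟨d, hd, hlev⟩ := tr_lev hL hu hW0 hs hLW hLs
  refine ⟨d, hd, fun e he hed => ?_⟩
  obtain ⟨δ, hδ, τ₁, hτ₁, J₁, hev⟩ := hlev e he hed
  obtain ⟨τ₂, hτ₂, J₂, hpos⟩ := pos_lam htm
  refine ⟨δ, hδ, min τ₁ τ₂, lt_min hτ₁ hτ₂, max J₁ J₂, ?_⟩
  intro J hJ F A hA B M N Q au av cu cv τ σ j b₀ hBA hD hM q K hq hK hqB hqK
  obtain ⟨w, hw⟩ : ∃ w, w = ⌊W * (J : ℝ)⌋₊ := ⟨_, rfl⟩
  have hne : Nonempty F.Ω := by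
    by_contra hcon
    rw [not_nonempty_iff] at hcon
    have h2 := hq.sum_one
    rw [Finset.univ_eq_empty, Finset.sum_empty] at h2
    exact zero_ne_one h2
  obtain ⟨sel, hsel⟩ := pair_sel hq.nonneg (ptr F J)
    (fun ω ω' => B ω' ∧ |τ (slam F w ω) - τ (slam F w ω')| ≤ 1 / 2 ^ Q)
  rw [← hw] at hD ⊢
  have hadd : Pe (P2 q (ptr F J)) (fun x => |τ (slam F w x.1) - τ (slam F w x.2)| ≤
      1 / 2 ^ Q) ≤ Pe (P2 q (ptr F J)) (fun x => B x.2 ∧
        |τ (slam F w x.1) - τ (slam F w x.2)| ≤ 1 / 2 ^ Q) := by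
    rw [pe_sum, pe_sum]
    refine Finset.sum_le_sum fun x _ => ?_
    by_cases hx : |τ (slam F w x.1) - τ (slam F w x.2)| ≤ 1 / 2 ^ Q
    · rw [if_pos hx]
      by_cases h2 : B x.2
      · rw [if_pos ⟨h2, hx⟩]
      · rw [if_neg (fun h => h2 h.1)]
        have h3 : q x.2 = 0 := by
          by_contra h3
          exact h2 (hqB _ (lt_of_le_of_ne (hq.nonneg _) (Ne.symm h3)))
        unfold P2 glue
        rw [h3]
        simp
    · rw [if_neg hx, if_neg (fun h => hx h.2)]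
  refine (hadd.trans hsel).trans ?_
  obtain ⟨β, hβ⟩ : ∃ β : PtT F → ℝ, β = fun y => τ (slam F w (sel y)) := ⟨_, rfl⟩
  obtain ⟨B', hB'⟩ : ∃ B' : F.Ω → Prop, B' = fun ω => B ω ∧ (B (sel (ptr F J ω)) ∧
    |τ (slam F w ω) - β (ptr F J ω)| ≤ 1 / 2 ^ Q) := ⟨_, rfl⟩
  have hB'B : Sub B' B := fun ω hω => by
    rw [hB'] at hω
    exact hω.1
  have h2 := hev J ((le_max_left _ _).trans hJ) F A (S.mono (min_le_left _ _) hA) B' M N Q au av
    cu cv τ σ j b₀ (fun ω hω => hBA ω (hB'B ω hω)) (by rw [← hw]; exact hD.sub hB'B) hM β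
    (fun ω hω => by
      rw [hB'] at hω
      rw [← hw]
      exact hω.2.2)
  have hPA := Pe_nonneg F.isLaw A
  have h3 : Pe q (fun ω => B (sel (ptr F J ω)) ∧
      |τ (slam F w ω) - τ (slam F w (sel (ptr F J ω)))| ≤ 1 / 2 ^ Q) ≤ Pe q B' := by
    rw [pe_sum, pe_sum]
    refine Finset.sum_le_sum fun ω _ => ?_
    rcases (hq.nonneg ω).eq_or_lt with h0 | h0
    · rw [← h0]
      simp
    · by_cases h4 : B (sel (ptr F J ω)) ∧
        |τ (slam F w ω) - τ (slam F w (sel (ptr F J ω)))| ≤ 1 / 2 ^ Q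
      · rw [if_pos h4, if_pos (by rw [hB', hβ]; exact ⟨hqB ω h0, h4⟩)]
      · rw [if_neg h4]
        split_ifs
        exacts [h0.le, le_rfl]
  refine h3.trans ?_
  have h4 : Pe q B' * Pe F.p A ≤ K * Pe F.p B' := by
    rw [pe_sum q, pe_sum F.p B', Finset.sum_mul, Finset.mul_sum]
    refine Finset.sum_le_sum fun ω _ => ?_
    split_ifs with h5
    · exact hqK ω
    · rw [zero_mul, mul_zero]
  have h5 : 0 < Pe F.p A := hpos J ((le_max_right _ _).trans hJ) F A (S.mono (min_le_right _ _) hA)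
  have h6 : Pe q B' * Pe F.p A ≤ K * (Real.exp (-(δ * J)) * Pe F.p A) :=
    h4.trans (mul_le_mul_of_nonneg_left h2 hK)
  rw [← mul_assoc] at h6
  exact le_of_mul_le_mul_right h6 h5

end Pool.JVE
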