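import Pool.Agent.H62.OWN.Hfm
import Pool.Agent.H62.OWN.LabI
import Pool.Agent.H6.OWN.Tie
import Pool.Agent.H6.OWN.Dps

/-!
# Closed gradients from small mixed second derivatives

`code_fam`: a function of the exact point which is nearly a function of the line in the window has
a closed version. `grd_dif`: if the mixed second derivatives of a closed label at the samples are
small, its derivatives are nearly constant on the lines in the window.
-/

set_option autoImplicit false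

namespace Pool.JVE

open Finset MvPolynomial
open Pool.Agent.H49.Ent Pool.Agent.H32.Dense Pool.STK Pool.KA Pool.KSAT Pool.K2S Pool.PB Pool.GEN
open Pool.MIC6 (floor_diff floor_div_near mvp wt wp wpt wp_eq dpt dpt_near)
open Pool.FLF (Fam.sub)
open Pool.PB.Trl (rt rt_mem t_rt)
open Pool.D2R (hs dd der_curve)

variable {m J : ℕ}

/-- **A closed version of a function.** -/
theorem code_fam {F : Fam m J} {A : F.Ω → Prop} {W : ℕ} (f : PtT F → ℝ) {r Bd : ℝ} (hr : 0 < r)
    (hBd : ∀ ω, A ω → |f (ptr F J ω)| ≤ Bd)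
    (hf : ∀ ω ω', A ω → A ω' → slam F W ω = slam F W ω' →
      |f (ptr F J ω) - f (ptr F J ω')| ≤ r) :
    ∃ B : F.Ω → Prop, Sub B A ∧ Pe F.p A ≤ 3 * Pe F.p B ∧ ∃ (bp : PtT F → ℝ) (bs : LnT F → ℝ),
      ∀ ω, B ω → bp (ptr F J ω) = bs (slam F W ω) ∧
        |bp (ptr F J ω) - f (ptr F J ω)| ≤ r ∧ |bp (ptr F J ω)| ≤ 2 * Bd := by
  classical
  by_cases hrB : Bd ≤ r
  · refine ⟨A, fun _ h => h, ?_, fun _ => 0, fun _ => 0, fun ω hω => ⟨rfl, ?_, ?_⟩⟩
    · have := Pe_nonneg F.isLaw A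
      linarith
    · rw [zero_sub, abs_neg]
      exact (hBd ω hω).trans hrB
    · rw [abs_zero]
      have := (abs_nonneg _).trans (hBd ω hω)
      linarith
  · rw [not_le] at hrB
    obtain ⟨g, hg⟩ : ∃ g : PtT F → ℤ, g = fun p => ⌊1 / r * f p⌋ := ⟨_, rfl⟩
    have hr1 : 0 < 1 / r := by positivity
    obtain ⟨B, b1, b2, φ, b3⟩ := Pool.S6K.exact_label F.isLaw 1 (slam F W)
      (fun ω (_ : Fin 1) => g (ptr F J ω)) A (fun ω ω' hω hω' hh i => by
        rw [hg]
        refine floor_diff ?_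
        rw [← mul_sub, abs_mul, abs_of_pos hr1, one_div, inv_mul_le_iff₀ hr]
        push_cast
        rw [mul_one]
        exact hf ω ω' hω hω' hh)
    refine ⟨B, b1, ?_, fun p => (g p : ℝ) / (1 / r), fun s => (φ s 0 : ℝ) / (1 / r),
      fun ω hω => ?_⟩
    · refine b2.trans (le_of_eq ?_)
      norm_num
    · have h1 : g (ptr F J ω) = φ (slam F W ω) 0 := congrFun (b3 ω hω) 0
      have h2 : |f (ptr F J ω) - (g (ptr F J ω) : ℝ) / (1 / r)| ≤ 1 / (1 / r) := by
        rw [hg]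
        exact floor_div_near hr1
      rw [one_div_one_div] at h2
      refine ⟨?_, ?_, ?_⟩
      · show (g (ptr F J ω) : ℝ) / (1 / r) = (φ (slam F W ω) 0 : ℝ) / (1 / r)
        rw [h1]
      · rw [abs_sub_comm]
        exact h2
      · have h3 := hBd ω (b1 ω hω)
        rw [abs_le] at h2 h3 ⊢
        constructor <;> linarith [h2.1, h2.2, h3.1, h3.2]

/-- The point of the line of the sample as values of polynomials. -/
theorem lc_wpt (F : Fam m J) (w : ℕ) (ω : F.Ω) (t : ℝ) :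
    (fun o => (lc w (slam F w ω) o).eval t) = wpt F w ω t := by
  funext o
  cases o with
  | none =>
    show (Polynomial.C (((slam F w ω).2.2 : ℝ) / 2 ^ w) + Polynomial.C (1 / 2 ^ w) *
      Polynomial.X).eval t = wt F w ω t
    unfold wt
    simp only [Polynomial.eval_add, Polynomial.eval_mul, Polynomial.eval_C, Polynomial.eval_X]
  | some j =>
    show (Polynomial.C ((slam F w ω).1.1 j) + Polynomial.C ((slam F w ω).1.2 j) *
      (Polynomial.C (((slam F w ω).2.2 : ℝ) / 2 ^ w) + Polynomial.C (1 / 2 ^ w) *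
      Polynomial.X)).eval t = wp F w ω t j
    unfold wp wt
    simp only [Polynomial.eval_add, Polynomial.eval_mul, Polynomial.eval_C, Polynomial.eval_X]
    rfl

/-- The mean value inequality for a polynomial. -/
theorem mvt_pol {q : Polynomial ℝ} {B : ℝ}
    (h : ∀ t ∈ Set.Icc (0 : ℝ) 1, |q.derivative.eval t| ≤ B) {s t : ℝ}
    (hs : s ∈ Set.Icc (0 : ℝ) 1) (ht : t ∈ Set.Icc (0 : ℝ) 1) : |q.eval s - q.eval t| ≤ B := by
  have h1 := Convex.norm_image_sub_le_of_norm_deriv_le (f := fun x => q.eval x) (C := B)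
    (s := Set.Icc (0 : ℝ) 1) (fun x _ => (Polynomial.differentiable q) x)
    (fun x hx => by
      rw [Polynomial.deriv, Real.norm_eq_abs]
      exact h x hx) (convex_Icc 0 1) ht hs
  rw [Real.norm_eq_abs, Real.norm_eq_abs] at h1
  have hB : 0 ≤ B := (abs_nonneg _).trans (h s hs)
  have h2 : |s - t| ≤ 1 := by
    rw [abs_le]
    constructor <;> linarith [hs.1, hs.2, ht.1, ht.2]
  refine h1.trans ?_
  have := mul_le_mul_of_nonneg_left h2 hB
  linarith

/-- **The derivatives are nearly constant on the lines.** -/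
theorem grd_dif (m K : ℕ) : ∃ C : ℝ, 1 ≤ C ∧ ∀ {J : ℕ} (F : Fam m J) (A : F.Ω → Prop)
    (_ : 0 < Pe F.p A) {w : ℕ} {R : LnT F → MvPolynomial (Option (Fin m)) ℝ} {B θ : ℝ},
    w ≤ J → (∀ s, (R s).totalDegree ≤ K) → 0 < B → 0 ≤ θ →
    (∀ (hA : 0 < Pe F.p A), (Fam.sub F A hA).Tm θ) →
    C * (θ + 1) ≤ ((J : ℝ) - w) * Real.log 2 →
    (∀ ω, A ω → |dd (R (slam F w ω)) (bt F ω) (bd F ω)| ≤ B) →
    ∃ A' : F.Ω → Prop, Sub A' A ∧ Pe F.p A / 2 ≤ Pe F.p A' ∧ ∀ ω, A' ω →
      ∀ s ∈ Set.Icc (0 : ℝ) 1, ∀ t ∈ Set.Icc (0 : ℝ) 1,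
      |eval (wpt F w ω s) (R (slam F w ω)) - eval (wpt F w ω t) (R (slam F w ω))| ≤
        Real.exp (C * (θ + 1)) * (1 / 2 ^ w * B) := by
  classical
  obtain ⟨C, hC, hrem⟩ := Pool.PZ.Zrt.rem_ev (m := m) K
  refine ⟨C, hC, ?_⟩
  intro J F A hA w R B θ hw hR hB hθ hTm hJ hd
  obtain ⟨A', a1, a2, a3⟩ := hrem J F A hA w (fun s => Polynomial.derivative
    (MvPolynomial.aeval (lc w s) (R s))) (1 / 2 ^ w * B) θ hw (fun s =>
      (Polynomial.natDegree_derivative_le _).trans ((Nat.sub_le _ _).trans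
        (Pool.KBX.natDegree_aeval_le _ _ (natDegree_lc w s) (hR s)))) (by positivity) hθ
    (hTm hA) hJ (by
      intro ω hω
      have h1 := (der_curve (lc w (slam F w ω)) (x := bt F ω) (V := fun o => 1 / 2 ^ w * bd F ω o)
        (Z := 0) (s := rt F w ω) (fun o => eval_lc F hw ω o) (fun o => by
          rw [der_lc, Polynomial.eval_C]) (fun o => by
          rw [der_lc, Polynomial.derivative_C, Polynomial.eval_zero]
          rfl) (R (slam F w ω))).1
      show |(Polynomial.derivative (MvPolynomial.aeval (lc w (slam F w ω))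
        (R (slam F w ω)))).eval (rt F w ω)| ≤ _
      rw [h1]
      have h2 : dd (R (slam F w ω)) (bt F ω) (fun o => 1 / 2 ^ w * bd F ω o) =
          1 / 2 ^ w * dd (R (slam F w ω)) (bt F ω) (bd F ω) := by
        unfold dd
        rw [Finset.mul_sum]
        exact Finset.sum_congr rfl fun o _ => by ring
      rw [h2, abs_mul, abs_of_pos (by positivity : (0 : ℝ) < 1 / 2 ^ w)]
      exact mul_le_mul_of_nonneg_left (hd ω hω) (by positivity))
  refine ⟨A', a1, a2, fun ω hω s hs t ht => ?_⟩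
  have h1 := mvt_pol (q := MvPolynomial.aeval (lc w (slam F w ω)) (R (slam F w ω)))
    (fun t ht => a3 ω hω t ht) hs ht
  rw [Pool.KBX.eval_aeval_poly, Pool.KBX.eval_aeval_poly, lc_wpt, lc_wpt] at h1
  exact h1

/-- **An affine label over three coordinates** from closed derivatives in natural units. -/
theorem cls3_ab {F : Fam m J} {B : F.Ω → Prop} {y u v k : Fin m} (hyu : y ≠ u) (hyv : y ≠ v)
    (huv : u ≠ v) {W e M M' P : ℕ} {au cu av cv ak ck gu gv θp : PtT F → ℝ}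
    {hu hv hy ju jv θs : LnT F → ℝ} {aU aD ru rv E₁ : ℝ}
    (hDu : Pool.MIC6.Dp F B y u e M au cu) (hDv : Pool.MIC6.Dp F B y v e M av cv)
    (hDk : Pool.MIC6.Dp F B y k e M ak ck)
    (thc : ∀ ω, B ω → θp (ptr F J ω) = θs (slam F W ω))
    (hθ : ∀ ω, B ω → |θp (ptr F J ω)| ≤ 2 ^ e)
    (nu : ∀ ω, B ω → |ju (slam F W ω) - au (ptr F J ω)| ≤ aU)
    (nv : ∀ ω, B ω → |jv (slam F W ω) + θs (slam F W ω) * au (ptr F J ω) -
      av (ptr F J ω)| ≤ aD)
    (hgu : ∀ ω, B ω → |gu (ptr F J ω)| ≤ 2 ^ (2 * e + 1))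
    (hgv : ∀ ω, B ω → |gv (ptr F J ω)| ≤ 2 ^ e)
    (du : ∀ ω, B ω → |gu (ptr F J ω) - hu (slam F W ω)| ≤ ru)
    (dv : ∀ ω, B ω → |gv (ptr F J ω) - hv (slam F W ω)| ≤ rv)
    (rel : ∀ ω, B ω → |hy (slam F W ω) + hu (slam F W ω) * au (ptr F J ω) +
      hv (slam F W ω) * (av (ptr F J ω) - θs (slam F W ω) * au (ptr F J ω)) -
      ak (ptr F J ω)| ≤ E₁) (hru : 0 < ru) (hrv : 0 < rv)
    (num : 3 * ru * aU + 3 * rv * aD + E₁ ≤ 1 / 2 ^ M') (hM : M' + 2 * e + 4 ≤ M) (hW : W ≤ J)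
    (h4 : W + M' + (3 * e + 4) + m + 3 ≤ J) (h5 : P + m + 3 ≤ W + M') :
    ∃ B' : F.Ω → Prop, Sub B' B ∧ Pe F.p B ≤ 9 * cI m * Pe F.p B' ∧
      ∀ ρ : ℕ, Lb F {y, u, v} k 1 (3 * e + 5) J W ρ P B' := by
  classical
  have pe : (1 : ℝ) ≤ 2 ^ e := one_le_pow₀ (by norm_num)
  have pM : (0 : ℝ) < 2 ^ M := by positivity
  -- the closed derivatives
  obtain ⟨B₁, b1, b2, bp, bs, b3⟩ := code_fam (F := F) (A := B) (W := W) gu
    (r := 2 * ru) (Bd := 2 ^ (2 * e + 1)) (by linarith) hgu (fun ω ω' hω hω' hh => by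
      have k1 := du ω hω
      have k2 := du ω' hω'
      rw [hh] at k1
      rw [abs_le] at k1 k2 ⊢
      constructor <;> linarith [k1.1, k1.2, k2.1, k2.2])
  obtain ⟨B₂, c1, c2, cp, cs, c3⟩ := code_fam (F := F) (A := B₁) (W := W) gv
    (r := 2 * rv) (Bd := 2 ^ e) (by linarith) (fun ω hω => hgv ω (b1 ω hω))
    (fun ω ω' hω hω' hh => by
      have k1 := dv ω (b1 ω hω)
      have k2 := dv ω' (b1 ω' hω')
      rw [hh] at k1
      rw [abs_le] at k1 k2 ⊢
      constructor <;> linarith [k1.1, k1.2, k2.1, k2.2])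
  have hB₂ : Sub B₂ B := fun ω hω => b1 ω (c1 ω hω)
  obtain ⟨xp, hxp⟩ : ∃ xp : PtT F → ℝ, xp = fun p => bp p - θp p * cp p := ⟨_, rfl⟩
  obtain ⟨xs, hxs⟩ : ∃ xs : LnT F → ℝ, xs = fun s => bs s - θs s * cs s := ⟨_, rfl⟩
  have hx : ∀ ω, B₂ ω → xp (ptr F J ω) = xs (slam F W ω) := by
    intro ω hω
    rw [hxp, hxs]
    show bp (ptr F J ω) - θp (ptr F J ω) * cp (ptr F J ω) =
      bs (slam F W ω) - θs (slam F W ω) * cs (slam F W ω)
    rw [(b3 ω (c1 ω hω)).1, (c3 ω hω).1, thc ω (hB₂ ω hω)]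
  obtain ⟨a, ha⟩ : ∃ a : PtT F → Fin m → ℝ, a = fun p j =>
    if j = y then ak p - xp p * au p - cp p * av p else if j = u then xp p else cp p := ⟨_, rfl⟩
  obtain ⟨th, hth⟩ : ∃ th : LnT F → Fin m → ℝ, th = fun s j =>
    if j = y then hy s + (hu s - bs s) * ju s + (hv s - cs s) * jv s else
      if j = u then xs s else cs s := ⟨_, rfl⟩
  obtain ⟨c, hc⟩ : ∃ c : PtT F → ℝ, c = fun p => ck p - xp p * cu p - cp p * cv p := ⟨_, rfl⟩
  have hay : ∀ p, a p y = ak p - xp p * au p - cp p * av p := fun p => by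
    rw [ha]
    exact if_pos rfl
  have hau : ∀ p, a p u = xp p := fun p => by
    rw [ha]
    show (if u = y then _ else if u = u then xp p else cp p) = _
    rw [if_neg (Ne.symm hyu), if_pos rfl]
  have hav : ∀ p, a p v = cp p := fun p => by
    rw [ha]
    show (if v = y then _ else if v = u then xp p else cp p) = _
    rw [if_neg (Ne.symm hyv), if_neg (Ne.symm huv)]
  have hty : ∀ s, th s y = hy s + (hu s - bs s) * ju s + (hv s - cs s) * jv s := fun s => by
    rw [hth]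
    exact if_pos rfl
  have htu : ∀ s, th s u = xs s := fun s => by
    rw [hth]
    show (if u = y then _ else if u = u then xs s else cs s) = _
    rw [if_neg (Ne.symm hyu), if_pos rfl]
  have htv : ∀ s, th s v = cs s := fun s => by
    rw [hth]
    show (if v = y then _ else if v = u then xs s else cs s) = _
    rw [if_neg (Ne.symm hyv), if_neg (Ne.symm huv)]
  have hsum : ∀ f : Fin m → ℝ, ∑ j ∈ ({y, u, v} : Finset (Fin m)), f j = f y + (f u + f v) := by
    intro f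
    rw [Finset.sum_insert (by
      rw [Finset.mem_insert, Finset.mem_singleton]
      exact fun h => h.elim hyu hyv), Finset.sum_insert (by
      rw [Finset.mem_singleton]
      exact huv), Finset.sum_singleton]
  -- the sizes
  have e1 : (2 : ℝ) ^ (e + 1) = 2 * 2 ^ e := by rw [pow_succ]; ring
  have e2 : (2 : ℝ) ^ (2 * e + 1) = 2 * (2 ^ e * 2 ^ e) := by
    rw [pow_succ, two_mul, pow_add]
    ring
  obtain ⟨Z, hZ⟩ : ∃ Z : ℝ, Z = 2 ^ e := ⟨_, rfl⟩
  rw [← hZ] at pe e1 e2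
  have hZ2 : Z ≤ Z * Z := by
    have := mul_le_mul_of_nonneg_left pe (by linarith : (0 : ℝ) ≤ Z)
    linarith
  have hZ3 : Z * Z ≤ Z * Z * Z := by
    have := mul_le_mul_of_nonneg_left pe (by positivity : (0 : ℝ) ≤ Z * Z)
    linarith
  have hcp : ∀ ω, B₂ ω → |cp (ptr F J ω)| ≤ 2 * Z := fun ω hω => by
    rw [hZ]
    exact (c3 ω hω).2.2
  have hbp : ∀ ω, B₂ ω → |bp (ptr F J ω)| ≤ 4 * (Z * Z) := fun ω hω => by
    have h1 := (b3 ω (c1 ω hω)).2.2
    rw [e2] at h1
    linarith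
  have hxpb : ∀ ω, B₂ ω → |xp (ptr F J ω)| ≤ 6 * (Z * Z) := by
    intro ω hω
    rw [hxp]
    have h1 := hbp ω hω
    have h2 : |θp (ptr F J ω) * cp (ptr F J ω)| ≤ Z * (2 * Z) := by
      rw [abs_mul]
      have h3 := hθ ω (hB₂ ω hω)
      rw [← hZ] at h3
      exact mul_le_mul h3 (hcp ω hω) (abs_nonneg _) (by linarith)
    refine (abs_sub _ _).trans ?_
    linarith
  have pow3 : (2 : ℝ) ^ (3 * e + 4) = 16 * (Z * Z * Z) := by
    have h1 : 3 * e + 4 = e + e + e + 4 := by ring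
    rw [h1, pow_add, pow_add, pow_add, ← hZ]
    norm_num
    ring
  have hmix : ∀ ω, B₂ ω → ∀ r s t : ℝ, |r| ≤ Z → |s| ≤ Z → |t| ≤ Z →
      |r - xp (ptr F J ω) * s - cp (ptr F J ω) * t| ≤ 2 ^ (3 * e + 4) := by
    intro ω hω r s t hr hs ht
    have h1 : |xp (ptr F J ω) * s| ≤ 6 * (Z * Z) * Z := by
      rw [abs_mul]
      exact mul_le_mul (hxpb ω hω) hs (abs_nonneg _) (by positivity)
    have h2 : |cp (ptr F J ω) * t| ≤ 2 * Z * Z := by
      rw [abs_mul]
      exact mul_le_mul (hcp ω hω) ht (abs_nonneg _) (by linarith)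
    rw [pow3]
    refine (abs_sub _ _).trans ?_
    have h3 := abs_sub r (xp (ptr F J ω) * s)
    linarith
  have hdp : DpI F B₂ {y, u, v} k (3 * e + 4) M' a c := by
    intro ω hω
    have hωB := hB₂ ω hω
    obtain ⟨k1, k2, k3⟩ := hDu ω hωB
    obtain ⟨k4, k5, k6⟩ := hDv ω hωB
    obtain ⟨k7, k8, k9⟩ := hDk ω hωB
    rw [← hZ] at k1 k2 k4 k5 k7 k8
    refine ⟨fun j hj => ?_, ?_, ?_⟩
    · rcases Finset.mem_insert.1 hj with rfl | hj
      · rw [hay]
        exact hmix ω hω _ _ _ k7 k1 k4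
      · rcases Finset.mem_insert.1 hj with rfl | hj
        · rw [hau, pow3]
          refine (hxpb ω hω).trans ?_
          have : 0 ≤ Z * Z := by positivity
          linarith
        · rw [Finset.mem_singleton.1 hj, hav, pow3]
          refine (hcp ω hω).trans ?_
          linarith
    · rw [hc]
      exact hmix ω hω _ _ _ k8 k2 k5
    · rw [hsum, hay, hau, hav, hc]
      have e3 : F.d ω k - (ck (ptr F J ω) - xp (ptr F J ω) * cu (ptr F J ω) -
          cp (ptr F J ω) * cv (ptr F J ω)) -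
          ((ak (ptr F J ω) - xp (ptr F J ω) * au (ptr F J ω) -
            cp (ptr F J ω) * av (ptr F J ω)) * F.d ω y +
            (xp (ptr F J ω) * F.d ω u + cp (ptr F J ω) * F.d ω v)) =
          (F.d ω k - ck (ptr F J ω) - ak (ptr F J ω) * F.d ω y) -
          xp (ptr F J ω) * (F.d ω u - cu (ptr F J ω) - au (ptr F J ω) * F.d ω y) -
          cp (ptr F J ω) * (F.d ω v - cv (ptr F J ω) - av (ptr F J ω) * F.d ω y) := by ring
      show |F.d ω k - (ck (ptr F J ω) - xp (ptr F J ω) * cu (ptr F J ω) -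
          cp (ptr F J ω) * cv (ptr F J ω)) - _| ≤ _
      rw [e3]
      have l1 : |xp (ptr F J ω) * (F.d ω u - cu (ptr F J ω) - au (ptr F J ω) * F.d ω y)| ≤
          6 * (Z * Z) * (1 / 2 ^ M) := by
        rw [abs_mul]
        exact mul_le_mul (hxpb ω hω) k3 (abs_nonneg _) (by positivity)
      have l2 : |cp (ptr F J ω) * (F.d ω v - cv (ptr F J ω) - av (ptr F J ω) * F.d ω y)| ≤
          2 * Z * (1 / 2 ^ M) := by
        rw [abs_mul]
        exact mul_le_mul (hcp ω hω) k6 (abs_nonneg _) (by linarith)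
      have l3 : (1 + 6 * (Z * Z) + 2 * Z) * (1 / 2 ^ M) ≤ 1 / 2 ^ M' := by
        have l4 : 1 + 6 * (Z * Z) + 2 * Z ≤ 2 ^ (2 * e + 4) := by
          have h1 : (2 : ℝ) ^ (2 * e + 4) = 16 * (Z * Z) := by
            rw [pow_add, two_mul, pow_add, ← hZ]
            norm_num
            ring
          rw [h1]
          linarith
        rw [mul_one_div, div_le_div_iff₀ pM (by positivity), one_mul]
        calc (1 + 6 * (Z * Z) + 2 * Z) * 2 ^ M' ≤ 2 ^ (2 * e + 4) * 2 ^ M' :=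
              mul_le_mul_of_nonneg_right l4 (by positivity)
          _ = 2 ^ (2 * e + 4 + M') := by rw [pow_add _ (2 * e + 4)]
          _ ≤ 2 ^ M := pow_le_pow_right₀ (by norm_num) (by omega)
      refine le_trans ?_ l3
      refine (abs_sub _ _).trans ?_
      have l5 := abs_sub (F.d ω k - ck (ptr F J ω) - ak (ptr F J ω) * F.d ω y)
        (xp (ptr F J ω) * (F.d ω u - cu (ptr F J ω) - au (ptr F J ω) * F.d ω y))
      have l6 : (1 + 6 * (Z * Z) + 2 * Z) * (1 / 2 ^ M) =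
          1 / 2 ^ M + 6 * (Z * Z) * (1 / 2 ^ M) + 2 * Z * (1 / 2 ^ M) := by ring
      rw [l6]
      linarith
  have hcls : ∀ ω, B₂ ω → ∀ j ∈ ({y, u, v} : Finset (Fin m)),
      |th (slam F W ω) j - a (ptr F J ω) j| ≤ 1 / 2 ^ M' := by
    intro ω hω j hj
    have hωB := hB₂ ω hω
    rcases Finset.mem_insert.1 hj with rfl | hj
    · rw [hty, hay]
      have k1 := nu ω hωB
      have k2 := nv ω hωB
      have k3 := rel ω hωB
      have k4 : |hu (slam F W ω) - bs (slam F W ω)| ≤ 3 * ru := by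
        have l1 := du ω hωB
        obtain ⟨l2, l3, -⟩ := b3 ω (c1 ω hω)
        rw [← l2]
        rw [abs_le] at l1 l3 ⊢
        constructor <;> linarith [l1.1, l1.2, l3.1, l3.2]
      have k5 : |hv (slam F W ω) - cs (slam F W ω)| ≤ 3 * rv := by
        have l1 := dv ω hωB
        obtain ⟨l2, l3, -⟩ := c3 ω hω
        rw [← l2]
        rw [abs_le] at l1 l3 ⊢
        constructor <;> linarith [l1.1, l1.2, l3.1, l3.2]
      have e3 : hy (slam F W ω) + (hu (slam F W ω) - bs (slam F W ω)) * ju (slam F W ω) +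
          (hv (slam F W ω) - cs (slam F W ω)) * jv (slam F W ω) -
          (ak (ptr F J ω) - xp (ptr F J ω) * au (ptr F J ω) - cp (ptr F J ω) * av (ptr F J ω)) =
          (hu (slam F W ω) - bs (slam F W ω)) * (ju (slam F W ω) - au (ptr F J ω)) +
          (hv (slam F W ω) - cs (slam F W ω)) * (jv (slam F W ω) +
            θs (slam F W ω) * au (ptr F J ω) - av (ptr F J ω)) +
          (hy (slam F W ω) + hu (slam F W ω) * au (ptr F J ω) +
            hv (slam F W ω) * (av (ptr F J ω) - θs (slam F W ω) * au (ptr F J ω)) -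
            ak (ptr F J ω)) := by
        rw [hx ω hω, (c3 ω hω).1, hxs]
        ring
      rw [e3]
      have l1 : |(hu (slam F W ω) - bs (slam F W ω)) * (ju (slam F W ω) - au (ptr F J ω))| ≤
          3 * ru * aU := by
        rw [abs_mul]
        exact mul_le_mul k4 k1 (abs_nonneg _) (by linarith)
      have l2 : |(hv (slam F W ω) - cs (slam F W ω)) * (jv (slam F W ω) +
          θs (slam F W ω) * au (ptr F J ω) - av (ptr F J ω))| ≤ 3 * rv * aD := by
        rw [abs_mul]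
        exact mul_le_mul k5 k2 (abs_nonneg _) (by linarith)
      refine le_trans ((abs_add_le _ _).trans (add_le_add ((abs_add_le _ _).trans
        (add_le_add l1 l2)) k3)) num
    · rcases Finset.mem_insert.1 hj with rfl | hj
      · rw [htu, hau, hx ω hω, sub_self, abs_zero]
        positivity
      · rw [Finset.mem_singleton.1 hj, htv, hav, (c3 ω hω).1, sub_self, abs_zero]
        positivity
  obtain ⟨B₃, d1, d2, d3⟩ := lab_grd hW hdp hcls h4 h5
  refine ⟨B₃, fun ω hω => hB₂ ω (d1 ω hω), ?_, d3⟩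
  have h1 := cI_pos m
  calc Pe F.p B ≤ 3 * (3 * (cI m * Pe F.p B₃)) :=
        b2.trans (mul_le_mul_of_nonneg_left (c2.trans (mul_le_mul_of_nonneg_left d2
          (by norm_num))) (by norm_num))
    _ = 9 * cI m * Pe F.p B₃ := by ring

end Pool.JVE
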