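import Pool.Agent.H62.OWN.Afu

/-!
# The data at the exact points from the label on the planes
-/

set_option autoImplicit false

namespace Pool.JVE

open Finset MvPolynomial
open Pool.Agent.H49.Ent Pool.Agent.H32.Dense Pool.STK Pool.KA Pool.KSAT Pool.K2S Pool.PB Pool.GEN
open Pool.MIC6 (dpt dpt_near mvp wt wp wpt wp_eq Dp Dp.two ptr_x mva)
open Pool.D2R (hs hs_comm hs_add_left hs_add_right hs_smul_left hs_smul_right)

variable {m J : ℕ}

theorem svc_le {y u v : Fin m} {a b Z : ℝ} (hZ : 1 ≤ Z) (ha : |a| ≤ Z) (hb : |b| ≤ Z)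
    (o : Option (Fin m)) : |svc (sl3 y u v a b) o| ≤ Z := by
  cases o with
  | none =>
    show |(0 : ℝ)| ≤ Z
    rw [abs_zero]
    linarith
  | some j =>
    show |sl3 y u v a b j| ≤ Z
    unfold sl3
    split_ifs
    · rw [abs_one]
      exact hZ
    · exact ha
    · exact hb
    · rw [abs_zero]
      linarith

theorem eu_le {u v : Fin m} {a t Z : ℝ} (hZ : 1 ≤ Z) (ha : 0 ≤ a) (ha1 : a ≤ 1) (ht : |t| ≤ Z)
    (o : Option (Fin m)) : |(a • eu u v t) o| ≤ Z := by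
  have h : |eu u v t o| ≤ Z := by
    cases o with
    | none =>
      show |(0 : ℝ)| ≤ Z
      rw [abs_zero]
      linarith
    | some j =>
      show |if j = u then (1 : ℝ) else if j = v then t else 0| ≤ Z
      split_ifs
      · rw [abs_one]
        exact hZ
      · exact ht
      · rw [abs_zero]
        linarith
  rw [Pi.smul_apply, smul_eq_mul, abs_mul, abs_of_nonneg ha]
  have := mul_le_mul ha1 h (abs_nonneg _) zero_le_one
  linarith

theorem ev_le {v : Fin m} {a Z : ℝ} (hZ : 1 ≤ Z) (ha : 0 ≤ a) (ha1 : a ≤ 1)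
    (o : Option (Fin m)) : |(a • ev v) o| ≤ Z := by
  have h : |ev v o| ≤ Z := by
    cases o with
    | none =>
      show |(0 : ℝ)| ≤ Z
      rw [abs_zero]
      linarith
    | some j =>
      show |if j = v then (1 : ℝ) else 0| ≤ Z
      split_ifs
      · rw [abs_one]
        exact hZ
      · rw [abs_zero]
        linarith
  rw [Pi.smul_apply, smul_eq_mul, abs_mul, abs_of_nonneg ha]
  have := mul_le_mul ha1 h (abs_nonneg _) zero_le_one
  linarith

theorem bd_le (F : Fam m J) (ω : F.Ω) (o : Option (Fin m)) : |bd F ω o| ≤ 1 := by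
  cases o with
  | none =>
    show |(1 : ℝ)| ≤ 1
    rw [abs_one]
  | some j => exact F.dir ω j

/-- **The data at the exact points.** -/
theorem afd_of (m K : ℕ) : ∃ C : ℝ, 1 ≤ C ∧ ∀ {J : ℕ} (F : Fam m J) {A A' : F.Ω → Prop}
    {y u v k : Fin m} {e w ρ P M N R R' : ℕ} {V : Type} {z : PtT F → V} {z' : LnT F → V}
    {G : V → MvPolynomial (Option (Fin m)) ℝ} {au cu av cv ak θp : PtT F → ℝ}
    {θs ju jv : LnT F → ℝ} {aU aD : ℝ}, Sub A' A → y ≠ u → y ≠ v → u ≠ v →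
    LbOK F {y, u, v} k K e J w ρ P A z z' G →
    Dp F A y u e M au cu → Dp F A y v e M av cv → w ≤ J → ρ ≤ w → ρ + 2 ≤ J →
    (∀ ω, A' ω → ∀ σ ∈ Set.Icc (0 : ℝ) 1, ∀ η : ℝ, |η| ≤ 1 →
      |eval (mvp (F.u ω) (F.d ω) (sl3 y u v (au (ptr F J ω)) (av (ptr F J ω)))
        (wt F w ω σ) (1 / 2 ^ w * η)) (G (z' (slam F w ω))) -
        (wp F w ω σ k + ak (ptr F J ω) * (1 / 2 ^ w * η))| ≤ 1 / 2 ^ R) →
    (∀ ω, A ω → θp (ptr F J ω) = θs (slam F w ω)) → (∀ ω, A ω → |θp (ptr F J ω)| ≤ 2 ^ e) →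
    (∀ ω, A ω → |ju (slam F w ω) - au (ptr F J ω)| ≤ aU) →
    (∀ ω, A ω → |jv (slam F w ω) + θs (slam F w ω) * au (ptr F J ω) -
      av (ptr F J ω)| ≤ aD) → 0 ≤ aU → aU ≤ 1 → 0 ≤ aD → aD ≤ 1 →
    C ≤ 2 ^ N → N + R' + 1 ≤ R → N + 3 * e + R' + 1 ≤ J → N + 2 * e + R' + 1 ≤ M + w →
    Afd F A' y u v w au av z G θp θs ju jv aU aD (1 / 2 ^ R') ∧
    (∀ ω, A' ω → ∀ W : Option (Fin m) → ℝ, (∀ o, |W o| ≤ 2 ^ e) →
      (1 / 2 ^ w) ^ 2 * |hs (G (z (ptr F J ω))) (bt F ω) (bd F ω) W -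
        hs (G (z (ptr F J ω))) (dpt (ptr F J ω)) (bd F ω) W| ≤ 1 / 2 ^ R') ∧
    (∀ ω, A' ω → ∀ o, |eval (dpt (ptr F J ω)) (pderiv o (G (z (ptr F J ω)))) -
      eval (bt F ω) (pderiv o (G (z (ptr F J ω))))| ≤ 2 ^ w * (1 / 2 ^ (R' + e))) ∧
    (∀ ω, A' ω → ∀ o, |eval (dpt (ptr F J ω)) (pderiv o (G (z (ptr F J ω))))| ≤ 2 ^ e) := by
  classical
  obtain ⟨C₁, hC₁, hown⟩ := hs_own K
  obtain ⟨C₂, hC₂, hder⟩ := der_bds m K
  obtain ⟨D, hD⟩ : ∃ D : ℝ, D = ((m : ℝ) + 1) ^ 3 * C₂ := ⟨_, rfl⟩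
  have hm1 : (1 : ℝ) ≤ (m : ℝ) + 1 := by
    have : (0 : ℝ) ≤ m := Nat.cast_nonneg m
    linarith
  have hm3 : (1 : ℝ) ≤ ((m : ℝ) + 1) ^ 3 := one_le_pow₀ hm1
  have hD1 : 1 ≤ D := by
    rw [hD]
    exact one_le_mul_of_one_le_of_one_le hm3 hC₂
  refine ⟨C₁ + D, by linarith, ?_⟩
  intro J F A A' y u v k e w ρ P M N R R' V z z' G au cu av cv ak θp θs ju jv aU aD hA' hyu hyv
    huv hlab hDu hDv hw hρ hρJ hpl thc hθ nu nv hU0 hU1 hD0 hDD1 hN n1 n2 n3
  have hCN₁ : C₁ ≤ 2 ^ N := by linarith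
  have hCN₂ : D ≤ 2 ^ N := by linarith
  have pe : (1 : ℝ) ≤ 2 ^ e := one_le_pow₀ (by norm_num)
  have pw : (0 : ℝ) < 2 ^ w := by positivity
  have pJ : (0 : ℝ) < 2 ^ J := by positivity
  have hρw : (2 : ℝ) ^ ρ ≤ 2 ^ w := pow_le_pow_right₀ (by norm_num) hρ
  obtain ⟨r, hr⟩ : ∃ r : ℝ, r = 1 / 2 ^ ρ := ⟨_, rfl⟩
  have hr0 : 0 < r := by rw [hr]; positivity
  have hJr : (1 : ℝ) / 2 ^ J ≤ r / 4 := by
    rw [hr, div_div, div_le_div_iff₀ pJ (by positivity), one_mul, one_mul]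
    have h1 : (2 : ℝ) ^ ρ * 4 = 2 ^ (ρ + 2) := by
      rw [pow_add]
      norm_num
    rw [h1]
    exact pow_le_pow_right₀ (by norm_num) hρJ
  have hwr : 1 / 2 ^ w ≤ r := by
    rw [hr]
    exact div_le_div_of_nonneg_left (by norm_num) (by positivity) hρw
  have two : ∀ a b c : ℕ, a + c ≤ b → (2 : ℝ) ^ a / 2 ^ b ≤ 1 / 2 ^ c := by
    intro a b c h
    rw [div_le_div_iff₀ (by positivity) (by positivity), one_mul, ← pow_add]
    exact pow_le_pow_right₀ (by norm_num) h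
  have hhalf : (1 : ℝ) / 2 ^ (R' + 1) + 1 / 2 ^ (R' + 1) = 1 / 2 ^ R' := by
    rw [pow_succ]
    field_simp
    norm_num
  -- the derivatives
  have hd2 : ∀ ω, A ω → _ := fun ω hω => hder (G (z (ptr F J ω))) (bt F ω) r (2 ^ e)
    (hlab.deg _) hr0 (fun b hb o => by
      rw [hlab.cls ω hω]
      exact hlab.lip ω hω b (by rw [← hr]; exact hb) o)
  have hdpt : ∀ ω o, |dpt (ptr F J ω) o - bt F ω o| ≤ 1 / 2 ^ J := fun ω o => dpt_near F ω o
  -- comparison of the two points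
  have hcmp : ∀ ω, A ω → ∀ (a b : ℝ) (W W' : Option (Fin m) → ℝ), 0 ≤ a → 0 ≤ b →
      (∀ o, |W o| ≤ a) → (∀ o, |W' o| ≤ b) →
      (1 / 2 ^ w) ^ 2 * |hs (G (z (ptr F J ω))) (dpt (ptr F J ω)) W W' -
        hs (G (z (ptr F J ω))) (bt F ω) W W'| ≤ D * (2 ^ e * a * b) / 2 ^ J := by
    intro ω hω a b W W' ha hb hW hW'
    have h1 := hs_lip (H := C₂ * (2 ^ e / r ^ 2)) (by positivity) ha
      (by positivity : (0 : ℝ) ≤ 1 / 2 ^ J) (fun y' hy' o o' i =>
        (hd2 ω hω).2 y' (fun o => (hy' o).trans hJr) o o' i) (hdpt ω) hW hW'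
    refine (mul_le_mul_of_nonneg_left h1 (by positivity)).trans ?_
    have h2 : (1 / 2 ^ w) ^ 2 * (((m : ℝ) + 1) ^ 3 * (C₂ * (2 ^ e / r ^ 2) * (1 / 2 ^ J) * a * b)) =
        ((1 / 2 ^ w) ^ 2 / r ^ 2) * (D * (2 ^ e * a * b) / 2 ^ J) := by
      rw [hD]
      ring
    rw [h2]
    refine mul_le_of_le_one_left (by positivity) ?_
    rw [div_le_one (by positivity)]
    exact pow_le_pow_left₀ (by positivity) hwr 2
  have hE : ∀ a b : ℝ, 0 ≤ a → 0 ≤ b → a ≤ 2 ^ e → b ≤ 2 ^ e →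
      D * (2 ^ e * a * b) / 2 ^ J ≤ 1 / 2 ^ (R' + 1) := by
    intro a b ha hb ha1 hb1
    have h1 : D * (2 ^ e * a * b) ≤ 2 ^ N * (2 ^ e * 2 ^ e * 2 ^ e) :=
      mul_le_mul hCN₂ (mul_le_mul (mul_le_mul_of_nonneg_left ha1 (by positivity)) hb1 hb
        (by positivity)) (by positivity) (by positivity)
    have h2 : (2 : ℝ) ^ N * (2 ^ e * 2 ^ e * 2 ^ e) = 2 ^ (N + 3 * e) := by
      have h3 : N + 3 * e = N + (e + e + e) := by ring
      rw [h3, pow_add, pow_add, pow_add]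
    rw [h2] at h1
    exact (div_le_div_of_nonneg_right h1 (by positivity)).trans (two _ _ _ (by omega))
  have hE' : ∀ a b : ℝ, 0 ≤ a → 0 ≤ b → a ≤ 2 ^ e → b ≤ 2 ^ e →
      D * (2 ^ e * a * b) / 2 ^ J ≤ 1 / 2 ^ R' := fun a b ha hb ha1 hb1 =>
    (hE a b ha hb ha1 hb1).trans (inv_mono (by omega))
  have hC₁R : C₁ * (1 / 2 ^ R) ≤ 1 / 2 ^ (R' + 1) := by
    rw [mul_one_div]
    exact (div_le_div_of_nonneg_right hCN₁ (by positivity)).trans (two _ _ _ (by omega))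
  have hown' := hown F (A := A') (k := k) (w := w) (z' := z') (G := G)
    (a := fun ω => ak (ptr F J ω))
    (sl := fun ω => sl3 y u v (au (ptr F J ω)) (av (ptr F J ω))) (S := 1 / 2 ^ R) hw hlab.deg hpl
  have hsv : ∀ ω, A ω → ∀ o, |svc (sl3 y u v (au (ptr F J ω)) (av (ptr F J ω))) o| ≤ 2 ^ e :=
    fun ω hω => svc_le pe (hDu ω hω).1 (hDv ω hω).1
  have hp_of : ∀ ω, A ω → ∀ (a b : ℝ) (W W' : Option (Fin m) → ℝ), 0 ≤ a → 0 ≤ b →
      a ≤ 2 ^ e → b ≤ 2 ^ e → (∀ o, |W o| ≤ a) → (∀ o, |W' o| ≤ b) →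
      (1 / 2 ^ w) ^ 2 * |hs (G (z' (slam F w ω))) (bt F ω) W W'| ≤ C₁ * (1 / 2 ^ R) →
      |hp F w z G (ptr F J ω) W W'| ≤ 1 / 2 ^ R' := by
    intro ω hω a b W W' ha hb ha1 hb1 hW hW' h1
    have h2 := hcmp ω hω a b W W' ha hb hW hW'
    have h3 := hE a b ha hb ha1 hb1
    rw [← hlab.cls ω hω] at h1
    have e1 : hp F w z G (ptr F J ω) W W' =
        (1 / 2 ^ w) ^ 2 * hs (G (z (ptr F J ω))) (bt F ω) W W' +
        (1 / 2 ^ w) ^ 2 * (hs (G (z (ptr F J ω))) (dpt (ptr F J ω)) W W' -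
          hs (G (z (ptr F J ω))) (bt F ω) W W') := by
      unfold hp
      ring
    have hpos : (0 : ℝ) < (1 / 2 ^ w) ^ 2 := by positivity
    rw [e1, ← hhalf]
    refine (abs_add_le _ _).trans (add_le_add ?_ ?_)
    · rw [abs_mul, abs_of_pos hpos]
      exact h1.trans hC₁R
    · rw [abs_mul, abs_of_pos hpos]
      exact h2.trans h3
  refine ⟨⟨fun ω hω => thc ω (hA' ω hω), fun ω hω => nu ω (hA' ω hω),
    fun ω hω => nv ω (hA' ω hω), fun ω ω' hω hω' hs => ?_, fun ω ω' hω hω' hs => ?_,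
    fun ω ω' hω hω' hs => ?_⟩, fun ω hω W hW => ?_, fun ω hω o => ?_, fun ω hω o => ?_⟩
  · exact hp_of ω (hA' ω hω) 1 (2 ^ e) _ _ zero_le_one (by positivity) pe le_rfl (bd_le F ω)
      (hsv ω' (hA' ω' hω')) (hown' ω ω' hω' hs).1
  · exact hp_of ω (hA' ω hω) (2 ^ e) (2 ^ e) _ _ (by positivity) (by positivity) le_rfl le_rfl
      (hsv ω' (hA' ω' hω')) (hsv ω' (hA' ω' hω')) (hown' ω ω' hω' hs).2
  · -- the difference of the directions
    have hωA := hA' ω hω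
    have hω'A := hA' ω' hω'
    obtain ⟨δ, hδ⟩ : ∃ δ : Option (Fin m) → ℝ, δ = bd F ω' - bd F ω -
      (F.d ω' y - F.d ω y) • svc (sl3 y u v (au (ptr F J ω)) (av (ptr F J ω))) := ⟨_, rfl⟩
    obtain ⟨δ', hδ'⟩ : ∃ δ' : Option (Fin m) → ℝ, δ' = fun o => o.elim 0 fun j =>
      if j ∈ ({y, u, v} : Finset (Fin m)) then δ (some j) else 0 := ⟨_, rfl⟩
    rw [← hδ]
    have hd : ∀ j ∈ ({y, u, v} : Finset (Fin m)), |δ (some j)| ≤ 2 * (1 / 2 ^ M) := by
      intro j hj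
      have e1 : δ (some j) = F.d ω' j - F.d ω j - (F.d ω' y - F.d ω y) *
          sl3 y u v (au (ptr F J ω)) (av (ptr F J ω)) j := by
        rw [hδ]
        rfl
      rw [e1]
      unfold sl3
      have hu := hDu.two hωA hω'A hs.symm
      have hv := hDv.two hωA hω'A hs.symm
      have eM : (2 : ℝ) ^ 0 * (2 / 2 ^ M) = 2 * (1 / 2 ^ M) := by ring
      rw [eM] at hu hv
      rcases Finset.mem_insert.1 hj with rfl | hj
      · rw [if_pos rfl, mul_one, sub_self, abs_zero]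
        positivity
      · rcases Finset.mem_insert.1 hj with rfl | hj
        · rw [if_neg (Ne.symm hyu), if_pos rfl, mul_comm]
          exact hu
        · rw [Finset.mem_singleton.1 hj, if_neg (Ne.symm hyv), if_neg (Ne.symm huv), if_pos rfl,
            mul_comm]
          exact hv
    have hδn : δ none = δ' none := by
      rw [hδ, hδ']
      show (1 : ℝ) - 1 - (F.d ω' y - F.d ω y) * 0 = 0
      ring
    have hδi : ∀ i ∈ ({y, u, v} : Finset (Fin m)), δ (some i) = δ' (some i) := by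
      intro i hi
      rw [hδ']
      show δ (some i) = if i ∈ ({y, u, v} : Finset (Fin m)) then δ (some i) else 0
      rw [if_pos hi]
    have hδ'b : ∀ o, |δ' o| ≤ 2 * (1 / 2 ^ M) := by
      intro o
      cases o with
      | none =>
        rw [hδ']
        show |(0 : ℝ)| ≤ _
        rw [abs_zero]
        positivity
      | some j =>
        rw [hδ']
        show |if j ∈ ({y, u, v} : Finset (Fin m)) then δ (some j) else 0| ≤ _
        split_ifs with hj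
        · exact hd j hj
        · rw [abs_zero]
          positivity
    have key : ∀ W : Option (Fin m) → ℝ, (∀ o, |W o| ≤ 2 ^ e) →
        |hp F w z G (ptr F J ω) δ W| ≤ 1 / 2 ^ R' := by
      intro W hW
      have h1 : hp F w z G (ptr F J ω) δ W = hp F w z G (ptr F J ω) δ' W := by
        unfold hp
        rw [hs_congr (hlab.dep _) _ _ hδn hδi]
      rw [h1]
      unfold hp
      have hpos : (0 : ℝ) < (1 / 2 ^ w) ^ 2 := by positivity
      rw [abs_mul, abs_of_pos hpos]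
      have h2 := hs_le (G := G (z (ptr F J ω))) (x := dpt (ptr F J ω)) (W := δ') (V := W)
        (H := C₂ * (2 ^ e / r)) (a := 2 * (1 / 2 ^ M)) (b := 2 ^ e) (by positivity)
        (by positivity) (fun o o' => (hd2 ω hωA).1 _ (fun o => (hdpt ω o).trans
          (hJr.trans (by linarith))) o o') hδ'b hW
      refine (mul_le_mul_of_nonneg_left h2 hpos.le).trans ?_
      have h3 : (1 / 2 ^ w) ^ 2 * (((m : ℝ) + 1) ^ 2 * (C₂ * (2 ^ e / r) * (2 * (1 / 2 ^ M)) *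
          2 ^ e)) = ((1 / 2 ^ w) / r) * ((((m : ℝ) + 1) ^ 2 * C₂) * (2 ^ e * 2 ^ e * 2) /
          (2 ^ M * 2 ^ w)) := by
        field_simp
      have h4 : (1 / 2 ^ w) / r ≤ 1 := by
        rw [div_le_one hr0]
        exact hwr
      rw [h3]
      refine (mul_le_of_le_one_left (by positivity) h4).trans ?_
      have h5 : ((m : ℝ) + 1) ^ 2 * C₂ ≤ 2 ^ N := by
        refine le_trans ?_ hCN₂
        rw [hD]
        refine mul_le_mul_of_nonneg_right ?_ (by linarith)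
        exact pow_le_pow_right₀ hm1 (by norm_num)
      have h6 : ((m : ℝ) + 1) ^ 2 * C₂ * (2 ^ e * 2 ^ e * 2) ≤ 2 ^ N * (2 ^ e * 2 ^ e * 2) :=
        mul_le_mul_of_nonneg_right h5 (by positivity)
      have h7 : (2 : ℝ) ^ N * (2 ^ e * 2 ^ e * 2) = 2 ^ (N + 2 * e + 1) := by
        rw [pow_add _ (N + 2 * e), pow_add _ N, two_mul, pow_add _ e, pow_one]
        ring
      rw [h7] at h6
      rw [← pow_add 2 M w]
      exact (div_le_div_of_nonneg_right h6 (by positivity)).trans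
        (two (N + 2 * e + 1) (M + w) R' (by omega))
    exact ⟨key _ (eu_le pe hU0 hU1 (hθ ω hωA)), key _ (ev_le pe hD0 hDD1)⟩
  · have h1 := hcmp ω (hA' ω hω) 1 (2 ^ e) (bd F ω) W zero_le_one (by positivity) (bd_le F ω) hW
    rw [abs_sub_comm]
    exact h1.trans (hE' 1 (2 ^ e) zero_le_one (by positivity) pe le_rfl)
  · have hωA := hA' ω hω
    have h1 := mva (pderiv o (G (z (ptr F J ω)))) (bt F ω) (dpt (ptr F J ω))
      (fun _ => C₂ * (2 ^ e / r)) (fun b hb i _ => (hd2 ω hωA).1 b (fun o => (hb o).trans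
        ((hdpt ω o).trans (hJr.trans (by linarith)))) o i)
    refine h1.trans ?_
    have hcard : ((Finset.univ : Finset (Option (Fin m))).card : ℝ) = m + 1 := by
      rw [Finset.card_univ, Fintype.card_option, Fintype.card_fin]
      push_cast
      ring
    have h2 : ∑ i, C₂ * (2 ^ e / r) * |dpt (ptr F J ω) i - bt F ω i| ≤
        ∑ _i : Option (Fin m), C₂ * (2 ^ e / r) * (1 / 2 ^ J) :=
      Finset.sum_le_sum fun i _ => mul_le_mul_of_nonneg_left (hdpt ω i) (by positivity)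
    refine h2.trans ?_
    rw [Finset.sum_const, nsmul_eq_mul, hcard]
    have h3 : ((m : ℝ) + 1) * (C₂ * (2 ^ e / r) * (1 / 2 ^ J)) =
        (1 / 2 ^ w / r) * (2 ^ w * ((((m : ℝ) + 1) * C₂) * 2 ^ e / 2 ^ J)) := by
      field_simp
    have h4 : (1 / 2 ^ w) / r ≤ 1 := by
      rw [div_le_one hr0]
      exact hwr
    rw [h3]
    refine (mul_le_of_le_one_left (by positivity) h4).trans ?_
    refine mul_le_mul_of_nonneg_left ?_ pw.le
    have h5 : ((m : ℝ) + 1) * C₂ ≤ 2 ^ N := by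
      refine le_trans ?_ hCN₂
      rw [hD]
      refine mul_le_mul_of_nonneg_right ?_ (by linarith)
      have := pow_le_pow_right₀ hm1 (by norm_num : 1 ≤ 3)
      rw [pow_one] at this
      exact this
    have h6 : ((m : ℝ) + 1) * C₂ * 2 ^ e ≤ 2 ^ N * 2 ^ e :=
      mul_le_mul_of_nonneg_right h5 (by positivity)
    rw [← pow_add] at h6
    exact (div_le_div_of_nonneg_right h6 (by positivity)).trans (two _ _ _ (by omega))
  · have hωA := hA' ω hω
    rw [hlab.cls ω hωA]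
    refine hlab.lip ω hωA _ (fun o => (hdpt ω o).trans ?_) o
    rw [← hr]
    linarith

end Pool.JVE
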