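import Pool.Agent.H62.OWN.Aft

/-!
# The data at the exact points from a closed label over three coordinates

`afd_fam`: a closed label of `k` over `y`, `u`, `v` in a family whose exact points have slopes over
`y`, and many velocities of `y`, has the data `Afd` on a large part of the event, and its
derivatives satisfy the relation of the slopes on the lines.
-/

set_option autoImplicit false

namespace Pool.JVE

open Finset MvPolynomial
open Pool.Agent.H49.Ent Pool.Agent.H32.Dense Pool.STK Pool.KA Pool.KSAT Pool.K2S Pool.PB Pool.GEN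
open Pool.MIC6 (dpt dpt_near mvp wt wp wpt wp_eq pd_congr tie_box nod_of Dp Dp.two ptr_x mva)
open Pool.FLF (Fam.sub)
open Pool.GRD (LbP)
open Pool.D2R (hs hs_comm hs_add_left hs_add_right hs_smul_left hs_smul_right)

variable {m J : ℕ}

/-- The label on the planes, in a family. -/
theorem tie3_fam (m K : ℕ) : ∃ C : ℝ, 1 ≤ C ∧ ∀ {J : ℕ} (F : Fam m J) (A : F.Ω → Prop)
    (hA : 0 < Pe F.p A) {y u v k : Fin m} {e w ρ P g M N R : ℕ} {V : Type}
    {z : PtT F → V} {z' : LnT F → V} {G : V → MvPolynomial (Option (Fin m)) ℝ}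
    {au cu av cv ak ck : PtT F → ℝ} {θ : ℝ}, y ≠ u → y ≠ v → u ≠ v →
    LbOK F {y, u, v} k K e J w ρ P A z z' G →
    Dp F A y u e M au cu → Dp F A y v e M av cv → Dp F A y k e M ak ck →
    w + 2 ≤ J → ρ + e + 5 ≤ w → 0 ≤ θ → (Fam.sub F A hA).Tm θ →
    C * (θ + 1) ≤ ((J : ℝ) - w) * Real.log 2 → w + g + 4 ≤ J →
    (∀ B₀ : F.Ω → Prop, Sub B₀ A → Pe F.p A / 4 < Pe F.p B₀ → Real.log (2 * (K + 2 : ℕ)) <
      CH (Pool.Agent.H49.Ent.cond F.p B₀ True) (fun ω => F.D g ω y) (ptr F J)) →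
    C * Real.exp (C * (θ + 1)) ≤ 2 ^ N → N + g * (K + 1) + (R + 2) ≤ P →
    N + g * (K + 1) + 2 * e + (R + 6) ≤ J → N + g * (K + 1) + e + (R + 6) ≤ M + w →
    ∃ A' : F.Ω → Prop, Sub A' A ∧ Pe F.p A / 4 ≤ Pe F.p A' ∧
      (∀ ω, A' ω → ∀ σ ∈ Set.Icc (0 : ℝ) 1, ∀ η : ℝ, |η| ≤ 1 →
        |eval (mvp (F.u ω) (F.d ω) (sl3 y u v (au (ptr F J ω)) (av (ptr F J ω)))
          (wt F w ω σ) (1 / 2 ^ w * η)) (G (z' (slam F w ω))) -
          (wp F w ω σ k + ak (ptr F J ω) * (1 / 2 ^ w * η))| ≤ 1 / 2 ^ R) ∧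
      (∀ ω, A' ω → ∀ σ ∈ Set.Icc (0 : ℝ) 1,
        |eval (wpt F w ω σ) (pderiv (some y) (G (z' (slam F w ω)))) +
          (au (ptr F J ω) * eval (wpt F w ω σ) (pderiv (some u) (G (z' (slam F w ω)))) +
          av (ptr F J ω) * eval (wpt F w ω σ) (pderiv (some v) (G (z' (slam F w ω))))) -
          ak (ptr F J ω)| ≤ 2 ^ w * (1 / 2 ^ R)) := by
  classical
  obtain ⟨C, hC, htie⟩ := tie_box m K
  refine ⟨C, hC, ?_⟩
  intro J F A hA y u v k e w ρ P g M N R V z z' G au cu av cv ak ck θ hyu hyv huv hlab hDu hDv hDk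
    hw hρ hθ hTm hJ hwg hact hN n1 n2 n3
  have pe : (1 : ℝ) ≤ 2 ^ e := one_le_pow₀ (by norm_num)
  have hX : 1 ≤ Real.exp (C * (θ + 1)) := Real.one_le_exp (by positivity)
  obtain ⟨E, hE⟩ : ∃ E : ℝ, E = 2 * (1 / 2 ^ M) := ⟨_, rfl⟩
  have hE0 : 0 ≤ E := by rw [hE]; positivity
  have hE' : 2 ^ 0 * (2 / 2 ^ M) = E := by
    rw [hE]
    ring
  have hM1 : (1 : ℝ) / 2 ^ M ≤ 1 := by
    rw [div_le_one (by positivity)]
    exact one_le_pow₀ (by norm_num)
  have hE2 : E ≤ 2 := by rw [hE]; linarith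
  obtain ⟨μ, hμ⟩ : ∃ μ : ℝ, μ = E / 2 ^ w + 2 ^ e * (2 / 2 ^ J) := ⟨_, rfl⟩
  have hμ0 : 0 ≤ μ := by rw [hμ]; positivity
  obtain ⟨sl, hsl⟩ : ∃ sl : F.Ω → Fin m → ℝ, sl = fun ω =>
      sl3 y u v (au (ptr F J ω)) (av (ptr F J ω)) := ⟨_, rfl⟩
  have hsly : ∀ ω, sl ω y = 1 := fun ω => by
    rw [hsl]
    exact if_pos rfl
  have hslu : ∀ ω, sl ω u = au (ptr F J ω) := fun ω => by
    rw [hsl]
    show (if u = y then (1 : ℝ) else if u = u then _ else _) = _
    rw [if_neg (Ne.symm hyu), if_pos rfl]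
  have hslv : ∀ ω, sl ω v = av (ptr F J ω) := fun ω => by
    rw [hsl]
    show (if v = y then (1 : ℝ) else if v = u then _ else if v = v then _ else _) = _
    rw [if_neg (Ne.symm hyv), if_neg (Ne.symm huv), if_pos rfl]
  have hsle : ∀ ω, A ω → ∀ j ∈ ({y, u, v} : Finset (Fin m)), |sl ω j| ≤ 2 ^ e := by
    intro ω hω j hj
    rcases Finset.mem_insert.1 hj with rfl | hj
    · rw [hsly, abs_one]
      exact pe
    · rcases Finset.mem_insert.1 hj with rfl | hj
      · rw [hslu]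
        exact (hDu ω hω).1
      · rw [Finset.mem_singleton.1 hj, hslv]
        exact (hDv ω hω).1
  have hIe : ({y, u, v} : Finset (Fin m)).erase y = {u, v} := by
    ext j
    simp only [Finset.mem_erase, Finset.mem_insert, Finset.mem_singleton]
    constructor
    · rintro ⟨h1, h2 | h2 | h2⟩
      · exact absurd h2 h1
      · exact Or.inl h2
      · exact Or.inr h2
    · rintro (h | h)
      · exact ⟨fun h' => hyu (h'.symm.trans h), Or.inr (Or.inl h)⟩
      · exact ⟨fun h' => hyv (h'.symm.trans h), Or.inr (Or.inr h)⟩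
  have hRw2 : (4 : ℝ) / 2 ^ J ≤ 1 / 2 ^ w := by
    rw [div_le_div_iff₀ (by positivity) (by positivity), one_mul]
    have h1 : (4 : ℝ) * 2 ^ w = 2 ^ (w + 2) := by
      rw [pow_add]
      norm_num
      ring
    rw [h1]
    exact pow_le_pow_right₀ (by norm_num) hw
  obtain ⟨B, b1, b2, b3⟩ := htie F A hA (I := {y, u, v}) (κ := y) (k := k)
    (Φ := ptr F J) (a := fun ω => ak (ptr F J ω)) (sl := sl)
    (H := fun j => 2 ^ e * (2 / 2 ^ w + 1 / 2 ^ J) + 2 * (if j = y then 0 else μ))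
    (β := fun _ => 2 ^ e) (μ := fun j => if j = y then 0 else μ) (α := 2 ^ e) (ρ := 1 / 2 ^ g)
    (s₀ := 1 / 2 ^ J) (err := E) (θ := θ) (LbP.of hlab) (by omega) hθ hTm hJ (by positivity)
    (by
      rw [div_le_one (by positivity)]
      exact one_le_pow₀ (by norm_num)) (by
      have e1 : (1 : ℝ) / 2 ^ g * (1 / 2 ^ w) / 16 = 1 / 2 ^ (w + g + 4) := by
        rw [pow_add, pow_add]
        norm_num
        field_simp
      rw [e1]
      exact inv_mono hwg) (fun ω _ => hsly ω) (fun _ => by positivity) (fun j => by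
      show (0 : ℝ) ≤ if j = y then 0 else μ
      split_ifs
      · exact le_rfl
      · exact hμ0) (fun ω hω j hj => by
      have := mul_le_mul_of_nonneg_right (hsle ω hω j hj)
        (by positivity : (0 : ℝ) ≤ 2 / 2 ^ w + 1 / 2 ^ J)
      exact add_le_add this le_rfl) (fun ω hω σ hσ b hbn hb j hj hjκ => by
      refine grad_boxI hlab (by omega) hρ hω hσ hbn (fun i hi => (hb i hi).trans ?_) j
      have hpos : (0 : ℝ) < 1 / 2 ^ w := by positivity
      obtain ⟨Z, hZ⟩ : ∃ Z : ℝ, Z = 2 ^ e := ⟨_, rfl⟩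
      rw [← hZ] at pe ⊢
      have k1 : (if i = y then 0 else μ) ≤ μ := by
        split_ifs
        · exact hμ0
        · exact le_rfl
      have k2 : μ ≤ 3 * (Z * (1 / 2 ^ w)) := by
        rw [hμ, ← hZ]
        have l1 : E / 2 ^ w ≤ 2 * (Z * (1 / 2 ^ w)) := by
          have l2 : E / 2 ^ w = E * (1 / 2 ^ w) := by ring
          have l3 : E * (1 / 2 ^ w) ≤ 2 * Z * (1 / 2 ^ w) :=
            mul_le_mul_of_nonneg_right (by linarith) hpos.le
          linarith
        have l4 : Z * (2 / 2 ^ J) ≤ Z * (1 / 2 ^ w) := by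
          refine mul_le_mul_of_nonneg_left ?_ (by linarith)
          have : (2 : ℝ) / 2 ^ J ≤ 4 / 2 ^ J := div_le_div_of_nonneg_right (by norm_num)
            (by positivity)
          linarith
        linarith
      have k3 : Z * (2 / 2 ^ w + 1 / 2 ^ J) ≤ 3 * (Z * (1 / 2 ^ w)) := by
        have l1 : (1 : ℝ) / 2 ^ J ≤ 4 / 2 ^ J := div_le_div_of_nonneg_right (by norm_num)
          (by positivity)
        have l2 : (2 : ℝ) / 2 ^ w + 1 / 2 ^ J ≤ 3 * (1 / 2 ^ w) := by
          have : (2 : ℝ) / 2 ^ w = 2 * (1 / 2 ^ w) := by ring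
          linarith
        have := mul_le_mul_of_nonneg_left l2 (by linarith : (0 : ℝ) ≤ Z)
        linarith
      have k4 : 16 * Z * (1 / 2 ^ w) = 16 * (Z * (1 / 2 ^ w)) := by ring
      have k5 : 0 ≤ Z * (1 / 2 ^ w) := by positivity
      show Z * (2 / 2 ^ w + 1 / 2 ^ J) + 2 * (if i = y then 0 else μ) ≤ _
      rw [k4]
      linarith) (fun ω ω' hω hω' h => by
      have hx := ptr_x F h
      have hdu := hDu.two hω hω' h
      have hdv := hDv.two hω hω' h
      have hdk := hDk.two hω hω' h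
      rw [hE'] at hdu hdv hdk
      refine ⟨h, hx y, hx k, hdk, fun j hj hjy => ?_⟩
      have gen : ∀ (j : Fin m) (a : ℝ), |a| ≤ 2 ^ e →
          |F.d ω' j - F.d ω j - a * (F.d ω' y - F.d ω y)| ≤ E →
          |F.x ω' j - F.x ω j - a * (F.x ω' y - F.x ω y)| ≤ μ ∧
          |F.d ω' j - F.d ω j - a * (F.d ω' y - F.d ω y)| ≤ 2 ^ w * μ := by
        intro j a ha hd
        refine ⟨?_, ?_⟩
        · have k1 : |a * (F.x ω' y - F.x ω y)| ≤ 2 ^ e * (1 / 2 ^ J) := by
            rw [abs_mul]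
            exact mul_le_mul ha (hx y) (abs_nonneg _) (by positivity)
          have k2 : 1 / 2 ^ J ≤ 2 ^ e * ((1 : ℝ) / 2 ^ J) :=
            le_mul_of_one_le_left (by positivity) pe
          refine (abs_sub _ _).trans ((add_le_add (hx j) k1).trans ?_)
          have k3 : (2 : ℝ) ^ e * (2 / 2 ^ J) = 2 * (2 ^ e * (1 / 2 ^ J)) := by
            ring
          have k4 : 0 ≤ E / 2 ^ w := by positivity
          rw [hμ, k3]
          linarith
        · refine hd.trans ?_
          have k1 : 2 ^ w * μ = E + 2 ^ w * (2 ^ e * (2 / 2 ^ J)) := by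
            rw [hμ, mul_add]
            field_simp
          rw [k1]
          have : (0 : ℝ) ≤ 2 ^ w * (2 ^ e * (2 / 2 ^ J)) := by positivity
          linarith
      show |_ - _ - sl ω j * _| ≤ (if j = y then 0 else μ) ∧
        |_ - _ - sl ω j * _| ≤ 2 ^ w * (if j = y then 0 else μ)
      rw [if_neg hjy]
      rcases Finset.mem_insert.1 hj with h' | hj
      · exact absurd h' hjy
      · rcases Finset.mem_insert.1 hj with rfl | hj
        · rw [hslu]
          exact gen _ _ (hDu ω hω).1 hdu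
        · rw [Finset.mem_singleton.1 hj, hslv]
          exact gen _ _ (hDv ω hω).1 hdv) (fun ω hω => (hDk ω hω).1) (by
      intro B₁ hB₁ hPB₁
      have hPB₁' : Pe F.p A / 2 ≤ Pe F.p B₁ := hPB₁
      have hB₁0 : 0 < Pe F.p B₁ := by linarith
      obtain ⟨B', b1, b2, b3⟩ := nod_of (F := F) (K + 2) (B := B₁) hB₁0 (κ := y)
        (g := g) (Φ := ptr F J) (fun B₀ hB₀ hPB₀ => by
          refine hact B₀ (fun ω hω => hB₁ ω (hB₀ ω hω)) ?_
          have hPB₀' : Pe F.p B₁ / 2 < Pe F.p B₀ := hPB₀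
          linarith)
      exact ⟨B', b1, b2, b3⟩)
  have hsum : ∑ j ∈ ({y, u, v} : Finset (Fin m)).erase y, (2 : ℝ) ^ e *
      (2 * (if j = y then 0 else μ)) = 2 ^ e * (2 * μ) + 2 ^ e * (2 * μ) := by
    rw [hIe, Finset.sum_pair huv, if_neg (Ne.symm hyu), if_neg (Ne.symm hyv)]
  have hnum := num_s (X := Real.exp (C * (θ + 1))) (R := R) hC hX hN n1 n2 n3
  refine ⟨B, b1, b2, fun ω hω σ hσ η hη => ?_, fun ω hω σ hσ => ?_⟩
  · have h1 := (b3 ω hω σ hσ).1 η hη
    rw [hsum, hμ, hE] at h1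
    have h2 : sl ω = sl3 y u v (au (ptr F J ω)) (av (ptr F J ω)) := by rw [hsl]
    rw [h2] at h1
    exact h1.trans hnum
  · have h1 := (b3 ω hω σ hσ).2
    rw [hsum, hμ, hE] at h1
    have h3 : ∀ f : Fin m → ℝ, ∑ j ∈ ({y, u, v} : Finset (Fin m)), f j = f y + (f u + f v) := by
      intro f
      rw [Finset.sum_insert (by
        rw [Finset.mem_insert, Finset.mem_singleton]
        exact fun h => h.elim hyu hyv), Finset.sum_insert (by
        rw [Finset.mem_singleton]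
        exact huv), Finset.sum_singleton]
    rw [h3, hsly, hslu, hslv, one_mul] at h1
    exact h1.trans (mul_le_mul_of_nonneg_left hnum (by positivity))

end Pool.JVE
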