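import Pool.Agent.H62.OWN.Afv
import Pool.Agent.H62.OWN.Afr

/-!
# An affine label over three coordinates, in a family

`cls3_fam`: where the mixed second derivatives at the exact points are small there is an affine
closed label.
-/

set_option autoImplicit false

namespace Pool.JVE

open Finset MvPolynomial
open Pool.Agent.H49.Ent Pool.Agent.H32.Dense Pool.STK Pool.KA Pool.KSAT Pool.K2S Pool.PB Pool.GEN
open Pool.MIC6 (dpt dpt_near mvp wt wp wpt wp_eq Dp)
open Pool.FLF (Fam.sub)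
open Pool.PB.Trl (rt rt_mem t_rt)
open Pool.D2R (hs dd hs_smul_right)

variable {m J : ℕ}

theorem hs_eu {u v : Fin m} (huv : u ≠ v) (G : MvPolynomial (Option (Fin m)) ℝ)
    (x W : Option (Fin m) → ℝ) (t : ℝ) : hs G x W (eu u v t) =
      dd (pderiv (some u) G) x W + t * dd (pderiv (some v) G) x W := by
  classical
  unfold hs
  rw [Fintype.sum_option]
  have e0 : eu u v t none = 0 := rfl
  have e1 : ∀ j, eu u v t (some j) = if j = u then 1 else if j = v then t else 0 := fun _ => rfl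
  rw [e0, mul_zero, zero_add]
  have h1 : ∀ j : Fin m, dd (pderiv (some j) G) x W * eu u v t (some j) =
      (if j = u then dd (pderiv (some j) G) x W else 0) +
      (if j = v then t * dd (pderiv (some j) G) x W else 0) := by
    intro j
    rw [e1]
    by_cases h : j = u
    · rw [if_pos h, if_pos h, if_neg (fun h' => huv (h.symm.trans h'))]
      ring
    · rw [if_neg h, if_neg h]
      by_cases h' : j = v
      · rw [if_pos h', if_pos h']
        ring
      · rw [if_neg h', if_neg h']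
        ring
  rw [Finset.sum_congr rfl fun j _ => h1 j, Finset.sum_add_distrib, Finset.sum_ite_eq',
    Finset.sum_ite_eq', if_pos (Finset.mem_univ _), if_pos (Finset.mem_univ _)]

theorem hs_ev (v : Fin m) (G : MvPolynomial (Option (Fin m)) ℝ) (x W : Option (Fin m) → ℝ) :
    hs G x W (ev v) = dd (pderiv (some v) G) x W := by
  classical
  unfold hs
  rw [Fintype.sum_option]
  have e0 : ev v none = 0 := rfl
  have e1 : ∀ j, ev v (some j) = if j = v then 1 else 0 := fun _ => rfl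
  rw [e0, mul_zero, zero_add]
  have h1 : ∀ j : Fin m, dd (pderiv (some j) G) x W * ev v (some j) =
      if j = v then dd (pderiv (some j) G) x W else 0 := by
    intro j
    rw [e1]
    split_ifs <;> ring
  rw [Finset.sum_congr rfl fun j _ => h1 j, Finset.sum_ite_eq', if_pos (Finset.mem_univ _)]

theorem dd_lin (P Q : MvPolynomial (Option (Fin m)) ℝ) (x W : Option (Fin m) → ℝ) (t : ℝ) :
    dd (P + C t * Q) x W = dd P x W + t * dd Q x W := by
  unfold dd
  rw [Finset.mul_sum, ← Finset.sum_add_distrib]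
  refine Finset.sum_congr rfl fun o _ => ?_
  rw [map_add, pderiv_C_mul, map_add, map_mul, eval_C]
  ring

theorem wpt_rt (F : Fam m J) {w : ℕ} (hw : w ≤ J) (ω : F.Ω) :
    wpt F w ω (rt F w ω) = bt F ω := by
  rw [← lc_wpt]
  funext o
  exact eval_lc F hw ω o

/-- **An affine label where the mixed second derivatives are small.** -/
theorem cls3_fam (m K : ℕ) : ∃ C : ℝ, 1 ≤ C ∧ ∀ {J : ℕ} (F : Fam m J) (A : F.Ω → Prop)
    (_ : 0 < Pe F.p A) {y u v k : Fin m} {e w M M' N x R R' P : ℕ} {V : Type} {z : PtT F → V}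
    {z' : LnT F → V} {G : V → MvPolynomial (Option (Fin m)) ℝ}
    {au cu av cv ak ck θp : PtT F → ℝ} {θs ju jv : LnT F → ℝ} {aU aD θ : ℝ}, y ≠ u → y ≠ v →
    u ≠ v → (∀ v, (G v).totalDegree ≤ K) → (∀ ω, A ω → z (ptr F J ω) = z' (slam F w ω)) →
    Dp F A y u e M au cu → Dp F A y v e M av cv → Dp F A y k e M ak ck → w ≤ J →
    (∀ ω, A ω → θp (ptr F J ω) = θs (slam F w ω)) → (∀ ω, A ω → |θp (ptr F J ω)| ≤ 2 ^ e) →
    (∀ ω, A ω → |ju (slam F w ω) - au (ptr F J ω)| ≤ aU) →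
    (∀ ω, A ω → |jv (slam F w ω) + θs (slam F w ω) * au (ptr F J ω) -
      av (ptr F J ω)| ≤ aD) → 0 < aU → aU ≤ 1 → 0 < aD → aD ≤ 1 →
    (∀ ω, A ω → |Au F w z G u v θp aU ω| ≤ 1 / 2 ^ x ∧ |Av F w z G v aD ω| ≤ 1 / 2 ^ x) →
    (∀ ω, A ω → ∀ W : Option (Fin m) → ℝ, (∀ o, |W o| ≤ 2 ^ e) →
      (1 / 2 ^ w) ^ 2 * |hs (G (z (ptr F J ω))) (bt F ω) (bd F ω) W -
        hs (G (z (ptr F J ω))) (dpt (ptr F J ω)) (bd F ω) W| ≤ 1 / 2 ^ R') →
    (∀ ω, A ω → ∀ o, |eval (dpt (ptr F J ω)) (pderiv o (G (z (ptr F J ω)))) -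
      eval (bt F ω) (pderiv o (G (z (ptr F J ω))))| ≤ 2 ^ w * (1 / 2 ^ (R' + e))) →
    (∀ ω, A ω → ∀ o, |eval (dpt (ptr F J ω)) (pderiv o (G (z (ptr F J ω))))| ≤ 2 ^ e) →
    (∀ ω, A ω → ∀ σ ∈ Set.Icc (0 : ℝ) 1,
      |eval (wpt F w ω σ) (pderiv (some y) (G (z' (slam F w ω)))) +
        (au (ptr F J ω) * eval (wpt F w ω σ) (pderiv (some u) (G (z' (slam F w ω)))) +
        av (ptr F J ω) * eval (wpt F w ω σ) (pderiv (some v) (G (z' (slam F w ω))))) -
        ak (ptr F J ω)| ≤ 2 ^ w * (1 / 2 ^ R)) → 0 ≤ θ →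
    (∀ (B : F.Ω → Prop) (hB : 0 < Pe F.p B), Sub B A → Pe F.p A / 2 ≤ Pe F.p B →
      (Fam.sub F B hB).Tm θ) → C * (θ + 1) ≤ ((J : ℝ) - w) * Real.log 2 →
    Real.exp (C * (θ + 1)) ≤ 2 ^ N → x ≤ R' → x ≤ R → M' + N + w + 6 ≤ x →
    M' + 2 * e + 4 ≤ M → w + M' + (3 * e + 4) + m + 3 ≤ J → P + m + 3 ≤ w + M' →
    ∃ B : F.Ω → Prop, Sub B A ∧ Pe F.p A ≤ 36 * cI m * Pe F.p B ∧
      ∀ ρ : ℕ, Lb F {y, u, v} k 1 (3 * e + 5) J w ρ P B := by
  classical
  obtain ⟨C₁, hC₁, hgrd⟩ := grd_dif m K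
  refine ⟨C₁, hC₁, ?_⟩
  intro J F A hA y u v k e w M M' N x R R' P V z z' G au cu av cv ak ck θp θs ju jv aU aD θ hyu
    hyv huv hdeg hcl hDu hDv hDk hw thc hθb nu nv hU hU1 hD hD1 hsm hcH hcG hbG hrel hθ hTm hJ hN
    n1 n2 n3 n4 n5 n6
  have pe : (1 : ℝ) ≤ 2 ^ e := one_le_pow₀ (by norm_num)
  have pw : (0 : ℝ) < 2 ^ w := by positivity
  have px : (0 : ℝ) < 1 / 2 ^ x := by positivity
  have hxR' : (1 : ℝ) / 2 ^ R' ≤ 1 / 2 ^ x := inv_mono n1
  have hxR : (1 : ℝ) / 2 ^ R ≤ 1 / 2 ^ x := inv_mono n2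
  obtain ⟨Ru, hRu⟩ : ∃ Ru : LnT F → MvPolynomial (Option (Fin m)) ℝ, Ru = fun s =>
    pderiv (some u) (G (z' s)) + C (θs s) * pderiv (some v) (G (z' s)) := ⟨_, rfl⟩
  obtain ⟨Rv, hRv⟩ : ∃ Rv : LnT F → MvPolynomial (Option (Fin m)) ℝ, Rv = fun s =>
    pderiv (some v) (G (z' s)) := ⟨_, rfl⟩
  have hdv : ∀ s, (Rv s).totalDegree ≤ K := fun s => by
    rw [hRv]
    exact (deg_pd _ _).trans (hdeg _)
  have hdu : ∀ s, (Ru s).totalDegree ≤ K := fun s => by
    rw [hRu]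
    refine (totalDegree_add _ _).trans (max_le ((deg_pd _ _).trans (hdeg _)) ?_)
    refine (totalDegree_mul _ _).trans ?_
    rw [totalDegree_C, zero_add]
    exact (deg_pd _ _).trans (hdeg _)
  -- the bounds of the mixed second derivatives on the lines
  have hb : ∀ ω, A ω → ∀ (a : ℝ) (W : Option (Fin m) → ℝ), 0 < a →
      (∀ o, |(a • W) o| ≤ 2 ^ e) → |hp F w z G (ptr F J ω) (bd F ω) (a • W)| ≤ 1 / 2 ^ x →
      |hs (G (z' (slam F w ω))) (bt F ω) (bd F ω) W| ≤ (2 ^ w) ^ 2 * (2 * (1 / 2 ^ x)) / a := by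
    intro ω hω a W ha hW h1
    have h2 := hcH ω hω (a • W) hW
    unfold hp at h1
    rw [hcl ω hω] at h1 h2
    have hpos : (0 : ℝ) < (1 / 2 ^ w) ^ 2 := by positivity
    rw [abs_mul, abs_of_pos hpos] at h1
    have h3 : (1 / 2 ^ w) ^ 2 * |hs (G (z' (slam F w ω))) (bt F ω) (bd F ω) (a • W)| ≤
        2 * (1 / 2 ^ x) := by
      have h4 : |hs (G (z' (slam F w ω))) (bt F ω) (bd F ω) (a • W)| ≤
          |hs (G (z' (slam F w ω))) (bt F ω) (bd F ω) (a • W) -
            hs (G (z' (slam F w ω))) (dpt (ptr F J ω)) (bd F ω) (a • W)| +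
          |hs (G (z' (slam F w ω))) (dpt (ptr F J ω)) (bd F ω) (a • W)| := by
        have := abs_add_le (hs (G (z' (slam F w ω))) (bt F ω) (bd F ω) (a • W) -
            hs (G (z' (slam F w ω))) (dpt (ptr F J ω)) (bd F ω) (a • W))
          (hs (G (z' (slam F w ω))) (dpt (ptr F J ω)) (bd F ω) (a • W))
        rwa [sub_add_cancel] at this
      have h5 := mul_le_mul_of_nonneg_left h4 hpos.le
      rw [mul_add] at h5
      linarith
    rw [hs_smul_right, abs_mul, abs_of_pos ha] at h3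
    rw [le_div_iff₀ ha]
    have h6 : (1 / 2 ^ w) ^ 2 * (a * |hs (G (z' (slam F w ω))) (bt F ω) (bd F ω) W|) *
        (2 ^ w) ^ 2 = |hs (G (z' (slam F w ω))) (bt F ω) (bd F ω) W| * a := by
      field_simp
    rw [← h6, mul_comm _ (2 * (1 / 2 ^ x) : ℝ)]
    exact mul_le_mul_of_nonneg_right h3 (by positivity)
  obtain ⟨Bu, hBu⟩ : ∃ Bu : ℝ, Bu = (2 ^ w) ^ 2 * (2 * (1 / 2 ^ x)) / aU := ⟨_, rfl⟩
  obtain ⟨Bv, hBv⟩ : ∃ Bv : ℝ, Bv = (2 ^ w) ^ 2 * (2 * (1 / 2 ^ x)) / aD := ⟨_, rfl⟩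
  have hBu0 : 0 < Bu := by rw [hBu]; positivity
  have hBv0 : 0 < Bv := by rw [hBv]; positivity
  obtain ⟨A₁, a1, a2, a3⟩ := hgrd F A hA (R := Ru) (B := Bu) (θ := θ) hw hdu hBu0 hθ
    (fun hA' => hTm A hA' (fun _ h => h) (by
      have := Pe_nonneg F.isLaw A
      linarith)) hJ (fun ω hω => by
      have h1 := hb ω hω aU (eu u v (θp (ptr F J ω))) hU
        (eu_le pe hU.le hU1 (hθb ω hω)) (hsm ω hω).1
      rw [hs_eu huv, thc ω hω, ← hBu] at h1
      rw [hRu]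
      show |dd (pderiv (some u) (G (z' (slam F w ω))) + C (θs (slam F w ω)) *
        pderiv (some v) (G (z' (slam F w ω)))) (bt F ω) (bd F ω)| ≤ _
      rw [dd_lin]
      exact h1)
  have hA₁ : 0 < Pe F.p A₁ := by linarith
  obtain ⟨A₂, c1, c2, c3⟩ := hgrd F A₁ hA₁ (R := Rv) (B := Bv) (θ := θ) hw hdv hBv0 hθ
    (fun hA' => hTm A₁ hA' a1 a2) hJ (fun ω hω => by
      have h1 := hb ω (a1 ω hω) aD (ev v) hD (ev_le pe hD.le hD1) (hsm ω (a1 ω hω)).2
      rw [hs_ev, ← hBv] at h1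
      rw [hRv]
      exact h1)
  have hA₂ : Sub A₂ A := fun ω hω => a1 ω (c1 ω hω)
  -- the differences
  have hbu : Real.exp (C₁ * (θ + 1)) * (1 / 2 ^ w * Bu) ≤ 2 ^ (N + w + 1) / 2 ^ x / aU := by
    have h1 : 2 ^ (N + w + 1) / 2 ^ x / aU = 2 ^ N * (1 / 2 ^ w * Bu) := by
      rw [hBu, pow_succ, pow_add]
      field_simp
    rw [h1]
    exact mul_le_mul_of_nonneg_right hN (by positivity)
  have hbv : Real.exp (C₁ * (θ + 1)) * (1 / 2 ^ w * Bv) ≤ 2 ^ (N + w + 1) / 2 ^ x / aD := by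
    have h1 : 2 ^ (N + w + 1) / 2 ^ x / aD = 2 ^ N * (1 / 2 ^ w * Bv) := by
      rw [hBv, pow_succ, pow_add]
      field_simp
    rw [h1]
    exact mul_le_mul_of_nonneg_right hN (by positivity)
  have hrnd : ∀ a : ℝ, 0 < a → a ≤ 1 → 2 ^ (N + w + 1) / 2 ^ x / a +
      2 * (2 ^ w * (1 / 2 ^ R')) ≤ 2 ^ (N + w + 2) / 2 ^ x / a := by
    intro a ha ha1
    have h1 : (2 : ℝ) ^ (N + w + 2) / 2 ^ x / a = 2 ^ (N + w + 1) / 2 ^ x / a +
        2 ^ (N + w + 1) / 2 ^ x / a := by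
      rw [pow_succ _ (N + w + 1)]
      ring
    rw [h1]
    have h2 : 2 * (2 ^ w * (1 / 2 ^ R')) ≤ (2 : ℝ) ^ (N + w + 1) / 2 ^ x := by
      have h3 : (2 : ℝ) ^ (w + 1) ≤ 2 ^ (N + w + 1) := pow_le_pow_right₀ (by norm_num) (by omega)
      have h4 : 2 * (2 ^ w * (1 / 2 ^ R')) ≤ (2 : ℝ) ^ (w + 1) * (1 / 2 ^ x) := by
        rw [pow_succ]
        have h5 := mul_le_mul_of_nonneg_left hxR' (by positivity : (0 : ℝ) ≤ 2 * 2 ^ w)
        linarith
      refine h4.trans ?_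
      rw [mul_one_div]
      exact div_le_div_of_nonneg_right h3 (by positivity)
    have h3 : (2 : ℝ) ^ (N + w + 1) / 2 ^ x ≤ 2 ^ (N + w + 1) / 2 ^ x / a := by
      rw [le_div_iff₀ ha]
      exact mul_le_of_le_one_right (by positivity) ha1
    linarith
  have hcG' : ∀ ω, A ω → ∀ o, |eval (dpt (ptr F J ω)) (pderiv o (G (z (ptr F J ω)))) -
      eval (bt F ω) (pderiv o (G (z' (slam F w ω))))| ≤ 2 ^ w * (1 / 2 ^ (R' + e)) := by
    intro ω hω o
    have h1 := hcG ω hω o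
    rw [hcl ω hω] at h1 ⊢
    exact h1
  have hRe : (2 : ℝ) ^ w * (1 / 2 ^ (R' + e)) ≤ 2 ^ w * (1 / 2 ^ R') :=
    mul_le_mul_of_nonneg_left (inv_mono (by omega)) pw.le
  have hRe2 : (2 : ℝ) ^ e * (2 ^ w * (1 / 2 ^ (R' + e))) = 2 ^ w * (1 / 2 ^ R') := by
    rw [pow_add]
    field_simp
  obtain ⟨gu, hgu⟩ : ∃ gu : PtT F → ℝ, gu = fun p => eval (dpt p) (pderiv (some u) (G (z p))) +
    θp p * eval (dpt p) (pderiv (some v) (G (z p))) := ⟨_, rfl⟩
  obtain ⟨gv, hgv⟩ : ∃ gv : PtT F → ℝ, gv = fun p => eval (dpt p) (pderiv (some v) (G (z p))) :=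
    ⟨_, rfl⟩
  obtain ⟨pt, hpt⟩ : ∃ pt : LnT F → Option (Fin m) → ℝ, pt = fun s o => (lc w s o).eval 0 :=
    ⟨_, rfl⟩
  have hpt0 : ∀ ω, pt (slam F w ω) = wpt F w ω 0 := fun ω => by
    rw [hpt]
    exact lc_wpt F w ω 0
  have h0 : (0 : ℝ) ∈ Set.Icc (0 : ℝ) 1 := ⟨le_rfl, zero_le_one⟩
  obtain ⟨B, b1, b2, b3⟩ := cls3_ab (F := F) (B := A₂) (k := k) hyu hyv huv (W := w) (e := e)
    (M := M) (M' := M') (P := P) (gu := gu) (gv := gv)
    (hu := fun s => eval (pt s) (Ru s)) (hv := fun s => eval (pt s) (Rv s))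
    (hy := fun s => eval (pt s) (pderiv (some y) (G (z' s))))
    (ru := 2 ^ (N + w + 2) / 2 ^ x / aU) (rv := 2 ^ (N + w + 2) / 2 ^ x / aD)
    (E₁ := 2 ^ w * (1 / 2 ^ R)) (hDu.sub hA₂) (hDv.sub hA₂) (hDk.sub hA₂)
    (fun ω hω => thc ω (hA₂ ω hω)) (fun ω hω => hθb ω (hA₂ ω hω))
    (fun ω hω => nu ω (hA₂ ω hω)) (fun ω hω => nv ω (hA₂ ω hω)) (fun ω hω => by
      have h1 := hbG ω (hA₂ ω hω) (some u)
      have h2 := hbG ω (hA₂ ω hω) (some v)
      have h3 := hθb ω (hA₂ ω hω)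
      rw [hgu]
      show |eval (dpt (ptr F J ω)) (pderiv (some u) (G (z (ptr F J ω)))) +
        θp (ptr F J ω) * eval (dpt (ptr F J ω)) (pderiv (some v) (G (z (ptr F J ω))))| ≤ _
      have h4 : |θp (ptr F J ω) * eval (dpt (ptr F J ω))
          (pderiv (some v) (G (z (ptr F J ω))))| ≤ 2 ^ e * 2 ^ e := by
        rw [abs_mul]
        exact mul_le_mul h3 h2 (abs_nonneg _) (by positivity)
      refine (abs_add_le _ _).trans ((add_le_add h1 h4).trans ?_)
      have h5 : (2 : ℝ) ^ (2 * e + 1) = 2 ^ e * 2 ^ e + 2 ^ e * 2 ^ e := by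
        rw [pow_succ, two_mul, pow_add]
        ring
      have h6 : (2 : ℝ) ^ e * 1 ≤ 2 ^ e * 2 ^ e := mul_le_mul_of_nonneg_left pe (by positivity)
      rw [h5]
      linarith) (fun ω hω => by
      rw [hgv]
      exact hbG ω (hA₂ ω hω) (some v)) (fun ω hω => by
      have hωA := hA₂ ω hω
      have h1 := a3 ω (c1 ω hω) (rt F w ω) (rt_mem F w ω) 0 h0
      rw [wpt_rt F hw] at h1
      show |gu (ptr F J ω) - eval (pt (slam F w ω)) (Ru (slam F w ω))| ≤ _
      rw [hpt0]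
      have h2 : |gu (ptr F J ω) - eval (bt F ω) (Ru (slam F w ω))| ≤
          2 * (2 ^ w * (1 / 2 ^ R')) := by
        have k1 := hcG' ω hωA (some u)
        have k2 := hcG' ω hωA (some v)
        have k3 := hθb ω hωA
        have e1 : gu (ptr F J ω) - eval (bt F ω) (Ru (slam F w ω)) =
            (eval (dpt (ptr F J ω)) (pderiv (some u) (G (z (ptr F J ω)))) -
              eval (bt F ω) (pderiv (some u) (G (z' (slam F w ω))))) +
            θp (ptr F J ω) * (eval (dpt (ptr F J ω)) (pderiv (some v) (G (z (ptr F J ω)))) -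
              eval (bt F ω) (pderiv (some v) (G (z' (slam F w ω))))) := by
          rw [hgu, hRu]
          show eval (dpt (ptr F J ω)) (pderiv (some u) (G (z (ptr F J ω)))) +
            θp (ptr F J ω) * eval (dpt (ptr F J ω)) (pderiv (some v) (G (z (ptr F J ω)))) -
            eval (bt F ω) (pderiv (some u) (G (z' (slam F w ω))) + C (θs (slam F w ω)) *
              pderiv (some v) (G (z' (slam F w ω)))) = _
          rw [map_add, map_mul, eval_C, thc ω hωA]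
          ring
        rw [e1]
        have k4 : |θp (ptr F J ω) * (eval (dpt (ptr F J ω)) (pderiv (some v)
            (G (z (ptr F J ω)))) - eval (bt F ω) (pderiv (some v) (G (z' (slam F w ω)))))| ≤
            2 ^ e * (2 ^ w * (1 / 2 ^ (R' + e))) := by
          rw [abs_mul]
          exact mul_le_mul k3 k2 (abs_nonneg _) (by positivity)
        rw [hRe2] at k4
        refine (abs_add_le _ _).trans ?_
        linarith
      have h3 := hrnd aU hU hU1
      have e2 : gu (ptr F J ω) - eval (wpt F w ω 0) (Ru (slam F w ω)) =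
          (gu (ptr F J ω) - eval (bt F ω) (Ru (slam F w ω))) +
          (eval (bt F ω) (Ru (slam F w ω)) - eval (wpt F w ω 0) (Ru (slam F w ω))) := by ring
      rw [e2]
      refine (abs_add_le _ _).trans ?_
      linarith) (fun ω hω => by
      have hωA := hA₂ ω hω
      have h1 := c3 ω hω (rt F w ω) (rt_mem F w ω) 0 h0
      rw [wpt_rt F hw] at h1
      show |gv (ptr F J ω) - eval (pt (slam F w ω)) (Rv (slam F w ω))| ≤ _
      rw [hpt0]
      have h2 : |gv (ptr F J ω) - eval (bt F ω) (Rv (slam F w ω))| ≤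
          2 ^ w * (1 / 2 ^ R') := by
        have k2 := hcG' ω hωA (some v)
        rw [hgv, hRv]
        exact k2.trans hRe
      have h3 := hrnd aD hD hD1
      have e2 : gv (ptr F J ω) - eval (wpt F w ω 0) (Rv (slam F w ω)) =
          (gv (ptr F J ω) - eval (bt F ω) (Rv (slam F w ω))) +
          (eval (bt F ω) (Rv (slam F w ω)) - eval (wpt F w ω 0) (Rv (slam F w ω))) := by ring
      have h4 : (0 : ℝ) ≤ 2 ^ w * (1 / 2 ^ R') := by positivity
      rw [e2]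
      refine (abs_add_le _ _).trans ?_
      linarith) (fun ω hω => by
      have h1 := hrel ω (hA₂ ω hω) 0 h0
      show |eval (pt (slam F w ω)) (pderiv (some y) (G (z' (slam F w ω)))) +
        eval (pt (slam F w ω)) (Ru (slam F w ω)) * au (ptr F J ω) +
        eval (pt (slam F w ω)) (Rv (slam F w ω)) * (av (ptr F J ω) - θs (slam F w ω) *
          au (ptr F J ω)) - ak (ptr F J ω)| ≤ _
      have e1 : eval (pt (slam F w ω)) (Ru (slam F w ω)) =
          eval (pt (slam F w ω)) (pderiv (some u) (G (z' (slam F w ω)))) +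
          θs (slam F w ω) * eval (pt (slam F w ω)) (pderiv (some v) (G (z' (slam F w ω)))) := by
        rw [hRu]
        show eval _ (pderiv (some u) (G (z' (slam F w ω))) + C (θs (slam F w ω)) *
              pderiv (some v) (G (z' (slam F w ω)))) = _
        rw [map_add, map_mul, eval_C]
      have e2 : eval (pt (slam F w ω)) (Rv (slam F w ω)) =
          eval (pt (slam F w ω)) (pderiv (some v) (G (z' (slam F w ω)))) := by rw [hRv]
      rw [e1, e2, hpt0]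
      refine le_trans (le_of_eq ?_) h1
      congr 1
      ring) (by positivity) (by positivity) (by
      have h1 : 3 * (2 ^ (N + w + 2) / 2 ^ x / aU) * aU = 3 * (2 ^ (N + w + 2) / 2 ^ x) := by
        field_simp
      have h2 : 3 * (2 ^ (N + w + 2) / 2 ^ x / aD) * aD = 3 * (2 ^ (N + w + 2) / 2 ^ x) := by
        field_simp
      rw [h1, h2]
      have h3 : (2 : ℝ) ^ w * (1 / 2 ^ R) ≤ 2 ^ (N + w + 2) / 2 ^ x := by
        have k1 : (2 : ℝ) ^ w * (1 / 2 ^ R) ≤ 2 ^ w * (1 / 2 ^ x) :=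
          mul_le_mul_of_nonneg_left hxR pw.le
        have k2 : (2 : ℝ) ^ w ≤ 2 ^ (N + w + 2) := pow_le_pow_right₀ (by norm_num) (by omega)
        refine k1.trans ?_
        rw [mul_one_div]
        exact div_le_div_of_nonneg_right k2 (by positivity)
      have h4 : 8 * ((2 : ℝ) ^ (N + w + 2) / 2 ^ x) ≤ 1 / 2 ^ M' := by
        have k1 : 8 * ((2 : ℝ) ^ (N + w + 2) / 2 ^ x) = 2 ^ (N + w + 5) / 2 ^ x := by
          have : (2 : ℝ) ^ (N + w + 5) = 2 ^ (N + w + 2) * 2 ^ 3 := by rw [← pow_add]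
          rw [this]
          norm_num
          ring
        rw [k1, div_le_div_iff₀ (by positivity) (by positivity), one_mul, ← pow_add]
        exact pow_le_pow_right₀ (by norm_num) (by omega)
      have h5 : (0 : ℝ) ≤ 2 ^ (N + w + 2) / 2 ^ x := by positivity
      linarith) n4 hw n5 n6
  refine ⟨B, fun ω hω => hA₂ ω (b1 ω hω), ?_, b3⟩
  have h1 := cI_pos m
  have h2 : Pe F.p A ≤ 4 * Pe F.p A₂ := by linarith
  calc Pe F.p A ≤ 4 * (9 * cI m * Pe F.p B) :=
        h2.trans (mul_le_mul_of_nonneg_left b2 (by norm_num))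
    _ = 36 * cI m * Pe F.p B := by ring

end Pool.JVE
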