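import Mathlib

/-!
# Three directions determine a quadratic form of two variables

Linear forms `α₀`, `α₁` and a quadratic form `q` on the plane. `col_one`: vectors which are nearly
orthogonal to a large linear form are nearly collinear. `cor3`: if `α₀ + E α₁` and `2 α₁ + q` are
small at two vectors of each of three lines with separated directions, the forms are small.
-/

set_option autoImplicit false

namespace Pool.JVE.Cor

/-- Vectors which are nearly orthogonal to a large linear form are nearly collinear. -/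
theorem col_one {αu αv cu cv du dv ε X μ Λ : ℝ} (hε : 0 ≤ ε) (hμ : 0 < μ) (hΛ : 1 ≤ Λ)
    (hμ1 : μ ≤ 1) (hX : X ≤ |αu| ∨ X ≤ |αv|) (hεX : 2 * ε < X * μ)
    (hd : |αu * du + αv * dv| ≤ ε) (hdu : μ ≤ |du|) (hdv : |dv| ≤ Λ)
    (hc : |αu * cu + αv * cv| ≤ ε) (hcu : |cu| ≤ Λ) :
    |cv - dv / du * cu| ≤ 4 * Λ ^ 2 * ε / (X * μ ^ 2) := by
  have hX0 : 0 < X := by
    have h1 : 0 < X * μ := by linarith
    by_contra hX0
    exact absurd (mul_nonpos_of_nonpos_of_nonneg (not_lt.1 hX0) hμ.le) (not_le.2 h1)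
  have hdu0 : 0 < |du| := lt_of_lt_of_le hμ hdu
  have hdu1 : du ≠ 0 := abs_pos.1 hdu0
  -- the ratio
  have h1 : |αu + αv * (dv / du)| ≤ ε / μ := by
    have e1 : αu + αv * (dv / du) = (αu * du + αv * dv) / du := by
      field_simp
    rw [e1, abs_div]
    calc |αu * du + αv * dv| / |du| ≤ ε / |du| := div_le_div_of_nonneg_right hd hdu0.le
      _ ≤ ε / μ := div_le_div_of_nonneg_left hε hμ hdu
  have hr : |dv / du| ≤ Λ / μ := by
    rw [abs_div]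
    calc |dv| / |du| ≤ Λ / |du| := div_le_div_of_nonneg_right hdv hdu0.le
      _ ≤ Λ / μ := div_le_div_of_nonneg_left (by linarith) hμ hdu
  -- the second coefficient
  have hv : X * μ / (2 * Λ) ≤ |αv| := by
    by_contra hcon
    rw [not_le] at hcon
    have h3 : X * μ / (2 * Λ) ≤ X := by
      rw [div_le_iff₀ (by positivity)]
      have h4 : X * μ ≤ X * 1 := mul_le_mul_of_nonneg_left hμ1 hX0.le
      have h5 : X * 1 ≤ X * (2 * Λ) := mul_le_mul_of_nonneg_left (by linarith) hX0.le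
      linarith
    rcases hX with hX | hX
    · have h4 : |αu| ≤ |αu + αv * (dv / du)| + |αv * (dv / du)| := by
        have e2 : αu = (αu + αv * (dv / du)) - αv * (dv / du) := by ring
        have h5 := abs_sub (αu + αv * (dv / du)) (αv * (dv / du))
        rw [← e2] at h5
        exact h5
      have h5 : |αv * (dv / du)| ≤ |αv| * (Λ / μ) := by
        rw [abs_mul]
        exact mul_le_mul_of_nonneg_left hr (abs_nonneg _)
      have h6 : |αv| * (Λ / μ) < X * μ / (2 * Λ) * (Λ / μ) :=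
        mul_lt_mul_of_pos_right hcon (by positivity)
      have h7 : X * μ / (2 * Λ) * (Λ / μ) = X / 2 := by
        field_simp
      have h8 : ε / μ < X / 2 := by
        rw [div_lt_div_iff₀ hμ (by norm_num)]
        linarith
      linarith
    · linarith
  have hv0 : 0 < |αv| := lt_of_lt_of_le (by positivity) hv
  have e3 : αv * (cv - dv / du * cu) = (αu * cu + αv * cv) - cu * (αu + αv * (dv / du)) := by ring
  have h5 : |αv| * |cv - dv / du * cu| ≤ 2 * Λ * ε / μ := by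
    rw [← abs_mul, e3]
    refine (abs_sub _ _).trans ?_
    rw [abs_mul]
    have h6 : |cu| * |αu + αv * (dv / du)| ≤ Λ * (ε / μ) :=
      mul_le_mul hcu h1 (abs_nonneg _) (by linarith)
    have h7 : ε ≤ Λ * (ε / μ) := by
      have h8 : ε * μ ≤ Λ * ε := by
        have h9 : ε * μ ≤ ε * 1 := mul_le_mul_of_nonneg_left hμ1 hε
        have h10 : 1 * ε ≤ Λ * ε := mul_le_mul_of_nonneg_right hΛ hε
        linarith
      rw [← mul_div_assoc, le_div_iff₀ hμ]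
      exact h8
    have e4 : 2 * Λ * ε / μ = Λ * (ε / μ) + Λ * (ε / μ) := by ring
    rw [e4]
    linarith
  have h6 : X * μ / (2 * Λ) * |cv - dv / du * cu| ≤ 2 * Λ * ε / μ :=
    (mul_le_mul_of_nonneg_right hv (abs_nonneg _)).trans h5
  rw [le_div_iff₀ (by positivity)]
  have h7 : X * μ / (2 * Λ) * |cv - dv / du * cu| * (2 * Λ * μ) =
      |cv - dv / du * cu| * (X * μ ^ 2) := by
    field_simp
  have h8 : 2 * Λ * ε / μ * (2 * Λ * μ) = 4 * Λ ^ 2 * ε := by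
    field_simp
    ring
  rw [← h7, ← h8]
  exact mul_le_mul_of_nonneg_right h6 (by positivity)

/-- One line with two vectors. -/
theorem one_line {a0u a0v a1u a1v quu quv qvv E cu cv du dv t ε η μ Λ T m : ℝ} (hε : 0 ≤ ε)
    (hη : 0 ≤ η) (hη1 : η ≤ 1) (hμ : 0 < μ) (hμ1 : μ ≤ 1) (hΛ : 1 ≤ Λ) (hT : 1 ≤ T)
    (hm : 0 ≤ m) (hE : |E| ≤ 2) (h0v : |a0v| ≤ m) (h1v : |a1v| ≤ m)
    (hquv : |quv| ≤ m) (hqvv : |qvv| ≤ m) (ht : |t| ≤ T)
    (hc1 : |(a0u + E * a1u) * cu + (a0v + E * a1v) * cv| ≤ ε)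
    (hc2 : |2 * (a1u * cu + a1v * cv) + (quu * cu ^ 2 + 2 * quv * cu * cv + qvv * cv ^ 2)| ≤ ε)
    (hd2 : |2 * (a1u * du + a1v * dv) + (quu * du ^ 2 + 2 * quv * du * dv + qvv * dv ^ 2)| ≤ ε)
    (hcu : μ ≤ |cu|) (hdu : μ ≤ |du|) (hcd : μ ≤ |cu - du|) (hcΛ : |cu| ≤ Λ) (hdΛ : |du| ≤ Λ)
    (hcv : |cv - t * cu| ≤ η) (hdv : |dv - t * du| ≤ η) :
    |quu + 2 * quv * t + qvv * t ^ 2| ≤ 2 * (ε + 9 * T * Λ * m * η) / μ ^ 2 ∧
    |a1u + t * a1v| ≤ 2 * Λ * (ε + 9 * T * Λ * m * η) / μ ^ 2 ∧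
    |a0u + t * a0v| ≤ 6 * Λ * (ε + 9 * T * Λ * m * η) / μ ^ 2 := by
  obtain ⟨a, ha⟩ : ∃ a, a = a1u + t * a1v := ⟨_, rfl⟩
  obtain ⟨b, hb⟩ : ∃ b, b = quu + 2 * quv * t + qvv * t ^ 2 := ⟨_, rfl⟩
  obtain ⟨ε₁, hε₁⟩ : ∃ ε₁, ε₁ = ε + 9 * T * Λ * m * η := ⟨_, rfl⟩
  rw [← ha, ← hb, ← hε₁]
  have hTΛ : 1 ≤ T * Λ := one_le_mul_of_one_le_of_one_le hT hΛ
  have hTT : Λ ≤ T * Λ := le_mul_of_one_le_left (by linarith) hT
  have hmη : 0 ≤ m * η := mul_nonneg hm hη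
  have herr : ∀ z : ℝ, 0 ≤ z → z ≤ T * Λ → z * (m * η) ≤ T * Λ * (m * η) := fun z _ hz =>
    mul_le_mul_of_nonneg_right hz hmη
  have hε1 : ε ≤ ε₁ := by
    rw [hε₁]
    have : 0 ≤ 9 * T * Λ * m * η := by positivity
    linarith
  have hε10 : 0 ≤ ε₁ := hε.trans hε1
  have gen : ∀ x y : ℝ, |2 * (a1u * x + a1v * y) +
      (quu * x ^ 2 + 2 * quv * x * y + qvv * y ^ 2)| ≤ ε → μ ≤ |x| → |x| ≤ Λ →
      |y - t * x| ≤ η → |2 * a + x * b| ≤ ε₁ / μ := by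
    intro x y h1 h2 h3 h4
    obtain ⟨δ, hδ⟩ : ∃ δ, δ = y - t * x := ⟨_, rfl⟩
    rw [← hδ] at h4
    have hx0 : 0 < |x| := lt_of_lt_of_le hμ h2
    have e1 : x * (2 * a + x * b) = (2 * (a1u * x + a1v * y) +
        (quu * x ^ 2 + 2 * quv * x * y + qvv * y ^ 2)) -
        (2 * a1v * δ + 2 * quv * x * δ + qvv * (2 * t * x * δ + δ * δ)) := by
      rw [ha, hb, hδ]
      ring
    have k1 : |2 * a1v * δ| ≤ 2 * (m * η) := by
      rw [abs_mul, abs_mul, abs_of_pos (by norm_num : (0 : ℝ) < 2), mul_assoc]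
      exact mul_le_mul_of_nonneg_left (mul_le_mul h1v h4 (abs_nonneg _) hm) (by norm_num)
    have k2 : |2 * quv * x * δ| ≤ 2 * (Λ * (m * η)) := by
      have e2 : 2 * quv * x * δ = 2 * (x * (quv * δ)) := by ring
      rw [e2, abs_mul, abs_mul, abs_mul, abs_of_pos (by norm_num : (0 : ℝ) < 2)]
      refine mul_le_mul_of_nonneg_left ?_ (by norm_num)
      exact mul_le_mul h3 (mul_le_mul hquv h4 (abs_nonneg _) hm) (by positivity) (by linarith)
    have k3 : |qvv * (2 * t * x * δ + δ * δ)| ≤ 2 * (T * Λ * (m * η)) + m * η := by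
      have e2 : qvv * (2 * t * x * δ + δ * δ) = 2 * (t * x * (qvv * δ)) + δ * (qvv * δ) := by ring
      rw [e2]
      have k4 : |qvv * δ| ≤ m * η := by
        rw [abs_mul]
        exact mul_le_mul hqvv h4 (abs_nonneg _) hm
      have k5 : |2 * (t * x * (qvv * δ))| ≤ 2 * (T * Λ * (m * η)) := by
        rw [abs_mul, abs_mul (t * x), abs_mul t x, abs_of_pos (by norm_num : (0 : ℝ) < 2)]
        refine mul_le_mul_of_nonneg_left ?_ (by norm_num)
        exact mul_le_mul (mul_le_mul ht h3 (abs_nonneg _) (by linarith)) k4 (abs_nonneg _)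
          (by positivity)
      have k6 : |δ * (qvv * δ)| ≤ m * η := by
        rw [abs_mul]
        have := mul_le_mul (h4.trans hη1) k4 (abs_nonneg _) zero_le_one
        linarith
      exact (abs_add_le _ _).trans (add_le_add k5 k6)
    have k7 : |x| * |2 * a + x * b| ≤ ε₁ := by
      rw [← abs_mul, e1]
      refine (abs_sub _ _).trans ?_
      have k8 : |2 * a1v * δ + 2 * quv * x * δ + qvv * (2 * t * x * δ + δ * δ)| ≤
          |2 * a1v * δ| + |2 * quv * x * δ| + |qvv * (2 * t * x * δ + δ * δ)| :=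
        (abs_add_le _ _).trans (add_le_add (abs_add_le _ _) le_rfl)
      have k9 := herr 1 (by norm_num) hTΛ
      have k10 := herr Λ (by linarith) hTT
      rw [one_mul] at k9
      have e3 : 9 * T * Λ * m * η = 9 * (T * Λ * (m * η)) := by ring
      rw [hε₁, e3]
      linarith
    rw [le_div_iff₀ hμ]
    calc |2 * a + x * b| * μ ≤ |2 * a + x * b| * |x| :=
          mul_le_mul_of_nonneg_left h2 (abs_nonneg _)
      _ = |x| * |2 * a + x * b| := mul_comm _ _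
      _ ≤ ε₁ := k7
  have g1 := gen cu cv hc2 hcu hcΛ hcv
  have g2 := gen du dv hd2 hdu hdΛ hdv
  have hbb : |b| ≤ 2 * ε₁ / μ ^ 2 := by
    have e1 : (cu - du) * b = (2 * a + cu * b) - (2 * a + du * b) := by ring
    have k1 : |cu - du| * |b| ≤ ε₁ / μ + ε₁ / μ := by
      rw [← abs_mul, e1]
      exact (abs_sub _ _).trans (add_le_add g1 g2)
    have k2 : μ * |b| ≤ ε₁ / μ + ε₁ / μ :=
      (mul_le_mul_of_nonneg_right hcd (abs_nonneg _)).trans k1
    rw [le_div_iff₀ (by positivity)]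
    have e2 : |b| * μ ^ 2 = μ * |b| * μ := by ring
    have e3 : 2 * ε₁ = (ε₁ / μ + ε₁ / μ) * μ := by
      field_simp
      ring
    rw [e2, e3]
    exact mul_le_mul_of_nonneg_right k2 hμ.le
  have hμ2 : μ ^ 2 ≤ μ := by
    have := mul_le_mul_of_nonneg_left hμ1 hμ.le
    rw [sq]
    linarith
  have hfr : ε₁ / μ ≤ Λ * ε₁ / μ ^ 2 := by
    rw [div_le_div_iff₀ hμ (by positivity)]
    have k1 : ε₁ * μ ^ 2 ≤ ε₁ * μ := mul_le_mul_of_nonneg_left hμ2 hε10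
    have k2 : 1 * (ε₁ * μ) ≤ Λ * (ε₁ * μ) := mul_le_mul_of_nonneg_right hΛ (by positivity)
    linarith
  have haa : |a| ≤ 2 * Λ * ε₁ / μ ^ 2 := by
    have e1 : 2 * a = (2 * a + cu * b) - cu * b := by ring
    have k1 : |2 * a| ≤ ε₁ / μ + Λ * (2 * ε₁ / μ ^ 2) := by
      rw [e1]
      refine (abs_sub _ _).trans (add_le_add g1 ?_)
      rw [abs_mul]
      exact mul_le_mul hcΛ hbb (abs_nonneg _) (by linarith)
    rw [abs_mul, abs_of_pos (by norm_num : (0 : ℝ) < 2)] at k1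
    have e2 : Λ * (2 * ε₁ / μ ^ 2) = 2 * (Λ * ε₁ / μ ^ 2) := by ring
    have e3 : 2 * Λ * ε₁ / μ ^ 2 = 2 * (Λ * ε₁ / μ ^ 2) := by ring
    have k2 : 0 ≤ Λ * ε₁ / μ ^ 2 := by positivity
    rw [e2] at k1
    rw [e3]
    linarith
  refine ⟨hbb, haa, ?_⟩
  obtain ⟨δ, hδ⟩ : ∃ δ, δ = cv - t * cu := ⟨_, rfl⟩
  rw [← hδ] at hcv
  have e1 : cu * (a0u + t * a0v) = ((a0u + E * a1u) * cu + (a0v + E * a1v) * cv) -
      (a0v * δ + E * (a1v * δ)) - cu * (E * a) := by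
    rw [ha, hδ]
    ring
  have k1 : |a0v * δ + E * (a1v * δ)| ≤ 3 * (m * η) := by
    have l1 : |a0v * δ| ≤ m * η := by
      rw [abs_mul]
      exact mul_le_mul h0v hcv (abs_nonneg _) hm
    have l2 : |E * (a1v * δ)| ≤ 2 * (m * η) := by
      rw [abs_mul, abs_mul]
      exact mul_le_mul hE (mul_le_mul h1v hcv (abs_nonneg _) hm) (by positivity) (by norm_num)
    have := abs_add_le (a0v * δ) (E * (a1v * δ))
    linarith
  have k2 : |E * a| ≤ 2 * (2 * Λ * ε₁ / μ ^ 2) := by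
    rw [abs_mul]
    exact mul_le_mul hE haa (abs_nonneg _) (by norm_num)
  have hcu0 : 0 < |cu| := lt_of_lt_of_le hμ hcu
  have k3 : |cu| * |a0u + t * a0v| ≤ ε₁ + |cu| * (2 * (2 * Λ * ε₁ / μ ^ 2)) := by
    rw [← abs_mul, e1]
    refine (abs_sub _ _).trans (add_le_add ?_ ?_)
    · refine (abs_sub _ _).trans ?_
      have k9 := herr 1 (by norm_num) hTΛ
      rw [one_mul] at k9
      have e3 : 9 * T * Λ * m * η = 9 * (T * Λ * (m * η)) := by ring
      rw [hε₁, e3]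
      have k10 : 0 ≤ T * Λ * (m * η) := by positivity
      linarith
    · rw [abs_mul]
      exact mul_le_mul_of_nonneg_left k2 (abs_nonneg _)
  have k4 : |a0u + t * a0v| ≤ ε₁ / |cu| + 2 * (2 * Λ * ε₁ / μ ^ 2) := by
    have k5 : |a0u + t * a0v| = |cu| * |a0u + t * a0v| / |cu| := by
      field_simp
    rw [k5]
    have k6 : ε₁ / |cu| + 2 * (2 * Λ * ε₁ / μ ^ 2) =
        (ε₁ + |cu| * (2 * (2 * Λ * ε₁ / μ ^ 2))) / |cu| := by
      rw [add_div, mul_div_assoc |cu|, mul_div_cancel₀]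
      exact hcu0.ne'
    rw [k6]
    exact div_le_div_of_nonneg_right k3 hcu0.le
  have k5 : ε₁ / |cu| ≤ ε₁ / μ := div_le_div_of_nonneg_left hε10 hμ hcu
  have e2 : 2 * (2 * Λ * ε₁ / μ ^ 2) = 4 * (Λ * ε₁ / μ ^ 2) := by ring
  have e3 : 6 * Λ * ε₁ / μ ^ 2 = 6 * (Λ * ε₁ / μ ^ 2) := by ring
  have k6 : 0 ≤ Λ * ε₁ / μ ^ 2 := by positivity
  rw [e2] at k4
  rw [e3]
  linarith

/-- A linear form which is small in two directions. -/
theorem lin_two {u v s t A T κ : ℝ} (hκ : 0 < κ) (hκ1 : κ ≤ 1) (hT : 1 ≤ T) (ht : |t| ≤ T)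
    (hst : κ ≤ |s - t|) (h1 : |u + s * v| ≤ A) (h2 : |u + t * v| ≤ A) :
    |v| ≤ 2 * A / κ ∧ |u| ≤ 3 * T * A / κ := by
  have hA : 0 ≤ A := (abs_nonneg _).trans h1
  have k1 : |s - t| * |v| ≤ A + A := by
    rw [← abs_mul]
    have e1 : (s - t) * v = (u + s * v) - (u + t * v) := by ring
    rw [e1]
    exact (abs_sub _ _).trans (add_le_add h1 h2)
  have k2 : |v| ≤ 2 * A / κ := by
    rw [le_div_iff₀ hκ]
    have := (mul_le_mul_of_nonneg_right hst (abs_nonneg v)).trans k1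
    linarith
  refine ⟨k2, ?_⟩
  have k3 : |u| ≤ |u + t * v| + |t * v| := by
    have e1 : u = (u + t * v) - t * v := by ring
    have h5 := abs_sub (u + t * v) (t * v)
    rw [← e1] at h5
    exact h5
  have k4 : |t * v| ≤ T * (2 * A / κ) := by
    rw [abs_mul]
    exact mul_le_mul ht k2 (abs_nonneg _) (by linarith)
  have k5 : A ≤ T * A / κ := by
    rw [le_div_iff₀ hκ]
    have l1 : A * κ ≤ A * 1 := mul_le_mul_of_nonneg_left hκ1 hA
    have l2 : 1 * A ≤ T * A := mul_le_mul_of_nonneg_right hT hA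
    linarith
  have e2 : T * (2 * A / κ) = 2 * (T * A / κ) := by ring
  have e3 : 3 * T * A / κ = 3 * (T * A / κ) := by ring
  rw [e2] at k4
  rw [e3]
  linarith

/-- A quadratic form which is small in three directions. -/
theorem quad_three {p q r s t w B T κ : ℝ} (hκ : 0 < κ) (hκ1 : κ ≤ 1) (hT : 1 ≤ T) (hs : |s| ≤ T)
    (ht : |t| ≤ T) (hst : κ ≤ |s - t|) (hsw : κ ≤ |s - w|) (htw : κ ≤ |t - w|)
    (h1 : |p + 2 * q * s + r * s ^ 2| ≤ B) (h2 : |p + 2 * q * t + r * t ^ 2| ≤ B)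
    (h3 : |p + 2 * q * w + r * w ^ 2| ≤ B) :
    |p| ≤ 15 * T ^ 2 * B / κ ^ 2 ∧ |q| ≤ 5 * T * B / κ ^ 2 ∧ |r| ≤ 4 * B / κ ^ 2 := by
  have hB : 0 ≤ B := (abs_nonneg _).trans h1
  have d1 : |2 * q + r * (s + t)| ≤ 2 * B / κ := by
    rw [le_div_iff₀ hκ]
    have e1 : (2 * q + r * (s + t)) * (s - t) =
        (p + 2 * q * s + r * s ^ 2) - (p + 2 * q * t + r * t ^ 2) := by ring
    have k1 : |2 * q + r * (s + t)| * |s - t| ≤ B + B := by
      rw [← abs_mul, e1]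
      exact (abs_sub _ _).trans (add_le_add h1 h2)
    have := (mul_le_mul_of_nonneg_left hst (abs_nonneg (2 * q + r * (s + t)))).trans k1
    linarith
  have d2 : |2 * q + r * (s + w)| ≤ 2 * B / κ := by
    rw [le_div_iff₀ hκ]
    have e1 : (2 * q + r * (s + w)) * (s - w) =
        (p + 2 * q * s + r * s ^ 2) - (p + 2 * q * w + r * w ^ 2) := by ring
    have k1 : |2 * q + r * (s + w)| * |s - w| ≤ B + B := by
      rw [← abs_mul, e1]
      exact (abs_sub _ _).trans (add_le_add h1 h3)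
    have := (mul_le_mul_of_nonneg_left hsw (abs_nonneg (2 * q + r * (s + w)))).trans k1
    linarith
  have d3 : |r| ≤ 4 * B / κ ^ 2 := by
    rw [le_div_iff₀ (by positivity)]
    have e1 : r * (t - w) = (2 * q + r * (s + t)) - (2 * q + r * (s + w)) := by ring
    have k1 : |r| * |t - w| ≤ 2 * B / κ + 2 * B / κ := by
      rw [← abs_mul, e1]
      exact (abs_sub _ _).trans (add_le_add d1 d2)
    have k2 := (mul_le_mul_of_nonneg_left htw (abs_nonneg r)).trans k1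
    have e2 : |r| * κ ^ 2 = |r| * κ * κ := by ring
    have e3 : 4 * B = (2 * B / κ + 2 * B / κ) * κ := by
      field_simp
      ring
    rw [e2, e3]
    exact mul_le_mul_of_nonneg_right k2 hκ.le
  have hκ2 : κ ^ 2 ≤ κ := by
    have := mul_le_mul_of_nonneg_left hκ1 hκ.le
    rw [sq]
    linarith
  have hκ3 : κ ^ 2 ≤ 1 := hκ2.trans hκ1
  have f1 : B / κ ≤ T * B / κ ^ 2 := by
    rw [div_le_div_iff₀ hκ (by positivity)]
    have l1 : B * κ ^ 2 ≤ B * κ := mul_le_mul_of_nonneg_left hκ2 hB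
    have l2 : 1 * (B * κ) ≤ T * (B * κ) := mul_le_mul_of_nonneg_right hT (by positivity)
    linarith
  have f0 : 0 ≤ T * B / κ ^ 2 := by positivity
  have d4 : |q| ≤ 5 * T * B / κ ^ 2 := by
    have k1 : |2 * q| ≤ |2 * q + r * (s + t)| + |r * (s + t)| := by
      have e1 : 2 * q = (2 * q + r * (s + t)) - r * (s + t) := by ring
      have h5 := abs_sub (2 * q + r * (s + t)) (r * (s + t))
      rw [← e1] at h5
      exact h5
    have k2 : |r * (s + t)| ≤ 4 * B / κ ^ 2 * (2 * T) := by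
      rw [abs_mul]
      refine mul_le_mul d3 ((abs_add_le _ _).trans (by linarith)) (abs_nonneg _) (by positivity)
    rw [abs_mul, abs_of_pos (by norm_num : (0 : ℝ) < 2)] at k1
    have e2 : 4 * B / κ ^ 2 * (2 * T) = 8 * (T * B / κ ^ 2) := by ring
    have e3 : 5 * T * B / κ ^ 2 = 5 * (T * B / κ ^ 2) := by ring
    have e4 : 2 * B / κ = 2 * (B / κ) := by ring
    rw [e2] at k2
    rw [e4] at d1
    rw [e3]
    linarith
  refine ⟨?_, d4, d3⟩
  have k1 : |p| ≤ |p + 2 * q * s + r * s ^ 2| + (|2 * q * s| + |r * s ^ 2|) := by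
    have e1 : p = (p + 2 * q * s + r * s ^ 2) - (2 * q * s + r * s ^ 2) := by ring
    have h5 := abs_sub (p + 2 * q * s + r * s ^ 2) (2 * q * s + r * s ^ 2)
    rw [← e1] at h5
    have h6 := abs_add_le (2 * q * s) (r * s ^ 2)
    linarith
  have k2 : |2 * q * s| ≤ 2 * (5 * T * B / κ ^ 2) * T := by
    rw [abs_mul, abs_mul, abs_of_pos (by norm_num : (0 : ℝ) < 2)]
    exact mul_le_mul (by linarith) hs (abs_nonneg _) (by positivity)
  have k3 : |r * s ^ 2| ≤ 4 * B / κ ^ 2 * T ^ 2 := by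
    rw [abs_mul, abs_pow]
    exact mul_le_mul d3 (pow_le_pow_left₀ (abs_nonneg _) hs 2) (by positivity) (by positivity)
  have f2 : B ≤ T ^ 2 * B / κ ^ 2 := by
    rw [le_div_iff₀ (by positivity)]
    have l1 : B * κ ^ 2 ≤ B * 1 := mul_le_mul_of_nonneg_left hκ3 hB
    have l3 : (1 : ℝ) ≤ T ^ 2 := one_le_pow₀ hT
    have l2 : 1 * B ≤ T ^ 2 * B := mul_le_mul_of_nonneg_right l3 hB
    linarith
  have e2 : 2 * (5 * T * B / κ ^ 2) * T = 10 * (T ^ 2 * B / κ ^ 2) := by ring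
  have e3 : 4 * B / κ ^ 2 * T ^ 2 = 4 * (T ^ 2 * B / κ ^ 2) := by ring
  have e4 : 15 * T ^ 2 * B / κ ^ 2 = 15 * (T ^ 2 * B / κ ^ 2) := by ring
  rw [e2] at k2
  rw [e3] at k3
  rw [e4]
  linarith

/-- **Three lines.** -/
theorem cor3 {a0u a0v a1u a1v quu quv qvv ε η μ Λ T κ m : ℝ} {E cu cv du dv t : Fin 3 → ℝ}
    (hε : 0 ≤ ε) (hη : 0 ≤ η) (hη1 : η ≤ 1) (hμ : 0 < μ) (hμ1 : μ ≤ 1) (hΛ : 1 ≤ Λ)
    (hT : 1 ≤ T) (hκ : 0 < κ) (hκ1 : κ ≤ 1)
    (hm : m = max (max |a0u| |a0v|) (max (max |a1u| |a1v|) (max |quu| (max |quv| |qvv|))))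
    (hE : ∀ j, |E j| ≤ 2) (ht : ∀ j, |t j| ≤ T)
    (hc1 : ∀ j, |(a0u + E j * a1u) * cu j + (a0v + E j * a1v) * cv j| ≤ ε)
    (hc2 : ∀ j, |2 * (a1u * cu j + a1v * cv j) +
      (quu * cu j ^ 2 + 2 * quv * cu j * cv j + qvv * cv j ^ 2)| ≤ ε)
    (hd2 : ∀ j, |2 * (a1u * du j + a1v * dv j) +
      (quu * du j ^ 2 + 2 * quv * du j * dv j + qvv * dv j ^ 2)| ≤ ε)
    (hcu : ∀ j, μ ≤ |cu j|) (hdu : ∀ j, μ ≤ |du j|) (hcd : ∀ j, μ ≤ |cu j - du j|)
    (hcΛ : ∀ j, |cu j| ≤ Λ) (hdΛ : ∀ j, |du j| ≤ Λ)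
    (hcv : ∀ j, |cv j - t j * cu j| ≤ η) (hdv : ∀ j, |dv j - t j * du j| ≤ η)
    (hsep : ∀ i j, i ≠ j → κ ≤ |t i - t j|) :
    m ≤ 30 * T ^ 2 * Λ * (ε + 9 * T * Λ * m * η) / (μ ^ 2 * κ ^ 2) := by
  have m0u : |a0u| ≤ m := by rw [hm]; exact (le_max_left _ _).trans (le_max_left _ _)
  have m0v : |a0v| ≤ m := by rw [hm]; exact (le_max_right _ _).trans (le_max_left _ _)
  have m1u : |a1u| ≤ m := by
    rw [hm]
    exact (le_max_left _ _).trans ((le_max_left _ _).trans (le_max_right _ _))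
  have m1v : |a1v| ≤ m := by
    rw [hm]
    exact (le_max_right _ _).trans ((le_max_left _ _).trans (le_max_right _ _))
  have mquv : |quv| ≤ m := by
    rw [hm]
    exact (le_max_left _ _).trans ((le_max_right _ _).trans ((le_max_right _ _).trans
      (le_max_right _ _)))
  have mqvv : |qvv| ≤ m := by
    rw [hm]
    exact (le_max_right _ _).trans ((le_max_right _ _).trans ((le_max_right _ _).trans
      (le_max_right _ _)))
  have hm0 : 0 ≤ m := (abs_nonneg _).trans m0u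
  obtain ⟨ε₁, hε₁⟩ : ∃ ε₁, ε₁ = ε + 9 * T * Λ * m * η := ⟨_, rfl⟩
  have hε10 : 0 ≤ ε₁ := by
    rw [hε₁]
    positivity
  have hl := fun j => one_line hε hη hη1 hμ hμ1 hΛ hT hm0 (hE j) m0v m1v mquv mqvv (ht j)
    (hc1 j) (hc2 j) (hd2 j) (hcu j) (hdu j) (hcd j) (hcΛ j) (hdΛ j) (hcv j) (hdv j)
  rw [← hε₁] at hl ⊢
  have h01 : κ ≤ |t 0 - t 1| := hsep 0 1 (by decide)
  have h02 : κ ≤ |t 0 - t 2| := hsep 0 2 (by decide)
  have h12 : κ ≤ |t 1 - t 2| := hsep 1 2 (by decide)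
  obtain ⟨q1, q2, q3⟩ := quad_three hκ hκ1 hT (ht 0) (ht 1) h01 h02 h12 (hl 0).1 (hl 1).1
    (hl 2).1
  obtain ⟨r1, r2⟩ := lin_two hκ hκ1 hT (ht 1) h01 (hl 0).2.1 (hl 1).2.1
  obtain ⟨s1, s2⟩ := lin_two hκ hκ1 hT (ht 1) h01 (hl 0).2.2 (hl 1).2.2
  obtain ⟨Z, hZ⟩ : ∃ Z, Z = T ^ 2 * Λ * ε₁ / (μ ^ 2 * κ ^ 2) := ⟨_, rfl⟩
  have eZ : 30 * T ^ 2 * Λ * ε₁ / (μ ^ 2 * κ ^ 2) = 30 * Z := by
    rw [hZ]
    ring
  have hκ2 : κ ^ 2 ≤ κ := by
    have := mul_le_mul_of_nonneg_left hκ1 hκ.le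
    rw [sq]
    linarith
  have hTT : T ≤ T ^ 2 := by
    have := mul_le_mul_of_nonneg_left hT (by linarith : (0 : ℝ) ≤ T)
    rw [sq]
    linarith
  have hT2 : 1 ≤ T ^ 2 := one_le_pow₀ hT
  have hTΛ : 1 ≤ T ^ 2 * Λ := one_le_mul_of_one_le_of_one_le hT2 hΛ
  -- comparison with the unit `Z`
  have cmp : ∀ a : ℝ, 0 ≤ a → a ≤ T ^ 2 * Λ → a * ε₁ / (μ ^ 2 * κ ^ 2) ≤ Z := by
    intro a _ ha
    rw [hZ]
    exact div_le_div_of_nonneg_right (mul_le_mul_of_nonneg_right ha hε10) (by positivity)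
  have cmp' : ∀ a : ℝ, 0 ≤ a → a ≤ T ^ 2 * Λ → a * ε₁ / (μ ^ 2 * κ) ≤ Z := by
    intro a ha0 ha
    refine le_trans ?_ (cmp a ha0 ha)
    exact div_le_div_of_nonneg_left (by positivity) (by positivity)
      (mul_le_mul_of_nonneg_left hκ2 (by positivity))
  have hΛT : Λ ≤ T ^ 2 * Λ := le_mul_of_one_le_left (by linarith) hT2
  have hTΛ2 : T * Λ ≤ T ^ 2 * Λ := mul_le_mul_of_nonneg_right hTT (by linarith)
  have hT2Λ : T ^ 2 ≤ T ^ 2 * Λ := le_mul_of_one_le_right (by positivity) hΛ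
  have hT1Λ : T ≤ T ^ 2 * Λ := hTT.trans hT2Λ
  have b0v : |a0v| ≤ 12 * Z := by
    refine s1.trans ?_
    have e : 2 * (6 * Λ * ε₁ / μ ^ 2) / κ = 12 * (Λ * ε₁ / (μ ^ 2 * κ)) := by
      field_simp
      ring
    rw [e]
    exact mul_le_mul_of_nonneg_left (cmp' Λ (by linarith) hΛT) (by norm_num)
  have b0u : |a0u| ≤ 18 * Z := by
    refine s2.trans ?_
    have e : 3 * T * (6 * Λ * ε₁ / μ ^ 2) / κ = 18 * (T * Λ * ε₁ / (μ ^ 2 * κ)) := by
      field_simp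
      ring
    rw [e]
    exact mul_le_mul_of_nonneg_left (cmp' (T * Λ) (by positivity) hTΛ2) (by norm_num)
  have b1v : |a1v| ≤ 4 * Z := by
    refine r1.trans ?_
    have e : 2 * (2 * Λ * ε₁ / μ ^ 2) / κ = 4 * (Λ * ε₁ / (μ ^ 2 * κ)) := by
      field_simp
      ring
    rw [e]
    exact mul_le_mul_of_nonneg_left (cmp' Λ (by linarith) hΛT) (by norm_num)
  have b1u : |a1u| ≤ 6 * Z := by
    refine r2.trans ?_
    have e : 3 * T * (2 * Λ * ε₁ / μ ^ 2) / κ = 6 * (T * Λ * ε₁ / (μ ^ 2 * κ)) := by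
      field_simp
      ring
    rw [e]
    exact mul_le_mul_of_nonneg_left (cmp' (T * Λ) (by positivity) hTΛ2) (by norm_num)
  have buu : |quu| ≤ 30 * Z := by
    refine q1.trans ?_
    have e : 15 * T ^ 2 * (2 * ε₁ / μ ^ 2) / κ ^ 2 = 30 * (T ^ 2 * ε₁ / (μ ^ 2 * κ ^ 2)) := by
      field_simp
      ring
    rw [e]
    exact mul_le_mul_of_nonneg_left (cmp (T ^ 2) (by positivity) hT2Λ) (by norm_num)
  have buv : |quv| ≤ 10 * Z := by
    refine q2.trans ?_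
    have e : 5 * T * (2 * ε₁ / μ ^ 2) / κ ^ 2 = 10 * (T * ε₁ / (μ ^ 2 * κ ^ 2)) := by
      field_simp
      ring
    rw [e]
    exact mul_le_mul_of_nonneg_left (cmp T (by linarith) hT1Λ) (by norm_num)
  have bvv : |qvv| ≤ 8 * Z := by
    refine q3.trans ?_
    have e : 4 * (2 * ε₁ / μ ^ 2) / κ ^ 2 = 8 * (1 * ε₁ / (μ ^ 2 * κ ^ 2)) := by
      field_simp
      ring
    rw [e]
    exact mul_le_mul_of_nonneg_left (cmp 1 zero_le_one hTΛ) (by norm_num)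
  have hZ0 : 0 ≤ Z := by
    rw [hZ]
    positivity
  rw [eZ, hm]
  refine max_le (max_le ?_ ?_) (max_le (max_le ?_ ?_) (max_le ?_ (max_le ?_ ?_))) <;> linarith

end Pool.JVE.Cor
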