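import Pool.Agent.H62.OWN.Hfm
import Pool.Agent.H62.OWN.Cor3
import Pool.Agent.H6.OWN.Ndf

/-!
# Labels over three coordinates: at most two slopes at a point

`Afd`: the second derivatives of a closed label over `y`, `u`, `v` at the exact points, in the
directions of the lines and of the slopes of the samples of the line. `two_fam`: where the mixed
second derivatives are large, the slopes of the samples of a line are on a line of slope `τ`, and
at every exact point there are at most two values of `τ`.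
-/

set_option autoImplicit false

namespace Pool.JVE

open Finset MvPolynomial
open Pool.Agent.H49.Ent Pool.Agent.H32.Dense Pool.STK Pool.KA Pool.KSAT Pool.K2S Pool.PB Pool.GEN
open Pool.MIC6 (dpt cov_fun)
open Pool.D2R (hs hs_comm hs_add_left hs_add_right hs_smul_left hs_smul_right)

variable {m J : ℕ}

/-- The slopes over the coordinate `y`. -/
def sl3 (y u v : Fin m) (a b : ℝ) (j : Fin m) : ℝ :=
  if j = y then 1 else if j = u then a else if j = v then b else 0

/-- The direction of the coordinate `u`, with the slope `θ` of `v`. -/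
def eu (u v : Fin m) (θ : ℝ) : Option (Fin m) → ℝ
  | none => 0
  | some j => if j = u then 1 else if j = v then θ else 0

/-- The direction of the coordinate `v`. -/
def ev (v : Fin m) : Option (Fin m) → ℝ
  | none => 0
  | some j => if j = v then 1 else 0

theorem svc_sub {y u v : Fin m} (huv : u ≠ v) (hyu : y ≠ u) (hyv : y ≠ v) (a b a' b' θ : ℝ) :
    svc (sl3 y u v a' b') - svc (sl3 y u v a b) =
      (a' - a) • eu u v θ + ((b' - b) - θ * (a' - a)) • ev v := by
  funext o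
  cases o with
  | none =>
    show (0 : ℝ) - 0 = (a' - a) * 0 + ((b' - b) - θ * (a' - a)) * 0
    ring
  | some j =>
    show sl3 y u v a' b' j - sl3 y u v a b j = (a' - a) * (if j = u then 1 else if j = v then θ
      else 0) + ((b' - b) - θ * (a' - a)) * (if j = v then 1 else 0)
    unfold sl3
    by_cases h1 : j = y
    · rw [if_pos h1, if_pos h1, if_neg (fun h => hyu (h1.symm.trans h)),
        if_neg (fun h => hyv (h1.symm.trans h)), if_neg (fun h => hyv (h1.symm.trans h))]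
      ring
    · rw [if_neg h1, if_neg h1]
      by_cases h2 : j = u
      · rw [if_pos h2, if_pos h2, if_pos h2, if_neg (fun h => huv (h2.symm.trans h))]
        ring
      · rw [if_neg h2, if_neg h2, if_neg h2]
        by_cases h3 : j = v
        · rw [if_pos h3, if_pos h3, if_pos h3, if_pos h3]
          ring
        · rw [if_neg h3, if_neg h3, if_neg h3, if_neg h3]
          ring

/-- **The form at the exact point.** -/
noncomputable def hp (F : Fam m J) (w : ℕ) {V : Type} (z : PtT F → V)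
    (G : V → MvPolynomial (Option (Fin m)) ℝ) (p : PtT F) (W W' : Option (Fin m) → ℝ) : ℝ :=
  (1 / 2 ^ w) ^ 2 * hs (G (z p)) (dpt p) W W'

section forms

variable (F : Fam m J) (w : ℕ) {V : Type} (z : PtT F → V)
  (G : V → MvPolynomial (Option (Fin m)) ℝ) (p : PtT F) (W W' W₁ : Option (Fin m) → ℝ) (s : ℝ)

theorem hp_comm : hp F w z G p W W' = hp F w z G p W' W := by
  unfold hp
  rw [hs_comm]

theorem hp_add_left : hp F w z G p (W + W₁) W' = hp F w z G p W W' + hp F w z G p W₁ W' := by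
  unfold hp
  rw [hs_add_left]
  ring

theorem hp_add_right : hp F w z G p W (W' + W₁) = hp F w z G p W W' + hp F w z G p W W₁ := by
  unfold hp
  rw [hs_add_right]
  ring

theorem hp_sub_left : hp F w z G p (W - W₁) W' = hp F w z G p W W' - hp F w z G p W₁ W' := by
  unfold hp
  rw [hs_sub_left]
  ring

theorem hp_sub_right : hp F w z G p W (W' - W₁) = hp F w z G p W W' - hp F w z G p W W₁ := by
  unfold hp
  rw [hs_sub_right]
  ring

theorem hp_smul_left : hp F w z G p (s • W) W' = s * hp F w z G p W W' := by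
  unfold hp
  rw [hs_smul_left]
  ring

theorem hp_smul_right : hp F w z G p W (s • W') = s * hp F w z G p W W' := by
  unfold hp
  rw [hs_smul_right]
  ring

end forms

/-- **The data at the exact points.** -/
structure Afd (F : Fam m J) (A : F.Ω → Prop) (y u v : Fin m) (w : ℕ) (au av : PtT F → ℝ)
    {V : Type} (z : PtT F → V) (G : V → MvPolynomial (Option (Fin m)) ℝ) (θp : PtT F → ℝ)
    (θs ju jv : LnT F → ℝ) (aU aD ε : ℝ) : Prop where
  thc : ∀ ω, A ω → θp (ptr F J ω) = θs (slam F w ω)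
  nu : ∀ ω, A ω → |ju (slam F w ω) - au (ptr F J ω)| ≤ aU
  nv : ∀ ω, A ω → |jv (slam F w ω) + θs (slam F w ω) * au (ptr F J ω) - av (ptr F J ω)| ≤ aD
  xy : ∀ ω ω', A ω → A ω' → slam F w ω' = slam F w ω →
    |hp F w z G (ptr F J ω) (bd F ω) (svc (sl3 y u v (au (ptr F J ω')) (av (ptr F J ω'))))| ≤ ε
  yy : ∀ ω ω', A ω → A ω' → slam F w ω' = slam F w ω →
    |hp F w z G (ptr F J ω) (svc (sl3 y u v (au (ptr F J ω')) (av (ptr F J ω'))))
      (svc (sl3 y u v (au (ptr F J ω')) (av (ptr F J ω'))))| ≤ ε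
  bx : ∀ ω ω', A ω → A ω' → ptr F J ω' = ptr F J ω →
    |hp F w z G (ptr F J ω) (bd F ω' - bd F ω - (F.d ω' y - F.d ω y) •
      svc (sl3 y u v (au (ptr F J ω)) (av (ptr F J ω)))) (aU • eu u v (θp (ptr F J ω)))| ≤ ε ∧
    |hp F w z G (ptr F J ω) (bd F ω' - bd F ω - (F.d ω' y - F.d ω y) •
      svc (sl3 y u v (au (ptr F J ω)) (av (ptr F J ω)))) (aD • ev v)| ≤ ε

/-- The mixed second derivative in the direction of `u`. -/
noncomputable def Au (F : Fam m J) (w : ℕ) {V : Type} (z : PtT F → V)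
    (G : V → MvPolynomial (Option (Fin m)) ℝ) (u v : Fin m) (θp : PtT F → ℝ) (aU : ℝ)
    (ω : F.Ω) : ℝ :=
  hp F w z G (ptr F J ω) (bd F ω) (aU • eu u v (θp (ptr F J ω)))

/-- The mixed second derivative in the direction of `v`. -/
noncomputable def Av (F : Fam m J) (w : ℕ) {V : Type} (z : PtT F → V)
    (G : V → MvPolynomial (Option (Fin m)) ℝ) (v : Fin m) (aD : ℝ) (ω : F.Ω) : ℝ :=
  hp F w z G (ptr F J ω) (bd F ω) (aD • ev v)

section afd

variable {F : Fam m J} {A : F.Ω → Prop} {y u v : Fin m} {w : ℕ} {au av : PtT F → ℝ} {V : Type}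
  {z : PtT F → V} {G : V → MvPolynomial (Option (Fin m)) ℝ} {θp : PtT F → ℝ}
  {θs ju jv : LnT F → ℝ} {aU aD ε : ℝ}

/-- The normalized difference of the slopes of `u`. -/
noncomputable def du (au : PtT F → ℝ) (aU : ℝ) (ω ω' : F.Ω) : ℝ :=
  (au (ptr F J ω') - au (ptr F J ω)) / aU

/-- The normalized difference of the slopes of `v`. -/
noncomputable def dw (au av : PtT F → ℝ) (θ aD : ℝ) (ω ω' : F.Ω) : ℝ :=
  ((av (ptr F J ω') - av (ptr F J ω)) - θ * (au (ptr F J ω') - au (ptr F J ω))) / aD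

theorem Afd.du_le (h : Afd F A y u v w au av z G θp θs ju jv aU aD ε) (hU : 0 < aU)
    {ω ω' : F.Ω} (hω : A ω) (hω' : A ω') (hs : slam F w ω' = slam F w ω) :
    |du au aU ω ω'| ≤ 2 := by
  have h1 := h.nu ω hω
  have h2 := h.nu ω' hω'
  rw [hs] at h2
  unfold du
  rw [abs_div, abs_of_pos hU, div_le_iff₀ hU]
  rw [abs_le] at h1 h2 ⊢
  constructor <;> linarith [h1.1, h1.2, h2.1, h2.2]

theorem Afd.dw_le (h : Afd F A y u v w au av z G θp θs ju jv aU aD ε) (hD : 0 < aD)
    {ω ω' : F.Ω} (hω : A ω) (hω' : A ω') (hs : slam F w ω' = slam F w ω) :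
    |dw au av (θs (slam F w ω)) aD ω ω'| ≤ 2 := by
  have h1 := h.nv ω hω
  have h2 := h.nv ω' hω'
  rw [hs] at h2
  unfold dw
  rw [abs_div, abs_of_pos hD, div_le_iff₀ hD]
  have e1 : av (ptr F J ω') - av (ptr F J ω) - θs (slam F w ω) *
      (au (ptr F J ω') - au (ptr F J ω)) =
      (jv (slam F w ω) + θs (slam F w ω) * au (ptr F J ω) - av (ptr F J ω)) -
      (jv (slam F w ω) + θs (slam F w ω) * au (ptr F J ω') - av (ptr F J ω')) := by ring
  rw [e1]
  have := (abs_sub (jv (slam F w ω) + θs (slam F w ω) * au (ptr F J ω) - av (ptr F J ω))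
    (jv (slam F w ω) + θs (slam F w ω) * au (ptr F J ω') - av (ptr F J ω'))).trans
    (add_le_add h1 h2)
  linarith

/-- The difference of the slopes of two samples of a line. -/
theorem svc_dif {y u v : Fin m} (hyu : y ≠ u) (hyv : y ≠ v) (huv : u ≠ v) (hU : 0 < aU)
    (hD : 0 < aD) (θ : ℝ) (ω ω' : F.Ω) :
    svc (sl3 y u v (au (ptr F J ω')) (av (ptr F J ω'))) -
      svc (sl3 y u v (au (ptr F J ω)) (av (ptr F J ω))) =
      du au aU ω ω' • (aU • eu u v θ) + dw au av θ aD ω ω' • (aD • ev v) := by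
  rw [svc_sub huv hyu hyv _ _ _ _ θ, smul_smul, smul_smul]
  unfold du dw
  rw [div_mul_cancel₀ _ hU.ne', div_mul_cancel₀ _ hD.ne']

/-- The slopes are nearly orthogonal to the mixed second derivatives. -/
theorem Afd.orth (h : Afd F A y u v w au av z G θp θs ju jv aU aD ε) (hyu : y ≠ u)
    (hyv : y ≠ v) (huv : u ≠ v) (hU : 0 < aU) (hD : 0 < aD) {ω ω' ω₁ : F.Ω} (hω : A ω)
    (hω' : A ω') (hω₁ : A ω₁) (hs : slam F w ω' = slam F w ω) (hs₁ : slam F w ω₁ = slam F w ω) :
    |Au F w z G u v θp aU ω * du au aU ω₁ ω' +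
      Av F w z G v aD ω * dw au av (θs (slam F w ω)) aD ω₁ ω'| ≤ 2 * ε := by
  have h1 := h.xy ω ω' hω hω' hs
  have h2 := h.xy ω ω₁ hω hω₁ hs₁
  have e1 : hp F w z G (ptr F J ω) (bd F ω)
      (svc (sl3 y u v (au (ptr F J ω')) (av (ptr F J ω'))) -
        svc (sl3 y u v (au (ptr F J ω₁)) (av (ptr F J ω₁)))) =
      Au F w z G u v θp aU ω * du au aU ω₁ ω' +
      Av F w z G v aD ω * dw au av (θs (slam F w ω)) aD ω₁ ω' := by
    rw [svc_dif hyu hyv huv hU hD (θp (ptr F J ω)) ω₁ ω']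
    unfold Au Av
    rw [h.thc ω hω]
    obtain ⟨U, hUU⟩ : ∃ U, U = aU • eu u v (θs (slam F w ω)) := ⟨_, rfl⟩
    obtain ⟨D, hDD⟩ : ∃ D, D = aD • ev v := ⟨_, rfl⟩
    rw [← hUU, ← hDD, hp_add_right, hp_smul_right, hp_smul_right]
    ring
  rw [← e1, hp_sub_right]
  have := (abs_sub (hp F w z G (ptr F J ω) (bd F ω)
    (svc (sl3 y u v (au (ptr F J ω')) (av (ptr F J ω')))))
    (hp F w z G (ptr F J ω) (bd F ω)
    (svc (sl3 y u v (au (ptr F J ω₁)) (av (ptr F J ω₁)))))).trans (add_le_add h1 h2)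
  linarith

/-- The second condition. -/
theorem Afd.quad (h : Afd F A y u v w au av z G θp θs ju jv aU aD ε) (hyu : y ≠ u)
    (hyv : y ≠ v) (huv : u ≠ v) (hU : 0 < aU) (hD : 0 < aD) {ω ω' : F.Ω} (hω : A ω)
    (hω' : A ω') (hs : slam F w ω' = slam F w ω) :
    |2 * (hp F w z G (ptr F J ω) (svc (sl3 y u v (au (ptr F J ω)) (av (ptr F J ω))))
        (aU • eu u v (θp (ptr F J ω))) * du au aU ω ω' +
      hp F w z G (ptr F J ω) (svc (sl3 y u v (au (ptr F J ω)) (av (ptr F J ω))))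
        (aD • ev v) * dw au av (θp (ptr F J ω)) aD ω ω') +
      (hp F w z G (ptr F J ω) (aU • eu u v (θp (ptr F J ω))) (aU • eu u v (θp (ptr F J ω))) *
        du au aU ω ω' ^ 2 +
      2 * hp F w z G (ptr F J ω) (aU • eu u v (θp (ptr F J ω))) (aD • ev v) *
        du au aU ω ω' * dw au av (θp (ptr F J ω)) aD ω ω' +
      hp F w z G (ptr F J ω) (aD • ev v) (aD • ev v) *
        dw au av (θp (ptr F J ω)) aD ω ω' ^ 2)| ≤ 2 * ε := by
  have h1 := h.yy ω ω' hω hω' hs
  have h2 := h.yy ω ω hω hω rfl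
  obtain ⟨Y, hY⟩ : ∃ Y, Y = svc (sl3 y u v (au (ptr F J ω)) (av (ptr F J ω))) := ⟨_, rfl⟩
  obtain ⟨Y', hY'⟩ : ∃ Y', Y' = svc (sl3 y u v (au (ptr F J ω')) (av (ptr F J ω'))) := ⟨_, rfl⟩
  have h3 := svc_dif (au := au) (av := av) hyu hyv huv hU hD (θp (ptr F J ω)) ω ω'
  rw [← hY] at h2 h3 ⊢
  rw [← hY'] at h1 h3
  obtain ⟨c, hc⟩ : ∃ c, c = du au aU ω ω' := ⟨_, rfl⟩
  obtain ⟨d, hd⟩ : ∃ d, d = dw au av (θp (ptr F J ω)) aD ω ω' := ⟨_, rfl⟩
  obtain ⟨U, hUU⟩ : ∃ U, U = aU • eu u v (θp (ptr F J ω)) := ⟨_, rfl⟩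
  obtain ⟨D, hDD⟩ : ∃ D, D = aD • ev v := ⟨_, rfl⟩
  rw [← hc, ← hd, ← hUU, ← hDD] at h3 ⊢
  have h4 : Y' = Y + (c • U + d • D) := by
    rw [← h3]
    abel
  have e1 : 2 * (hp F w z G (ptr F J ω) Y U * c + hp F w z G (ptr F J ω) Y D * d) +
      (hp F w z G (ptr F J ω) U U * c ^ 2 + 2 * hp F w z G (ptr F J ω) U D * c * d +
        hp F w z G (ptr F J ω) D D * d ^ 2) =
      hp F w z G (ptr F J ω) Y' Y' - hp F w z G (ptr F J ω) Y Y := by
    rw [h4]
    simp only [hp_add_left, hp_add_right, hp_smul_left, hp_smul_right]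
    rw [hp_comm F w z G (ptr F J ω) U Y, hp_comm F w z G (ptr F J ω) D Y,
      hp_comm F w z G (ptr F J ω) D U]
    ring
  rw [e1]
  have := (abs_sub (hp F w z G (ptr F J ω) Y' Y') (hp F w z G (ptr F J ω) Y Y)).trans
    (add_le_add h1 h2)
  linarith

end afd

end Pool.JVE
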