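import Pool.Agent.H62.OWN.Afp

/-!
# Labels over three coordinates: at most two slopes at a point

`no_three`: three lines through one exact point do not have separated slopes `τ`. `two_fam`: the
slopes and the two values.
-/

set_option autoImplicit false

namespace Pool.JVE

open Finset MvPolynomial
open Pool.Agent.H49.Ent Pool.Agent.H32.Dense Pool.STK Pool.KA Pool.KSAT Pool.K2S Pool.PB Pool.GEN
open Pool.MIC6 (dpt cov_fun)

variable {m J : ℕ}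

variable {F : Fam m J} {A : F.Ω → Prop} {y u v : Fin m} {w : ℕ} {au av : PtT F → ℝ} {V : Type}
  {z : PtT F → V} {G : V → MvPolynomial (Option (Fin m)) ℝ} {θp : PtT F → ℝ}
  {θs ju jv : LnT F → ℝ} {aU aD ε : ℝ}

/-- **Three lines through a point do not have separated slopes.** -/
theorem no_three (h : Afd F A y u v w au av z G θp θs ju jv aU aD ε) (hyu : y ≠ u)
    (hyv : y ≠ v) (huv : u ≠ v) (hU : 0 < aU) (hD : 0 < aD) {X μ T κ η : ℝ} (hε : 0 ≤ ε)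
    (hη : 0 ≤ η) (hη1 : η ≤ 1) (hμ : 0 < μ) (hμ1 : μ ≤ 1) (hT : 1 ≤ T) (hκ : 0 < κ)
    (hκ1 : κ ≤ 1) (n1 : 2160 * T ^ 3 * η ≤ μ ^ 2 * κ ^ 2)
    (n2 : 720 * T ^ 2 * ε < X * (μ ^ 2 * κ ^ 2)) {t : LnT F → ℝ} (ν : Fin 3 → F.Ω)
    (hν : ∀ j, A (ν j)) (hpt : ∀ j, ptr F J (ν j) = ptr F J (ν 0))
    (big : X ≤ |Au F w z G u v θp aU (ν 0)| ∨ X ≤ |Av F w z G v aD (ν 0)|)
    (ht : ∀ j, |t (slam F w (ν j))| ≤ T)
    (col : ∀ j ω', A ω' → slam F w ω' = slam F w (ν j) →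
      |dw au av (θs (slam F w (ν j))) aD (ν j) ω' - t (slam F w (ν j)) * du au aU (ν j) ω'| ≤ η)
    (nod : ∀ j, ∃ ω₁ ω₂, (A ω₁ ∧ slam F w ω₁ = slam F w (ν j)) ∧
      (A ω₂ ∧ slam F w ω₂ = slam F w (ν j)) ∧ μ ≤ |du au aU (ν j) ω₁| ∧
      μ ≤ |du au aU (ν j) ω₂| ∧ μ ≤ |du au aU (ν j) ω₁ - du au aU (ν j) ω₂|) :
    ¬ ∀ i j, i ≠ j → κ ≤ |t (slam F w (ν i)) - t (slam F w (ν j))| := by
  intro hsep
  choose ω₁ ω₂ g1 g2 g3 g4 g5 using nod
  obtain ⟨p, hp0⟩ : ∃ p, p = ptr F J (ν 0) := ⟨_, rfl⟩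
  have hp1 : ∀ j, ptr F J (ν j) = p := fun j => by rw [hpt j, hp0]
  obtain ⟨U, hUU⟩ : ∃ U, U = aU • eu u v (θp p) := ⟨_, rfl⟩
  obtain ⟨D, hDD⟩ : ∃ D, D = aD • ev v := ⟨_, rfl⟩
  obtain ⟨Y, hY⟩ : ∃ Y, Y = svc (sl3 y u v (au p) (av p)) := ⟨_, rfl⟩
  have hth : ∀ j, θs (slam F w (ν j)) = θp p := fun j => by rw [← h.thc _ (hν j), hp1 j]
  obtain ⟨a0u, ha0u⟩ : ∃ a, a = hp F w z G p (bd F (ν 0)) U := ⟨_, rfl⟩
  obtain ⟨a0v, ha0v⟩ : ∃ a, a = hp F w z G p (bd F (ν 0)) D := ⟨_, rfl⟩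
  obtain ⟨a1u, ha1u⟩ : ∃ a, a = hp F w z G p Y U := ⟨_, rfl⟩
  obtain ⟨a1v, ha1v⟩ : ∃ a, a = hp F w z G p Y D := ⟨_, rfl⟩
  obtain ⟨quu, hquu⟩ : ∃ a, a = hp F w z G p U U := ⟨_, rfl⟩
  obtain ⟨quv, hquv⟩ : ∃ a, a = hp F w z G p U D := ⟨_, rfl⟩
  obtain ⟨qvv, hqvv⟩ : ∃ a, a = hp F w z G p D D := ⟨_, rfl⟩
  have hAu : ∀ j, Au F w z G u v θp aU (ν j) = hp F w z G p (bd F (ν j)) U := fun j => by
    unfold Au
    rw [hp1 j, hUU]
  have hAv : ∀ j, Av F w z G v aD (ν j) = hp F w z G p (bd F (ν j)) D := fun j => by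
    unfold Av
    rw [hp1 j, hDD]
  obtain ⟨E, hE⟩ : ∃ E : Fin 3 → ℝ, E = fun j => F.d (ν j) y - F.d (ν 0) y := ⟨_, rfl⟩
  have hE2 : ∀ j, |E j| ≤ 2 := by
    intro j
    rw [hE]
    have h1 := F.dir (ν j) y
    have h2 := F.dir (ν 0) y
    have := abs_sub (F.d (ν j) y) (F.d (ν 0) y)
    show |F.d (ν j) y - F.d (ν 0) y| ≤ 2
    linarith
  have hbx : ∀ j, |Au F w z G u v θp aU (ν j) - (a0u + E j * a1u)| ≤ ε ∧
      |Av F w z G v aD (ν j) - (a0v + E j * a1v)| ≤ ε := by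
    intro j
    have h1 := h.bx (ν 0) (ν j) (hν 0) (hν j) (hpt j)
    rw [← hp0, ← hUU, ← hDD, ← hY, hp_sub_left, hp_sub_left, hp_smul_left, hp_sub_left,
      hp_sub_left, hp_smul_left, ← ha0u, ← ha0v, ← ha1u, ← ha1v, ← hAu, ← hAv] at h1
    have e1 : F.d (ν j) y - F.d (ν 0) y = E j := by rw [hE]
    rw [e1] at h1
    refine ⟨?_, ?_⟩
    · have e2 : Au F w z G u v θp aU (ν j) - (a0u + E j * a1u) =
          Au F w z G u v θp aU (ν j) - a0u - E j * a1u := by ring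
      rw [e2]
      exact h1.1
    · have e2 : Av F w z G v aD (ν j) - (a0v + E j * a1v) =
          Av F w z G v aD (ν j) - a0v - E j * a1v := by ring
      rw [e2]
      exact h1.2
  have hc1 : ∀ j, |(a0u + E j * a1u) * du au aU (ν j) (ω₁ j) +
      (a0v + E j * a1v) * dw au av (θs (slam F w (ν j))) aD (ν j) (ω₁ j)| ≤ 6 * ε := by
    intro j
    have k1 := h.orth hyu hyv huv hU hD (hν j) (g1 j).1 (hν j) (g1 j).2 rfl
    have k2 := h.du_le hU (hν j) (g1 j).1 (g1 j).2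
    have k3 := h.dw_le hD (hν j) (g1 j).1 (g1 j).2
    obtain ⟨k4, k5⟩ := hbx j
    have e1 : (a0u + E j * a1u) * du au aU (ν j) (ω₁ j) +
        (a0v + E j * a1v) * dw au av (θs (slam F w (ν j))) aD (ν j) (ω₁ j) =
        (Au F w z G u v θp aU (ν j) * du au aU (ν j) (ω₁ j) +
          Av F w z G v aD (ν j) * dw au av (θs (slam F w (ν j))) aD (ν j) (ω₁ j)) -
        ((Au F w z G u v θp aU (ν j) - (a0u + E j * a1u)) * du au aU (ν j) (ω₁ j) +
          (Av F w z G v aD (ν j) - (a0v + E j * a1v)) *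
            dw au av (θs (slam F w (ν j))) aD (ν j) (ω₁ j)) := by ring
    rw [e1]
    have k6 : |(Au F w z G u v θp aU (ν j) - (a0u + E j * a1u)) * du au aU (ν j) (ω₁ j)| ≤
        ε * 2 := by
      rw [abs_mul]
      exact mul_le_mul k4 k2 (abs_nonneg _) hε
    have k7 : |(Av F w z G v aD (ν j) - (a0v + E j * a1v)) *
        dw au av (θs (slam F w (ν j))) aD (ν j) (ω₁ j)| ≤ ε * 2 := by
      rw [abs_mul]
      exact mul_le_mul k5 k3 (abs_nonneg _) hε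
    refine (abs_sub _ _).trans ?_
    have k8 := abs_add_le ((Au F w z G u v θp aU (ν j) - (a0u + E j * a1u)) *
      du au aU (ν j) (ω₁ j)) ((Av F w z G v aD (ν j) - (a0v + E j * a1v)) *
        dw au av (θs (slam F w (ν j))) aD (ν j) (ω₁ j))
    linarith
  have hquad : ∀ j ω', A ω' → slam F w ω' = slam F w (ν j) →
      |2 * (a1u * du au aU (ν j) ω' + a1v * dw au av (θs (slam F w (ν j))) aD (ν j) ω') +
        (quu * du au aU (ν j) ω' ^ 2 +
        2 * quv * du au aU (ν j) ω' * dw au av (θs (slam F w (ν j))) aD (ν j) ω' +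
        qvv * dw au av (θs (slam F w (ν j))) aD (ν j) ω' ^ 2)| ≤ 6 * ε := by
    intro j ω' hω' hs
    have k1 := h.quad hyu hyv huv hU hD (hν j) hω' hs
    rw [hp1 j, ← hUU, ← hDD, ← hY, ← ha1u, ← ha1v, ← hquu, ← hquv, ← hqvv] at k1
    rw [hth j]
    linarith
  have hmain := Cor.cor3 (a0u := a0u) (a0v := a0v) (a1u := a1u) (a1v := a1v) (quu := quu)
    (quv := quv) (qvv := qvv) (ε := 6 * ε) (η := η) (μ := μ) (Λ := 2) (T := T) (κ := κ)
    (m := max (max |a0u| |a0v|) (max (max |a1u| |a1v|) (max |quu| (max |quv| |qvv|))))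
    (E := E) (cu := fun j => du au aU (ν j) (ω₁ j))
    (cv := fun j => dw au av (θs (slam F w (ν j))) aD (ν j) (ω₁ j))
    (du := fun j => du au aU (ν j) (ω₂ j))
    (dv := fun j => dw au av (θs (slam F w (ν j))) aD (ν j) (ω₂ j))
    (t := fun j => t (slam F w (ν j))) (by linarith) hη hη1 hμ hμ1 (by norm_num) hT hκ hκ1 rfl
    hE2 ht hc1 (fun j => hquad j _ (g1 j).1 (g1 j).2) (fun j => hquad j _ (g2 j).1 (g2 j).2)
    g3 g4 g5 (fun j => h.du_le hU (hν j) (g1 j).1 (g1 j).2)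
    (fun j => h.du_le hU (hν j) (g2 j).1 (g2 j).2)
    (fun j => col j _ (g1 j).1 (g1 j).2) (fun j => col j _ (g2 j).1 (g2 j).2) hsep
  obtain ⟨M, hM⟩ : ∃ M, M = max (max |a0u| |a0v|) (max (max |a1u| |a1v|)
    (max |quu| (max |quv| |qvv|))) := ⟨_, rfl⟩
  rw [← hM] at hmain
  have hμκ : 0 < μ ^ 2 * κ ^ 2 := by positivity
  have hM0 : 0 ≤ M := by
    rw [hM]
    exact (abs_nonneg a0u).trans ((le_max_left _ _).trans (le_max_left _ _))
  rw [le_div_iff₀ hμκ] at hmain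
  have k1 : 2160 * T ^ 3 * η * M ≤ μ ^ 2 * κ ^ 2 * M := mul_le_mul_of_nonneg_right n1 hM0
  have k2 : 30 * T ^ 2 * 2 * (6 * ε + 9 * T * 2 * M * η) = 360 * T ^ 2 * ε +
      2160 * T ^ 3 * η * M / 2 := by ring
  rw [k2] at hmain
  have k3 : X ≤ M := by
    rw [hAu, hAv, ← ha0u, ← ha0v] at big
    rcases big with hb | hb
    · exact hb.trans (by rw [hM]; exact (le_max_left _ _).trans (le_max_left _ _))
    · exact hb.trans (by rw [hM]; exact (le_max_right _ _).trans (le_max_left _ _))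
  have k4 : X * (μ ^ 2 * κ ^ 2) ≤ M * (μ ^ 2 * κ ^ 2) := mul_le_mul_of_nonneg_right k3 hμκ.le
  linarith

/-- Two of three separated numbers are not near a fourth one. -/
theorem two_far {f : Fin 3 → ℝ} {x s : ℝ} (h : ∀ i j, i ≠ j → s ≤ |f i - f j|) :
    ∃ i j, i ≠ j ∧ s / 2 ≤ |f i - x| ∧ s / 2 ≤ |f j - x| := by
  have key : ∀ i j, i ≠ j → s / 2 ≤ |f i - x| ∨ s / 2 ≤ |f j - x| := by
    intro i j hij
    by_contra hcon
    push Not at hcon
    have h1 := h i j hij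
    have h2 : |f i - f j| ≤ |f i - x| + |f j - x| := by
      have e : f i - f j = (f i - x) - (f j - x) := by ring
      rw [e]
      exact abs_sub _ _
    linarith [hcon.1, hcon.2]
  by_cases h0 : s / 2 ≤ |f 0 - x|
  · rcases key 1 2 (by decide) with h1 | h1
    · exact ⟨0, 1, by decide, h0, h1⟩
    · exact ⟨0, 2, by decide, h0, h1⟩
  · have h1 : s / 2 ≤ |f 1 - x| := (key 0 1 (by decide)).resolve_left h0
    have h2 : s / 2 ≤ |f 2 - x| := (key 0 2 (by decide)).resolve_left h0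
    exact ⟨1, 2, by decide, h1, h2⟩

/-- **At most two slopes at a point.** -/
theorem two_fam (h : Afd F A y u v w au av z G θp θs ju jv aU aD ε) (hyu : y ≠ u)
    (hyv : y ≠ v) (huv : u ≠ v) (hU : 0 < aU) (hD : 0 < aD) {X μ κ η sp : ℝ} (hε : 0 ≤ ε)
    (hη1 : η ≤ 1) (hμ : 0 < μ) (hμ1 : μ ≤ 1) (hκ : 0 < κ) (hκ1 : κ ≤ 1)
    (hsp : 2 * μ * aU ≤ sp) (n0 : 4 * ε < X * μ) (n3 : 32 * ε ≤ η * (X * μ ^ 2))
    (n1 : 17280 * η ≤ μ ^ 5 * κ ^ 2)
    (n2 : 2880 * ε < X * (μ ^ 4 * κ ^ 2)) {B : F.Ω → Prop} (hB : Sub B A)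
    (big : ∀ ω, B ω → X ≤ |Au F w z G u v θp aU ω| ∨ X ≤ |Av F w z G v aD ω|)
    (nod : ∀ ω, B ω → ∃ ν : Fin 3 → F.Ω, (∀ i, A (ν i) ∧ slam F w (ν i) = slam F w ω) ∧
      ∀ i j, i ≠ j → sp ≤ |au (ptr F J (ν i)) - au (ptr F J (ν j))|) :
    ∃ (τ σ : LnT F → ℝ) (β : PtT F → Fin 2 → ℝ), ∀ ω, B ω →
      |τ (slam F w ω) - θs (slam F w ω)| ≤ aD / aU * (2 / μ) ∧
      |σ (slam F w ω) + τ (slam F w ω) * au (ptr F J ω) - av (ptr F J ω)| ≤ aD * η ∧
      ∃ i, |β (ptr F J ω) i - τ (slam F w ω)| ≤ aD / aU * κ := by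
  classical
  have hX : 0 < X := by
    have h1 : 0 < X * μ := by linarith
    by_contra hX0
    exact absurd (mul_nonpos_of_nonpos_of_nonneg (not_lt.1 hX0) hμ.le) (not_le.2 h1)
  have hη0 : 0 ≤ η := by
    have h1 : 0 ≤ η * (X * μ ^ 2) := by linarith
    by_contra hcon
    exact absurd (mul_neg_of_neg_of_pos (not_le.1 hcon) (by positivity : 0 < X * μ ^ 2))
      (not_lt.2 h1)
  have hT : 1 ≤ 2 / μ := by
    rw [le_div_iff₀ hμ]
    linarith
  by_cases hne : ∃ ω, B ω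
  swap
  · exact ⟨fun _ => 0, fun _ => 0, fun _ _ => 0, fun ω hω => absurd ⟨ω, hω⟩ hne⟩
  obtain ⟨ω₀, -⟩ := hne
  -- the two samples of the line
  obtain ⟨Q, hQ⟩ : ∃ Q : LnT F → F.Ω × F.Ω → Prop, Q = fun s q =>
    (A q.1 ∧ slam F w q.1 = s) ∧ (A q.2 ∧ slam F w q.2 = s) ∧
      sp ≤ |au (ptr F J q.2) - au (ptr F J q.1)| := ⟨_, rfl⟩
  have hex : ∀ s, ∃ q, (∃ q', Q s q') → Q s q := by
    intro s
    by_cases hs : ∃ q', Q s q'
    · obtain ⟨q, hq⟩ := hs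
      exact ⟨q, fun _ => hq⟩
    · exact ⟨(ω₀, ω₀), fun h' => absurd h' hs⟩
  choose sel hsel using hex
  have hselB : ∀ ω, B ω → (A (sel (slam F w ω)).1 ∧ slam F w (sel (slam F w ω)).1 = slam F w ω) ∧
      (A (sel (slam F w ω)).2 ∧ slam F w (sel (slam F w ω)).2 = slam F w ω) ∧
      sp ≤ |au (ptr F J (sel (slam F w ω)).2) - au (ptr F J (sel (slam F w ω)).1)| := by
    intro ω hω
    obtain ⟨ν, h1, h2⟩ := nod ω hω
    have h3 := hsel (slam F w ω) ⟨(ν 1, ν 0), by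
      rw [hQ]
      exact ⟨h1 1, h1 0, h2 0 1 (by decide)⟩⟩
    rw [hQ] at h3
    exact h3
  obtain ⟨t, ht⟩ : ∃ t : LnT F → ℝ, t = fun s =>
    dw au av (θs s) aD (sel s).1 (sel s).2 / du au aU (sel s).1 (sel s).2 := ⟨_, rfl⟩
  obtain ⟨τ, hτ⟩ : ∃ τ : LnT F → ℝ, τ = fun s => θs s + aD / aU * t s := ⟨_, rfl⟩
  -- the first coordinates
  have hdu : ∀ ω, B ω → μ ≤ |du au aU (sel (slam F w ω)).1 (sel (slam F w ω)).2| := by
    intro ω hω
    have h1 := (hselB ω hω).2.2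
    unfold du
    rw [abs_div, abs_of_pos hU, le_div_iff₀ hU]
    have : 0 ≤ μ * aU := by positivity
    linarith
  have htT : ∀ ω, B ω → |t (slam F w ω)| ≤ 2 / μ := by
    intro ω hω
    obtain ⟨g1, g2, -⟩ := hselB ω hω
    have h1 := h.dw_le hD g1.1 g2.1 (g2.2.trans g1.2.symm)
    rw [g1.2] at h1
    rw [ht]
    show |dw au av (θs (slam F w ω)) aD _ _ / du au aU _ _| ≤ _
    rw [abs_div]
    calc _ ≤ 2 / |du au aU (sel (slam F w ω)).1 (sel (slam F w ω)).2| :=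
          div_le_div_of_nonneg_right h1 (abs_nonneg _)
      _ ≤ 2 / μ := div_le_div_of_nonneg_left (by norm_num) hμ (hdu ω hω)
  -- the slopes of the samples of a line
  have hcol : ∀ ω, B ω → ∀ ω', A ω' → slam F w ω' = slam F w ω →
      |dw au av (θs (slam F w ω)) aD ω ω' - t (slam F w ω) * du au aU ω ω'| ≤ η := by
    intro ω hω ω' hω' hs
    obtain ⟨g1, g2, -⟩ := hselB ω hω
    have h1 := h.orth hyu hyv huv hU hD (hB ω hω) g2.1 g1.1 g2.2 g1.2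
    have h2 := h.orth hyu hyv huv hU hD (hB ω hω) hω' (hB ω hω) hs rfl
    have h3 := h.dw_le hD g1.1 g2.1 (g2.2.trans g1.2.symm)
    rw [g1.2] at h3
    have h4 := h.du_le hU (hB ω hω) hω' hs
    have h5 := Cor.col_one (ε := 2 * ε) (X := X) (μ := μ) (Λ := 2) (by linarith) hμ
      (by norm_num) hμ1 (big ω hω) (by linarith) h1 (hdu ω hω) h3 h2 h4
    rw [ht]
    refine h5.trans ?_
    rw [div_le_iff₀ (by positivity)]
    have e1 : 4 * 2 ^ 2 * (2 * ε) = 32 * ε := by ring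
    rw [e1]
    exact n3
  -- the nodes
  have hnod : ∀ ω, B ω → ∃ ω₁ ω₂, (A ω₁ ∧ slam F w ω₁ = slam F w ω) ∧
      (A ω₂ ∧ slam F w ω₂ = slam F w ω) ∧ μ ≤ |du au aU ω ω₁| ∧
      μ ≤ |du au aU ω ω₂| ∧ μ ≤ |du au aU ω ω₁ - du au aU ω ω₂| := by
    intro ω hω
    obtain ⟨ν, h1, h2⟩ := nod ω hω
    obtain ⟨i, j, hij, h3, h4⟩ := two_far (f := fun i => au (ptr F J (ν i)))
      (x := au (ptr F J ω)) h2
    have h5 := h2 i j hij
    have e1 : du au aU ω (ν i) - du au aU ω (ν j) =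
        (au (ptr F J (ν i)) - au (ptr F J (ν j))) / aU := by
      unfold du
      ring
    refine ⟨ν i, ν j, h1 i, h1 j, ?_, ?_, ?_⟩
    · unfold du
      rw [abs_div, abs_of_pos hU, le_div_iff₀ hU]
      linarith
    · unfold du
      rw [abs_div, abs_of_pos hU, le_div_iff₀ hU]
      linarith
    · rw [e1, abs_div, abs_of_pos hU, le_div_iff₀ hU]
      have : 0 ≤ μ * aU := by positivity
      linarith
  -- the two values
  have hcov : ∀ p, ∃ c : Fin 2 → ℝ, ∀ ω, B ω ∧ ptr F J ω = p →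
      ∃ i, |c i - t (slam F w ω)| ≤ κ := by
    intro p
    refine cov_fun (fun ω => B ω ∧ ptr F J ω = p) (fun ω => t (slam F w ω)) κ 2 ?_
    rintro ⟨ν, h1, h2⟩
    refine no_three h hyu hyv huv hU hD (X := X) (μ := μ) (T := 2 / μ) (κ := κ) (η := η) hε hη0
      hη1 hμ hμ1 hT hκ hκ1 ?_ ?_ (t := t) ν (fun j => hB _ (h1 j).1)
      (fun j => (h1 j).2.trans (h1 0).2.symm) (big _ (h1 0).1) (fun j => htT _ (h1 j).1)
      (fun j ω' => hcol _ (h1 j).1 ω') (fun j => hnod _ (h1 j).1) h2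
    · have e1 : 2160 * (2 / μ) ^ 3 * η = 17280 * η / μ ^ 3 := by ring
      rw [e1, div_le_iff₀ (by positivity)]
      refine n1.trans (le_of_eq ?_)
      ring
    · have e1 : 720 * (2 / μ) ^ 2 * ε = 2880 * ε / μ ^ 2 := by ring
      rw [e1, div_lt_iff₀ (by positivity)]
      refine n2.trans_le (le_of_eq ?_)
      ring
  choose c hc using hcov
  refine ⟨τ, fun s => av (ptr F J (sel s).1) - τ s * au (ptr F J (sel s).1), fun p i =>
    θp p + aD / aU * c p i, fun ω hω => ⟨?_, ?_, ?_⟩⟩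
  · rw [hτ]
    show |θs (slam F w ω) + aD / aU * t (slam F w ω) - θs (slam F w ω)| ≤ _
    rw [add_sub_cancel_left, abs_mul, abs_of_pos (by positivity : 0 < aD / aU)]
    exact mul_le_mul_of_nonneg_left (htT ω hω) (by positivity)
  · obtain ⟨g1, g2, -⟩ := hselB ω hω
    have h1 := hcol ω hω _ g1.1 g1.2
    have e1 : av (ptr F J (sel (slam F w ω)).1) - τ (slam F w ω) *
        au (ptr F J (sel (slam F w ω)).1) + τ (slam F w ω) * au (ptr F J ω) - av (ptr F J ω) =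
        aD * (dw au av (θs (slam F w ω)) aD ω (sel (slam F w ω)).1 -
          t (slam F w ω) * du au aU ω (sel (slam F w ω)).1) := by
      rw [hτ]
      unfold dw du
      field_simp
      ring
    show |av (ptr F J (sel (slam F w ω)).1) - τ (slam F w ω) *
        au (ptr F J (sel (slam F w ω)).1) + τ (slam F w ω) * au (ptr F J ω) - av (ptr F J ω)| ≤ _
    rw [e1, abs_mul, abs_of_pos hD]
    exact mul_le_mul_of_nonneg_left h1 hD.le
  · obtain ⟨i, hi⟩ := hc (ptr F J ω) ω ⟨hω, rfl⟩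
    refine ⟨i, ?_⟩
    have e1 : θp (ptr F J ω) + aD / aU * c (ptr F J ω) i - τ (slam F w ω) =
        aD / aU * (c (ptr F J ω) i - t (slam F w ω)) := by
      rw [hτ, h.thc ω (hB ω hω)]
      ring
    show |θp (ptr F J ω) + aD / aU * c (ptr F J ω) i - τ (slam F w ω)| ≤ _
    rw [e1, abs_mul, abs_of_pos (by positivity : 0 < aD / aU)]
    exact mul_le_mul_of_nonneg_left hi (by positivity)

end Pool.JVE
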