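import Pool.Agent.H62.OWN.Afq
import Pool.Agent.H6.OWN.Bfl
import Pool.Agent.H6.OWN.TieB

/-!
# The data at the exact points from a closed label over three coordinates

`afd_fam`: a closed label of `k` over `y`, `u`, `v` in a family whose exact points have slopes over
`y`, and many velocities of `y`, has the data `Afd` on a large part of the event, and its
derivatives satisfy the relation of the slopes on the lines.
-/

set_option autoImplicit false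

namespace Pool.JVE

open Finset MvPolynomial
open Pool.Agent.H49.Ent Pool.Agent.H32.Dense Pool.STK Pool.KA Pool.KSAT Pool.K2S Pool.PB Pool.GEN
open Pool.MIC6 (dpt dpt_near mvp wt wp wpt wp_eq pd_congr tie_box nod_of Dp Dp.two ptr_x)
open Pool.FLF (Fam.sub)
open Pool.D2R (hs hs_comm hs_add_left hs_add_right hs_smul_left hs_smul_right)

variable {m J : ℕ}

/-- Gradients on boxes around the lines. -/
theorem grad_boxI {F : Fam m J} {A : F.Ω → Prop} {I : Finset (Fin m)} {k : Fin m}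
    {K e r w ρ P : ℕ} {V : Type}
    {z : PtT F → V} {z' : LnT F → V} {G : V → MvPolynomial (Option (Fin m)) ℝ}
    (h : LbOK F I k K e r w ρ P A z z' G) (hw : w ≤ J) (hρ : ρ + e + 5 ≤ w) {ω : F.Ω}
    (hω : A ω) {σ : ℝ} (hσ : σ ∈ Set.Icc (0 : ℝ) 1) {b : Option (Fin m) → ℝ}
    (hbn : b none = wt F w ω σ)
    (hb : ∀ i ∈ I, |b (some i) - wp F w ω σ i| ≤ 16 * 2 ^ e * (1 / 2 ^ w)) (j : Fin m) :
    |eval b (pderiv (some j) (G (z' (slam F w ω))))| ≤ 2 ^ e := by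
  classical
  have pe : (1 : ℝ) ≤ 2 ^ e := one_le_pow₀ (by norm_num)
  obtain ⟨b', hb'⟩ : ∃ b' : Option (Fin m) → ℝ, b' = fun o => o.elim (b none) fun i =>
    if i ∈ I then b (some i) else bt F ω (some i) := ⟨_, rfl⟩
  have hb'n : b' none = b none := by rw [hb']; rfl
  have hb's : ∀ i, b' (some i) = if i ∈ I then b (some i) else
    bt F ω (some i) := fun i => by rw [hb']; rfl
  rw [pd_congr (h.dep _) j (b := b) (b' := b') hb'n.symm (fun i hi => by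
    rw [hb's, if_pos hi])]
  refine h.lip ω hω b' (fun o => ?_) (some j)
  have hρ1 : 32 * 2 ^ e * (1 / 2 ^ w) ≤ (1 : ℝ) / 2 ^ ρ := by
    have k1 : (1 : ℝ) / 2 ^ w ≤ 1 / 2 ^ (ρ + e + 5) := inv_mono hρ
    have k2 : 32 * 2 ^ e * ((1 : ℝ) / 2 ^ (ρ + e + 5)) = 1 / 2 ^ ρ := by
      rw [pow_add, pow_add]
      field_simp
      norm_num
    rw [← k2]
    exact mul_le_mul_of_nonneg_left k1 (by positivity)
  have hpos : (0 : ℝ) < 1 / 2 ^ w := by positivity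
  have hpe : 1 / 2 ^ w ≤ 2 ^ e * ((1 : ℝ) / 2 ^ w) := le_mul_of_one_le_left hpos.le pe
  have hrt := Pool.PB.Trl.rt_mem F w ω
  have hwt : |wt F w ω σ - F.t ω| ≤ 1 / 2 ^ w := by
    have k1 := Pool.PB.Trl.t_rt F hw ω
    unfold wt
    rw [k1]
    have k2 : ((slam F w ω).2.2 : ℝ) / 2 ^ w + 1 / 2 ^ w * σ -
        (((slam F w ω).2.2 : ℝ) + Pool.PB.Trl.rt F w ω) / 2 ^ w =
        1 / 2 ^ w * (σ - Pool.PB.Trl.rt F w ω) := by ring
    rw [k2, abs_mul, abs_of_pos hpos]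
    refine mul_le_of_le_one_right hpos.le ?_
    rw [abs_le]
    constructor <;> linarith [hrt.1, hrt.2, hσ.1, hσ.2]
  have hwp : ∀ i, |wp F w ω σ i - F.x ω i| ≤ 1 / 2 ^ w := by
    intro i
    rw [wp_eq F hw]
    have k2 : F.x ω i + 1 / 2 ^ w * (σ - Pool.PB.Trl.rt F w ω) * F.d ω i - F.x ω i =
        1 / 2 ^ w * ((σ - Pool.PB.Trl.rt F w ω) * F.d ω i) := by ring
    rw [k2, abs_mul, abs_of_pos hpos]
    refine mul_le_of_le_one_right hpos.le ?_
    rw [abs_mul]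
    refine mul_le_one₀ ?_ (abs_nonneg _) (F.dir ω i)
    rw [abs_le]
    constructor <;> linarith [hrt.1, hrt.2, hσ.1, hσ.2]
  cases o with
  | none =>
    rw [hb'n, hbn]
    have k1 : bt F ω none = F.t ω := rfl
    rw [k1]
    refine hwt.trans (le_trans ?_ hρ1)
    linarith
  | some i =>
    rw [hb's]
    split_ifs with hi
    · have k1 : bt F ω (some i) = F.x ω i := rfl
      rw [k1]
      have k2 := hb i hi
      have k3 := hwp i
      have k6 : b (some i) - F.x ω i = (b (some i) - wp F w ω σ i) +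
        (wp F w ω σ i - F.x ω i) := by ring
      rw [k6]
      refine (abs_add_le _ _).trans (le_trans ?_ hρ1)
      linarith
    · rw [sub_self, abs_zero]
      positivity

/-- The numbers of the label on the planes. -/
theorem num_s {C X : ℝ} {N g K P e M w R : ℕ} (hC : 1 ≤ C) (hX : 1 ≤ X) (hN : C * X ≤ 2 ^ N)
    (n1 : N + g * (K + 1) + (R + 2) ≤ P) (n2 : N + g * (K + 1) + 2 * e + (R + 6) ≤ J)
    (n3 : N + g * (K + 1) + e + (R + 6) ≤ M + w) :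
    C * (1 / (1 / 2 ^ g)) ^ (K + 1) * (X / 2 ^ P +
      (2 ^ e * (2 * (2 * (1 / 2 ^ M) / 2 ^ w + 2 ^ e * (2 / 2 ^ J))) +
        2 ^ e * (2 * (2 * (1 / 2 ^ M) / 2 ^ w + 2 ^ e * (2 / 2 ^ J)))) +
      (1 + 2 ^ e) * (1 / 2 ^ J) + 1 / 2 ^ w * (2 * (1 / 2 ^ M))) ≤ (1 : ℝ) / 2 ^ R := by
  have pe : (1 : ℝ) ≤ 2 ^ e := one_le_pow₀ (by norm_num)
  obtain ⟨D, hD⟩ : ∃ D : ℝ, D = (2 ^ g) ^ (K + 1) := ⟨_, rfl⟩
  have hD0 : 0 < D := by rw [hD]; positivity
  have hD1 : D = 2 ^ (g * (K + 1)) := by rw [hD, pow_mul]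
  obtain ⟨Z, hZ⟩ : ∃ Z : ℝ, Z = 2 ^ e := ⟨_, rfl⟩
  rw [← hZ] at pe ⊢
  have f1 : (1 : ℝ) / (1 / 2 ^ g) = 2 ^ g := by rw [one_div_one_div]
  rw [f1, ← hD]
  have hZZ : Z ≤ Z * Z := by
    have := mul_le_mul_of_nonneg_left pe (by linarith : (0 : ℝ) ≤ Z)
    linarith
  obtain ⟨a, ha⟩ : ∃ a : ℝ, a = 1 / 2 ^ J := ⟨_, rfl⟩
  obtain ⟨b, hb⟩ : ∃ b : ℝ, b = 1 / 2 ^ M / 2 ^ w := ⟨_, rfl⟩
  have ha0 : 0 < a := by rw [ha]; positivity
  have hb0 : 0 < b := by rw [hb]; positivity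
  have e1 : X / 2 ^ P + (Z * (2 * (2 * (1 / 2 ^ M) / 2 ^ w + Z * (2 / 2 ^ J))) +
      Z * (2 * (2 * (1 / 2 ^ M) / 2 ^ w + Z * (2 / 2 ^ J)))) + (1 + Z) * (1 / 2 ^ J) +
      1 / 2 ^ w * (2 * (1 / 2 ^ M)) =
      X / 2 ^ P + (8 * (Z * b) + 8 * (Z * Z * a)) + (1 + Z) * a + 2 * b := by
    rw [ha, hb]
    ring
  rw [e1]
  have h1 : X / 2 ^ P + (8 * (Z * b) + 8 * (Z * Z * a)) + (1 + Z) * a + 2 * b ≤
      X * (1 / 2 ^ P + 10 * (Z * b) + 10 * (Z * Z * a)) := by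
    have k1 : (1 + Z) * a ≤ 2 * (Z * Z * a) := by
      have : (1 + Z) * a ≤ 2 * (Z * Z) * a := mul_le_mul_of_nonneg_right (by linarith) ha0.le
      linarith
    have k2 : 2 * b ≤ 2 * (Z * b) := by
      have : 1 * b ≤ Z * b := mul_le_mul_of_nonneg_right pe hb0.le
      linarith
    have k3 : 10 * (Z * b) + 10 * (Z * Z * a) ≤ X * (10 * (Z * b) + 10 * (Z * Z * a)) :=
      le_mul_of_one_le_left (by positivity) hX
    have k4 : X * (1 / 2 ^ P + 10 * (Z * b) + 10 * (Z * Z * a)) =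
        X / 2 ^ P + X * (10 * (Z * b) + 10 * (Z * Z * a)) := by ring
    rw [k4]
    linarith
  have h2 : C * D * (X * (1 / 2 ^ P + 10 * (Z * b) + 10 * (Z * Z * a))) ≤
      2 ^ N * D * (1 / 2 ^ P + 10 * (Z * b) + 10 * (Z * Z * a)) := by
    have k1 : C * D * (X * (1 / 2 ^ P + 10 * (Z * b) + 10 * (Z * Z * a))) =
        C * X * (D * (1 / 2 ^ P + 10 * (Z * b) + 10 * (Z * Z * a))) := by ring
    rw [k1, mul_assoc (2 ^ N) D]
    exact mul_le_mul_of_nonneg_right hN (by positivity)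
  refine (mul_le_mul_of_nonneg_left h1 (by positivity)).trans (h2.trans ?_)
  have two : ∀ c d : ℕ, c + (R + 2) ≤ d → (2 : ℝ) ^ c / 2 ^ d ≤ 1 / 2 ^ (R + 2) := by
    intro c d h
    rw [div_le_div_iff₀ (by positivity) (by positivity), one_mul, ← pow_add]
    exact pow_le_pow_right₀ (by norm_num) h
  have k1 : 2 ^ N * D * (1 / 2 ^ P) ≤ (1 : ℝ) / 2 ^ (R + 2) := by
    have e2 : 2 ^ N * D * (1 / 2 ^ P) = 2 ^ (N + g * (K + 1)) / 2 ^ P := by
      rw [hD1, pow_add]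
      ring
    rw [e2]
    exact two _ _ (by omega)
  have k2 : 2 ^ N * D * (16 * (Z * b)) ≤ (1 : ℝ) / 2 ^ (R + 2) := by
    have e2 : 2 ^ N * D * (16 * (Z * b)) = 2 ^ (N + g * (K + 1) + e + 4) / 2 ^ (M + w) := by
      rw [hD1, hZ, hb, pow_add _ _ 4, pow_add _ _ e, pow_add _ N, pow_add _ M]
      field_simp
      norm_num
    rw [e2]
    exact two _ _ (by omega)
  have k3 : 2 ^ N * D * (16 * (Z * Z * a)) ≤ (1 : ℝ) / 2 ^ (R + 2) := by
    have e2 : 2 ^ N * D * (16 * (Z * Z * a)) = 2 ^ (N + g * (K + 1) + 2 * e + 4) / 2 ^ J := by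
      rw [hD1, hZ, ha, pow_add _ _ 4, pow_add _ _ (2 * e), pow_add _ N, two_mul, pow_add _ e]
      field_simp
      norm_num
    rw [e2]
    exact two _ _ (by omega)
  have k4 : (1 : ℝ) / 2 ^ (R + 2) + 1 / 2 ^ (R + 2) + 1 / 2 ^ (R + 2) ≤ 1 / 2 ^ R := by
    have e2 : (1 : ℝ) / 2 ^ (R + 2) = 1 / 2 ^ R / 4 := by
      rw [pow_add]
      field_simp
      norm_num
    have : (0 : ℝ) < 1 / 2 ^ R := by positivity
    rw [e2]
    linarith
  refine le_trans ?_ k4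
  have k5 : 2 ^ N * D * (1 / 2 ^ P + 10 * (Z * b) + 10 * (Z * Z * a)) =
      2 ^ N * D * (1 / 2 ^ P) + 10 / 16 * (2 ^ N * D * (16 * (Z * b))) +
        10 / 16 * (2 ^ N * D * (16 * (Z * Z * a))) := by ring
  rw [k5]
  have p1 : 0 ≤ 2 ^ N * D * (16 * (Z * b)) := by positivity
  have p2 : 0 ≤ 2 ^ N * D * (16 * (Z * Z * a)) := by positivity
  linarith

end Pool.JVE
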