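import Pool.Agent.H62.OWN.Hpl
import Pool.Agent.H6.OWN.Bal

/-!
# Second derivatives of closed labels at the exact points

`hs_own`: if the label is affine on the planes through the line with the slopes of the samples of
the line, its second derivatives `X Y`, `Y Y` at the samples are small, for every slope `Y` of the
line. `hs_lip`, `der_bds`: the second derivatives at the rounded points.
-/

set_option autoImplicit false

namespace Pool.JVE

open Finset MvPolynomial
open Pool.Agent.H49.Ent Pool.Agent.H32.Dense Pool.STK Pool.KA Pool.KSAT Pool.K2S Pool.PB Pool.GEN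
open Pool.MIC6 (mvp wt wp wp_eq mva pd_out dpt dpt_near)
open Pool.PB.Trl (rt rt_mem t_rt)
open Pool.D2R (hs dd der_one der_curve hs_comm hs_add_left hs_add_right hs_smul_left hs_smul_right
  pd_comm)
open Pool.GRD (dir_markov)

variable {m J : ℕ}

/-- The direction with the slopes `a`. -/
def svc (a : Fin m → ℝ) : Option (Fin m) → ℝ
  | none => 0
  | some j => a j

/-- **Second derivatives at the samples.** -/
theorem hs_own (K : ℕ) : ∃ C : ℝ, 1 ≤ C ∧ ∀ {m J : ℕ} (F : Fam m J) {A : F.Ω → Prop}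
    {k : Fin m} {w : ℕ} {V : Type} {z' : LnT F → V} {G : V → MvPolynomial (Option (Fin m)) ℝ}
    {a : F.Ω → ℝ} {sl : F.Ω → Fin m → ℝ} {S : ℝ}, w ≤ J → (∀ v, (G v).totalDegree ≤ K) →
    (∀ ω, A ω → ∀ σ ∈ Set.Icc (0 : ℝ) 1, ∀ η : ℝ, |η| ≤ 1 →
      |eval (mvp (F.u ω) (F.d ω) (sl ω) (wt F w ω σ) (1 / 2 ^ w * η)) (G (z' (slam F w ω))) -
        (wp F w ω σ k + a ω * (1 / 2 ^ w * η))| ≤ S) →
    ∀ ω ω', A ω' → slam F w ω' = slam F w ω →
      (1 / 2 ^ w) ^ 2 * |hs (G (z' (slam F w ω))) (bt F ω) (bd F ω) (svc (sl ω'))| ≤ C * S ∧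
      (1 / 2 ^ w) ^ 2 * |hs (G (z' (slam F w ω))) (bt F ω) (svc (sl ω')) (svc (sl ω'))| ≤
        C * S := by
  obtain ⟨C, hC, hpln⟩ := hs_pln K
  refine ⟨C, hC, ?_⟩
  intro m J F A k w V z' G a sl S hw hG hS ω ω' hω' h
  have hu : F.u ω' = F.u ω := (Prod.ext_iff.mp (Prod.ext_iff.mp h).1).1
  have hd : F.d ω' = F.d ω := (Prod.ext_iff.mp (Prod.ext_iff.mp h).1).2
  have hwt : ∀ σ, wt F w ω' σ = wt F w ω σ := fun σ => by
    unfold wt
    rw [h]
  have hwp : ∀ σ, wp F w ω' σ k = wp F w ω σ k := fun σ => by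
    unfold wp
    rw [hu, hd, hwt]
  have h1 := hpln (G (z' (slam F w ω))) (bt F ω) (bd F ω) (svc (sl ω')) (1 / 2 ^ w) S
    (rt F w ω) (F.x ω k) (1 / 2 ^ w * F.d ω k) (a ω' * (1 / 2 ^ w)) (hG _) (by positivity)
    (rt_mem F w ω) (by
      intro σ hσ η hη
      have h2 := hS ω' hω' σ hσ η hη
      rw [h, hu, hd, hwt, hwp, wp_eq F hw] at h2
      have e1 : mvp (F.u ω) (F.d ω) (sl ω') (wt F w ω σ) (1 / 2 ^ w * η) =
          fun o => bt F ω o + 1 / 2 ^ w * (σ - rt F w ω) * bd F ω o +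
            1 / 2 ^ w * η * svc (sl ω') o := by
        have ht := t_rt F hw ω
        funext o
        cases o with
        | none =>
          show wt F w ω σ = F.t ω + 1 / 2 ^ w * (σ - rt F w ω) * 1 + 1 / 2 ^ w * η * 0
          unfold wt
          rw [ht]
          ring
        | some j =>
          show F.u ω j + F.d ω j * wt F w ω σ + sl ω' j * (1 / 2 ^ w * η) =
            F.x ω j + 1 / 2 ^ w * (σ - rt F w ω) * F.d ω j + 1 / 2 ^ w * η * sl ω' j
          have h3 := wp_eq F hw ω σ j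
          unfold wp at h3
          rw [h3]
          ring
      have e2 : F.x ω k + 1 / 2 ^ w * F.d ω k * (σ - rt F w ω) + a ω' * (1 / 2 ^ w) * η =
          F.x ω k + 1 / 2 ^ w * (σ - rt F w ω) * F.d ω k + a ω' * (1 / 2 ^ w * η) := by ring
      rw [e1] at h2
      rw [e2]
      exact h2)
  exact ⟨h1.2.1, h1.2.2⟩

/-- A bound for the second derivatives. -/
theorem hs_le {G : MvPolynomial (Option (Fin m)) ℝ} {x W V : Option (Fin m) → ℝ} {H a b : ℝ}
    (hH : 0 ≤ H) (ha : 0 ≤ a)
    (h : ∀ o o', |eval x (pderiv o' (pderiv o G))| ≤ H) (hW : ∀ o, |W o| ≤ a)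
    (hV : ∀ o, |V o| ≤ b) : |hs G x W V| ≤ ((m : ℝ) + 1) ^ 2 * (H * a * b) := by
  have hcard : ((Finset.univ : Finset (Option (Fin m))).card : ℝ) = m + 1 := by
    rw [Finset.card_univ, Fintype.card_option, Fintype.card_fin]
    push_cast
    ring
  have h1 : ∀ o, |dd (pderiv o G) x W| ≤ ((m : ℝ) + 1) * (H * a) := by
    intro o
    unfold dd
    refine (Finset.abs_sum_le_sum_abs _ _).trans ?_
    have h2 : ∑ o', |eval x (pderiv o' (pderiv o G)) * W o'| ≤
        ∑ _o' : Option (Fin m), H * a := by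
      refine Finset.sum_le_sum fun o' _ => ?_
      rw [abs_mul]
      exact mul_le_mul (h o o') (hW o') (abs_nonneg _) hH
    refine h2.trans (le_of_eq ?_)
    rw [Finset.sum_const, nsmul_eq_mul, hcard]
  unfold hs
  refine (Finset.abs_sum_le_sum_abs _ _).trans ?_
  have h2 : ∑ o, |dd (pderiv o G) x W * V o| ≤
      ∑ _o : Option (Fin m), ((m : ℝ) + 1) * (H * a) * b := by
    refine Finset.sum_le_sum fun o _ => ?_
    rw [abs_mul]
    exact mul_le_mul (h1 o) (hV o) (abs_nonneg _) (by positivity)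
  refine h2.trans (le_of_eq ?_)
  rw [Finset.sum_const, nsmul_eq_mul, hcard]
  ring

/-- The second derivatives at near points. -/
theorem hs_lip {G : MvPolynomial (Option (Fin m)) ℝ} {x x' W V : Option (Fin m) → ℝ}
    {H a b r : ℝ} (hH : 0 ≤ H) (ha : 0 ≤ a) (hr : 0 ≤ r)
    (h : ∀ y : Option (Fin m) → ℝ, (∀ o, |y o - x o| ≤ r) → ∀ o o' i,
      |eval y (pderiv i (pderiv o' (pderiv o G)))| ≤ H) (hx : ∀ o, |x' o - x o| ≤ r)
    (hW : ∀ o, |W o| ≤ a) (hV : ∀ o, |V o| ≤ b) :
    |hs G x' W V - hs G x W V| ≤ ((m : ℝ) + 1) ^ 3 * (H * r * a * b) := by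
  have hcard : ((Finset.univ : Finset (Option (Fin m))).card : ℝ) = m + 1 := by
    rw [Finset.card_univ, Fintype.card_option, Fintype.card_fin]
    push_cast
    ring
  have h0 : ∀ o o', |eval x' (pderiv o' (pderiv o G)) - eval x (pderiv o' (pderiv o G))| ≤
      ((m : ℝ) + 1) * (H * r) := by
    intro o o'
    have h1 := mva (pderiv o' (pderiv o G)) x x' (fun _ => H) (fun y hy i _ =>
      h y (fun o => (hy o).trans (hx o)) o o' i)
    refine h1.trans ?_
    have h2 : ∑ i, H * |x' i - x i| ≤ ∑ _i : Option (Fin m), H * r :=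
      Finset.sum_le_sum fun i _ => mul_le_mul_of_nonneg_left (hx i) hH
    refine h2.trans (le_of_eq ?_)
    rw [Finset.sum_const, nsmul_eq_mul, hcard]
  have h1 : ∀ o, |dd (pderiv o G) x' W - dd (pderiv o G) x W| ≤
      ((m : ℝ) + 1) * (((m : ℝ) + 1) * (H * r) * a) := by
    intro o
    unfold dd
    rw [← Finset.sum_sub_distrib]
    refine (Finset.abs_sum_le_sum_abs _ _).trans ?_
    have h2 : ∑ o', |eval x' (pderiv o' (pderiv o G)) * W o' -
        eval x (pderiv o' (pderiv o G)) * W o'| ≤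
        ∑ _o' : Option (Fin m), ((m : ℝ) + 1) * (H * r) * a := by
      refine Finset.sum_le_sum fun o' _ => ?_
      rw [← sub_mul, abs_mul]
      exact mul_le_mul (h0 o o') (hW o') (abs_nonneg _) (by positivity)
    refine h2.trans (le_of_eq ?_)
    rw [Finset.sum_const, nsmul_eq_mul, hcard]
  unfold hs
  rw [← Finset.sum_sub_distrib]
  refine (Finset.abs_sum_le_sum_abs _ _).trans ?_
  have h2 : ∑ o, |dd (pderiv o G) x' W * V o - dd (pderiv o G) x W * V o| ≤
      ∑ _o : Option (Fin m), ((m : ℝ) + 1) * (((m : ℝ) + 1) * (H * r) * a) * b := by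
    refine Finset.sum_le_sum fun o _ => ?_
    rw [← sub_mul, abs_mul]
    exact mul_le_mul (h1 o) (hV o) (abs_nonneg _) (by positivity)
  refine h2.trans (le_of_eq ?_)
  rw [Finset.sum_const, nsmul_eq_mul, hcard]
  ring

/-- A label does not depend on the other coordinates. -/
theorem pd_zero_out {I : Finset (Fin m)} {G : MvPolynomial (Option (Fin m)) ℝ}
    (hdep : ∀ b b' : Option (Fin m) → ℝ, b none = b' none →
      (∀ i ∈ I, b (some i) = b' (some i)) → eval b G = eval b' G)
    {i : Fin m} (hi : i ∉ I) : pderiv (some i) G = 0 := by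
  refine MvPolynomial.funext fun b => ?_
  rw [pd_out hdep hi b, map_zero]

/-- Only the coordinates of the label matter. -/
theorem hs_congr {I : Finset (Fin m)} {G : MvPolynomial (Option (Fin m)) ℝ}
    (hdep : ∀ b b' : Option (Fin m) → ℝ, b none = b' none →
      (∀ i ∈ I, b (some i) = b' (some i)) → eval b G = eval b' G)
    (x V : Option (Fin m) → ℝ) {W W' : Option (Fin m) → ℝ} (hn : W none = W' none)
    (hW : ∀ i ∈ I, W (some i) = W' (some i)) : hs G x W V = hs G x W' V := by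
  unfold hs
  refine Finset.sum_congr rfl fun o _ => ?_
  congr 1
  unfold dd
  refine Finset.sum_congr rfl fun o' _ => ?_
  cases o' with
  | none => rw [hn]
  | some i =>
    by_cases hi : i ∈ I
    · rw [hW i hi]
    · rw [pd_comm, pd_zero_out hdep hi, map_zero, map_zero, zero_mul, zero_mul]

/-- The degree of a partial derivative. -/
theorem deg_pd {σ : Type} (p : MvPolynomial σ ℝ) (i : σ) :
    (pderiv i p).totalDegree ≤ p.totalDegree := by
  classical
  rw [p.as_sum, map_sum]
  refine (totalDegree_finsetSum _ _).trans ?_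
  rw [← p.as_sum]
  refine Finset.sup_le fun s hs => ?_
  rw [pderiv_monomial]
  refine (totalDegree_monomial_le _ _).trans ?_
  refine le_trans ?_ (le_totalDegree hs)
  have h1 : (s - Finsupp.single i 1) ≤ s := tsub_le_self
  exact Finsupp.sum_le_sum_index h1 (fun j _ => monotone_id) (fun j _ => rfl)

/-- The derivatives of second and third order. -/
theorem der_bds (m K : ℕ) : ∃ C : ℝ, 1 ≤ C ∧ ∀ (G : MvPolynomial (Option (Fin m)) ℝ)
    (x : Option (Fin m) → ℝ) (r B : ℝ), G.totalDegree ≤ K → 0 < r →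
    (∀ b : Option (Fin m) → ℝ, (∀ o, |b o - x o| ≤ r) → ∀ o, |eval b (pderiv o G)| ≤ B) →
    (∀ b : Option (Fin m) → ℝ, (∀ o, |b o - x o| ≤ r / 2) → ∀ o o',
      |eval b (pderiv o' (pderiv o G))| ≤ C * (B / r)) ∧
    (∀ b : Option (Fin m) → ℝ, (∀ o, |b o - x o| ≤ r / 4) → ∀ o o' i,
      |eval b (pderiv i (pderiv o' (pderiv o G)))| ≤ C * (B / r ^ 2)) := by
  classical
  obtain ⟨C₁, hC₁, hmk⟩ := dir_markov (m := m) K
  refine ⟨8 * (C₁ * C₁), by nlinarith, ?_⟩
  intro G x r B hG hr hB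
  have hB0 : 0 ≤ B := (abs_nonneg _).trans (hB x (fun o => by
    rw [sub_self, abs_zero]
    exact hr.le) none)
  have hdeg : ∀ o, (pderiv o G).totalDegree ≤ K := fun o =>
    (deg_pd _ _).trans hG
  have hdeg2 : ∀ o o', (pderiv o' (pderiv o G)).totalDegree ≤ K := fun o o' =>
    (deg_pd _ _).trans (hdeg o)
  have hup : ∀ (b : Option (Fin m) → ℝ) (o : Option (Fin m)) (s c c' : ℝ),
      (∀ o, |b o - x o| ≤ c) → |s| ≤ c' → ∀ i, |Function.update b o (b o + s) i - x i| ≤
        c + c' := by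
    intro b o s c c' hb hs i
    have hc' : 0 ≤ c' := (abs_nonneg _).trans hs
    by_cases hi : i = o
    · subst hi
      rw [Function.update_self]
      have e1 : b i + s - x i = (b i - x i) + s := by ring
      rw [e1]
      exact (abs_add_le _ _).trans (add_le_add (hb i) hs)
    · rw [Function.update_of_ne hi]
      have := hb i
      linarith
  have h2 : ∀ b : Option (Fin m) → ℝ, (∀ o, |b o - x o| ≤ r / 2) → ∀ o o',
      |eval b (pderiv o' (pderiv o G))| ≤ 2 * C₁ * (B / r) := by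
    intro b hb o o'
    have h3 := hmk (pderiv o G) b o' (r / 2) B (hdeg o) (by linarith) (fun s hs =>
      hB _ (fun i => (hup b o' s _ _ hb hs i).trans (by linarith)) o)
    refine h3.trans (le_of_eq ?_)
    field_simp
  refine ⟨fun b hb o o' => (h2 b hb o o').trans ?_, fun b hb o o' i => ?_⟩
  · have : 0 ≤ B / r := by positivity
    refine mul_le_mul_of_nonneg_right ?_ this
    nlinarith
  · have h3 := hmk (pderiv o' (pderiv o G)) b i (r / 4) (2 * C₁ * (B / r)) (hdeg2 o o')
      (by linarith) (fun s hs => h2 _ (fun i' => (hup b i s _ _ hb hs i').trans (by linarith)) o o')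
    refine h3.trans (le_of_eq ?_)
    field_simp
    ring

end Pool.JVE
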