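import Pool.Agent.H23.D2.Nat
import Pool.Agent.H6.OWN.TieB

/-!
# Second derivatives of labels which are affine on planes

`hs_pln`: a polynomial of bounded degree which is near an affine function on the part of a plane
spanned by `X` and `Y` has small second derivatives `X X`, `X Y` and `Y Y`.
-/

set_option autoImplicit false

namespace Pool.JVE

open Finset MvPolynomial
open Pool.Agent.H49.Ent Pool.Agent.H32.Dense Pool.STK Pool.KA Pool.KSAT Pool.K2S Pool.PB Pool.GEN
open Pool.D2R (hs dd der_one der_curve hs_comm hs_add_left hs_add_right hs_smul_left hs_smul_right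
  pd_comm)

variable {m J : ℕ}

theorem hs_neg_left (R : MvPolynomial (Option (Fin m)) ℝ) (x W V : Option (Fin m) → ℝ) :
    hs R x (-W) V = -hs R x W V := by
  have h := hs_smul_left R x W V (-1)
  rw [neg_one_smul, neg_one_mul] at h
  exact h

theorem hs_neg_right (R : MvPolynomial (Option (Fin m)) ℝ) (x W V : Option (Fin m) → ℝ) :
    hs R x W (-V) = -hs R x W V := by
  rw [hs_comm, hs_neg_left, hs_comm]

theorem hs_sub_left (R : MvPolynomial (Option (Fin m)) ℝ) (x W W' V : Option (Fin m) → ℝ) :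
    hs R x (W - W') V = hs R x W V - hs R x W' V := by
  rw [sub_eq_add_neg, hs_add_left, hs_neg_left, sub_eq_add_neg]

theorem hs_sub_right (R : MvPolynomial (Option (Fin m)) ℝ) (x W V V' : Option (Fin m) → ℝ) :
    hs R x W (V - V') = hs R x W V - hs R x W V' := by
  rw [sub_eq_add_neg, hs_add_right, hs_neg_right, sub_eq_add_neg]

/-- **Second derivatives on a plane.** -/
theorem hs_pln (K : ℕ) : ∃ C : ℝ, 1 ≤ C ∧ ∀ {m : ℕ} (G : MvPolynomial (Option (Fin m)) ℝ)
    (x X Y : Option (Fin m) → ℝ) (h S t c₀ c₁ c₂ : ℝ), G.totalDegree ≤ K → 0 < h →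
    t ∈ Set.Icc (0 : ℝ) 1 →
    (∀ σ ∈ Set.Icc (0 : ℝ) 1, ∀ η : ℝ, |η| ≤ 1 →
      |eval (fun o => x o + h * (σ - t) * X o + h * η * Y o) G -
        (c₀ + c₁ * (σ - t) + c₂ * η)| ≤ S) →
    h ^ 2 * |hs G x X X| ≤ C * S ∧ h ^ 2 * |hs G x X Y| ≤ C * S ∧ h ^ 2 * |hs G x Y Y| ≤ C * S := by
  obtain ⟨C₁, hC₁, hder₁⟩ := der_one (K + 1)
  obtain ⟨C, hC⟩ : ∃ C, C = C₁ * C₁ := ⟨_, rfl⟩
  have hC1 : 1 ≤ C := by
    rw [hC]
    exact one_le_mul_of_one_le_of_one_le hC₁ hC₁
  refine ⟨2 * C, by linarith, ?_⟩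
  intro m G x X Y h S t c₀ c₁ c₂ hG hh ht hS
  have hS0 : 0 ≤ S := (abs_nonneg _).trans (hS t ht 0 (by rw [abs_zero]; exact zero_le_one))
  -- the second derivative in one direction
  have key : ∀ c : ℝ, |c| ≤ 1 → h ^ 2 * |hs G x (X + c • Y) (X + c • Y)| ≤ C * S := by
    intro c hc
    obtain ⟨p, hp⟩ : ∃ p : Option (Fin m) → Polynomial ℝ, p = fun o =>
      Polynomial.C (x o) + Polynomial.C (h * (X o + c * Y o)) *
        (Polynomial.X - Polynomial.C t) := ⟨_, rfl⟩
    obtain ⟨r, hr⟩ : ∃ r : Polynomial ℝ, r = Polynomial.C c₀ + Polynomial.C (c₁ + c₂ * c) *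
      (Polynomial.X - Polynomial.C t) := ⟨_, rfl⟩
    have hpe : ∀ σ, (fun o => (p o).eval σ) =
        fun o => x o + h * (σ - t) * X o + h * (c * (σ - t)) * Y o := by
      intro σ
      funext o
      rw [hp]
      simp only [Polynomial.eval_add, Polynomial.eval_mul, Polynomial.eval_sub, Polynomial.eval_C,
        Polynomial.eval_X]
      ring
    have hre : ∀ σ, r.eval σ = c₀ + c₁ * (σ - t) + c₂ * (c * (σ - t)) := by
      intro σ
      rw [hr]
      simp only [Polynomial.eval_add, Polynomial.eval_mul, Polynomial.eval_sub, Polynomial.eval_C,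
        Polynomial.eval_X]
      ring
    obtain ⟨q, hq⟩ : ∃ q, q = MvPolynomial.aeval p G - r := ⟨_, rfl⟩
    have hlin : ∀ a b : ℝ, (Polynomial.C a + Polynomial.C b *
        (Polynomial.X - Polynomial.C t) : Polynomial ℝ).natDegree ≤ 1 := by
      intro a b
      refine (Polynomial.natDegree_add_le _ _).trans (max_le ?_ ?_)
      · rw [Polynomial.natDegree_C]
        exact Nat.zero_le _
      · refine (Polynomial.natDegree_C_mul_le _ _).trans ?_
        exact (Polynomial.natDegree_X_sub_C t).le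
    have hdeg : q.natDegree ≤ K + 1 := by
      rw [hq]
      refine (Polynomial.natDegree_sub_le _ _).trans (max_le ?_ ?_)
      · refine (Pool.KBX.natDegree_aeval_le G p (fun j => ?_) hG).trans (Nat.le_succ _)
        rw [hp]
        exact hlin _ _
      · rw [hr]
        exact (hlin _ _).trans (by omega)
    have hev : ∀ σ ∈ Set.Icc (0 : ℝ) 1, |q.eval σ| ≤ S := by
      intro σ hσ
      rw [hq, Polynomial.eval_sub, Pool.KBX.eval_aeval_poly, hpe, hre]
      refine hS σ hσ (c * (σ - t)) ?_
      rw [abs_mul]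
      have h1 : |σ - t| ≤ 1 := by
        rw [abs_le]
        constructor <;> linarith [hσ.1, hσ.2, ht.1, ht.2]
      exact mul_le_one₀ hc (abs_nonneg _) h1
    have h1 : ∀ σ ∈ Set.Icc (0 : ℝ) 1, |q.derivative.eval σ| ≤ C₁ * S := fun σ hσ =>
      hder₁ q S hdeg hev σ (by rw [abs_of_nonneg hσ.1]; exact hσ.2)
    have h2 := hder₁ q.derivative (C₁ * S)
      ((Polynomial.natDegree_derivative_le q).trans ((Nat.sub_le _ _).trans hdeg)) h1 t
      (by rw [abs_of_nonneg ht.1]; exact ht.2)
    have hpd : ∀ o, Polynomial.derivative (p o) = Polynomial.C (h * (X o + c * Y o)) := by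
      intro o
      rw [hp]
      simp only [Polynomial.derivative_add, Polynomial.derivative_C, Polynomial.derivative_mul,
        Polynomial.derivative_sub, Polynomial.derivative_X]
      ring
    have h3 := (der_curve p (x := x) (V := h • (X + c • Y)) (Z := 0) (s := t) (fun o => by
      have := congrFun (hpe t) o
      rw [this]
      ring) (fun o => by
      rw [hpd, Polynomial.eval_C]
      rfl) (fun o => by
      rw [hpd, Polynomial.derivative_C, Polynomial.eval_zero]
      rfl) G).2
    have hrd : Polynomial.derivative (Polynomial.derivative r) = 0 := by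
      rw [hr]
      simp only [Polynomial.derivative_add, Polynomial.derivative_C, Polynomial.derivative_mul,
        Polynomial.derivative_sub, Polynomial.derivative_X, zero_mul, zero_add, sub_zero, mul_one]
    have h4 : dd G x (0 : Option (Fin m) → ℝ) = 0 := by
      unfold dd
      refine Finset.sum_eq_zero fun o _ => ?_
      rw [Pi.zero_apply, mul_zero]
    rw [h4, add_zero, hs_smul_left, hs_smul_right] at h3
    have h5 : (Polynomial.derivative (Polynomial.derivative q)).eval t =
        h * (h * hs G x (X + c • Y) (X + c • Y)) := by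
      rw [hq, Polynomial.derivative_sub, Polynomial.derivative_sub, hrd, sub_zero, h3]
    rw [h5] at h2
    have h6 : |h * (h * hs G x (X + c • Y) (X + c • Y))| =
        h ^ 2 * |hs G x (X + c • Y) (X + c • Y)| := by
      rw [abs_mul, abs_mul, abs_of_pos hh]
      ring
    rw [h6] at h2
    rw [hC]
    refine h2.trans (le_of_eq ?_)
    ring
  have k0 := key 0 (by rw [abs_zero]; exact zero_le_one)
  have k1 := key 1 (by rw [abs_one])
  have k2 := key (-1) (by rw [abs_neg, abs_one])
  rw [zero_smul, add_zero] at k0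
  rw [one_smul] at k1
  rw [neg_one_smul, ← sub_eq_add_neg] at k2
  have e1 : hs G x (X + Y) (X + Y) = hs G x X X + 2 * hs G x X Y + hs G x Y Y := by
    rw [hs_add_left, hs_add_right, hs_add_right, hs_comm G x Y X]
    ring
  have e2 : hs G x (X - Y) (X - Y) = hs G x X X - 2 * hs G x X Y + hs G x Y Y := by
    rw [hs_sub_left, hs_sub_right, hs_sub_right, hs_comm G x Y X]
    ring
  have hh2 : 0 < h ^ 2 := by positivity
  have f : ∀ z : ℝ, h ^ 2 * |z| = |h ^ 2 * z| := fun z => by
    rw [abs_mul, abs_of_pos hh2]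
  rw [f] at k0 k1 k2
  have hCS : 0 ≤ C * S := by positivity
  refine ⟨?_, ?_, ?_⟩
  · rw [f]
    linarith
  · have e3 : h ^ 2 * hs G x X Y = (h ^ 2 * hs G x (X + Y) (X + Y) -
        h ^ 2 * hs G x (X - Y) (X - Y)) / 4 := by
      rw [e1, e2]
      ring
    rw [f, e3]
    rw [abs_le] at k1 k2 ⊢
    constructor <;> linarith [k1.1, k1.2, k2.1, k2.2]
  · have e3 : h ^ 2 * hs G x Y Y = (h ^ 2 * hs G x (X + Y) (X + Y) +
        h ^ 2 * hs G x (X - Y) (X - Y)) / 2 - h ^ 2 * hs G x X X := by
      rw [e1, e2]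
      ring
    rw [f, e3]
    rw [abs_le] at k0 k1 k2 ⊢
    constructor <;> linarith [k1.1, k1.2, k2.1, k2.2, k0.1, k0.2]

end Pool.JVE
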