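import Pool.Agent.H2.GEN.ChX

/-!
# Visible gradients which are constant along the lines give ball labels (family level)

`θ`: a gradient which is a function of the exact point and to which the lines are tangent. If on an
event it agrees, on the natural boxes of a ball chain, with a function of the line and of the
window, then the linear functions with this gradient are a label over these boxes: the visible
side passes through the point, the other side through the line (`jv_fam`).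
-/

set_option autoImplicit false

namespace Pool.JVE

open Finset Real MvPolynomial
open Pool.Agent.H49.Ent Pool.Agent.H32.Dense Pool.STK Pool.KA Pool.KSAT Pool.K2S Pool.PB Pool.S6C
open Pool.GEN Pool.CHT

variable {m J : ℕ}

/-- The path of the line of the sample. -/
noncomputable def pth (F : Fam m J) (ω : F.Ω) (s : ℝ) (k : Fin m) : ℝ := F.u ω k + s * F.d ω k

/-- **The visible side**: the linear function with the gradient `θ` through the point. -/
noncomputable def gl {F : Fam m J} (c : ℕ → Fin m) (i : ℕ) (θ : PtT F → ℕ → ℝ) (θ₀ : PtT F → ℝ)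
    (y : PtT F) : MvPolynomial (Option (Fin m)) ℝ :=
  C ((y.1 (c i) : ℝ) / 2 ^ J) + C (θ₀ y) * (X none - C ((y.2.1 : ℝ) / 2 ^ J)) +
    ∑ l ∈ range i, C (θ y l) * (X (some (c l)) - C ((y.1 (c l) : ℝ) / 2 ^ J))

/-- **The line side**: the linear function with the gradient `θ'` through the line. -/
noncomputable def hl {F : Fam m J} (c : ℕ → Fin m) (i : ℕ) (θ' : LnT F → ℕ → ℝ)
    (s : LnT F) : MvPolynomial (Option (Fin m)) ℝ :=
  C (s.1.1 (c i)) + C (s.1.2 (c i)) * X none +
    ∑ l ∈ range i, C (θ' s l) * (X (some (c l)) - (C (s.1.1 (c l)) + C (s.1.2 (c l)) * X none))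

theorem eval_gl {F : Fam m J} (c : ℕ → Fin m) (i : ℕ) (θ : PtT F → ℕ → ℝ) (θ₀ : PtT F → ℝ)
    (y : PtT F) (b : Option (Fin m) → ℝ) : eval b (gl c i θ θ₀ y) =
      (y.1 (c i) : ℝ) / 2 ^ J + θ₀ y * (b none - (y.2.1 : ℝ) / 2 ^ J) +
        ∑ l ∈ range i, θ y l * (b (some (c l)) - (y.1 (c l) : ℝ) / 2 ^ J) := by
  unfold gl
  simp only [map_add, map_mul, map_sub, eval_C, eval_X, map_sum]

theorem eval_hl {F : Fam m J} (c : ℕ → Fin m) (i : ℕ) (θ' : LnT F → ℕ → ℝ) (s : LnT F)
    (b : Option (Fin m) → ℝ) : eval b (hl c i θ' s) =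
      s.1.1 (c i) + s.1.2 (c i) * b none +
        ∑ l ∈ range i, θ' s l * (b (some (c l)) - (s.1.1 (c l) + s.1.2 (c l) * b none)) := by
  unfold hl
  simp only [map_add, map_mul, map_sub, eval_C, eval_X, map_sum]

theorem deg_lin (a : ℝ) (o : Option (Fin m)) (b : ℝ) :
    (C a * (X o - C b) : MvPolynomial (Option (Fin m)) ℝ).totalDegree ≤ 1 := by
  refine (totalDegree_mul _ _).trans ?_
  rw [totalDegree_C, zero_add]
  refine (totalDegree_sub _ _).trans (max_le (totalDegree_X _).le ?_)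
  rw [totalDegree_C]
  exact Nat.zero_le _

theorem deg_gl {F : Fam m J} (c : ℕ → Fin m) (i : ℕ) (θ : PtT F → ℕ → ℝ) (θ₀ : PtT F → ℝ)
    (y : PtT F) : (gl c i θ θ₀ y).totalDegree ≤ 1 := by
  unfold gl
  refine (totalDegree_add _ _).trans (max_le ((totalDegree_add _ _).trans (max_le ?_ ?_)) ?_)
  · rw [totalDegree_C]
    exact Nat.zero_le _
  · exact deg_lin _ _ _
  · exact totalDegree_finsetSum_le fun l _ => deg_lin _ _ _

theorem deg_hl {F : Fam m J} (c : ℕ → Fin m) (i : ℕ) (θ' : LnT F → ℕ → ℝ) (s : LnT F) :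
    (hl c i θ' s).totalDegree ≤ 1 := by
  have h0 : ∀ a : ℝ, (C a * X none : MvPolynomial (Option (Fin m)) ℝ).totalDegree ≤ 1 := by
    intro a
    refine (totalDegree_mul _ _).trans ?_
    rw [totalDegree_C, zero_add]
    exact (totalDegree_X _).le
  have h1 : ∀ a b : ℝ, (C a + C b * X none : MvPolynomial (Option (Fin m)) ℝ).totalDegree ≤ 1 := by
    intro a b
    refine (totalDegree_add _ _).trans (max_le ?_ (h0 b))
    rw [totalDegree_C]
    exact Nat.zero_le _
  unfold hl
  refine (totalDegree_add _ _).trans (max_le (h1 _ _) ?_)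
  refine totalDegree_finsetSum_le fun l _ => ?_
  refine (totalDegree_mul _ _).trans ?_
  rw [totalDegree_C, zero_add]
  exact (totalDegree_sub _ _).trans (max_le (totalDegree_X _).le (h1 _ _))

theorem dep_gl {F : Fam m J} (c : ℕ → Fin m) (i : ℕ) (θ : PtT F → ℕ → ℝ) (θ₀ : PtT F → ℝ)
    (y : PtT F) : DepC c i (gl c i θ θ₀ y) := by
  intro b b' h0 h1
  rw [eval_gl, eval_gl, h0]
  congr 1
  exact Finset.sum_congr rfl fun l hl => by rw [h1 l (mem_range.1 hl)]

theorem dep_hl {F : Fam m J} (c : ℕ → Fin m) (i : ℕ) (θ' : LnT F → ℕ → ℝ) (s : LnT F) :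
    DepC c i (hl c i θ' s) := by
  intro b b' h0 h1
  rw [eval_hl, eval_hl, h0]
  congr 1
  exact Finset.sum_congr rfl fun l hl => by rw [h1 l (mem_range.1 hl)]

theorem pd_gl {F : Fam m J} {c : ℕ → Fin m} {i : ℕ} (hc : Set.InjOn c (Set.Iio i))
    (θ : PtT F → ℕ → ℝ) (θ₀ : PtT F → ℝ) (y : PtT F) (b : Option (Fin m) → ℝ) {l : ℕ}
    (hl : l < i) : eval b (pderiv (some (c l)) (gl c i θ θ₀ y)) = θ y l := by
  classical
  unfold gl
  simp only [map_add, map_sum, pderiv_C_mul, map_sub, pderiv_C, sub_zero, zero_add]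
  rw [pderiv_X_of_ne (by simp), mul_zero, map_zero, zero_add, Finset.sum_eq_single l]
  · rw [pderiv_X_self, mul_one, eval_C]
  · intro j hj hjl
    rw [pderiv_X_of_ne, mul_zero, map_zero]
    intro h
    exact hjl (hc (Set.mem_Iio.2 (mem_range.1 hj)) (Set.mem_Iio.2 hl) (Option.some_injective _ h))
  · intro h
    exact absurd (mem_range.2 hl) h

theorem x_rnd (F : Fam m J) (ω : F.Ω) (k : Fin m) :
    |F.x ω k - ((ptr F J ω).1 k : ℝ) / 2 ^ J| ≤ 1 / 2 ^ J := by
  have h1 : ((ptr F J ω).1 k : ℝ) = ⌊(2 : ℝ) ^ J * F.x ω k⌋ := rfl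
  rw [h1]
  have h2 := Int.floor_le ((2 : ℝ) ^ J * F.x ω k)
  have h3 := Int.lt_floor_add_one ((2 : ℝ) ^ J * F.x ω k)
  have hp : (0 : ℝ) < 2 ^ J := by positivity
  have e1 : F.x ω k - (⌊(2 : ℝ) ^ J * F.x ω k⌋ : ℝ) / 2 ^ J =
      ((2 : ℝ) ^ J * F.x ω k - ⌊(2 : ℝ) ^ J * F.x ω k⌋) / 2 ^ J := by
    field_simp
  rw [e1, abs_div, abs_of_pos hp]
  refine div_le_div_of_nonneg_right ?_ hp.le
  rw [abs_le]
  constructor <;> linarith only [h2, h3]

/-- **Ball labels from visible gradients which are constant along the lines.** -/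
theorem jv_fam {F : Fam m J} {c : ℕ → Fin m} {i w e P Q v K : ℕ} {Kv g : ℕ → ℕ}
    {B : F.Ω → Prop} {G : PtT F → ℕ → MvPolynomial (Option (Fin m)) ℝ}
    {H : LnT F → ℕ → MvPolynomial (Option (Fin m)) ℝ} {θ : PtT F → ℕ → ℝ} {θ₀ : PtT F → ℝ}
    {θ' : LnT F → ℕ → ℝ} (hK : 1 ≤ K) (hKv : ∀ l, Kv l ≤ K) (hPQ : P + 2 ≤ Q) (hQ : Q + v ≤ J)
    (hc : Set.InjOn c (Set.Iio i)) (hch : ChOK F c i Kv w w e g B G H)
    (hsiz : ∀ ω, B ω → 1 + ∑ l ∈ range i, |θ (ptr F J ω) l| ≤ 2 ^ v)
    (hlip : ∀ ω, B ω → ∀ l < i,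
      |θ (ptr F J ω) l| ≤ 2 ^ (e + nlp (fun j => if j < i then g j else P) l i))
    (hvel : ∀ ω, B ω → |F.d ω (c i) - θ₀ (ptr F J ω) -
      ∑ l ∈ range i, θ (ptr F J ω) l * F.d ω (c l)| ≤ 2 ^ w / 2 ^ Q)
    (hcst : ∀ ω, B ω → ∀ b : Option (Fin m) → ℝ, NBx c (G (ptr F J ω)) g w (F.t ω) i b →
      |∑ l ∈ range i, (θ (ptr F J ω) l - θ' (slam F w ω) l) *
        (b (some (c l)) - pth F ω (b none) (c l))| ≤ 1 / 2 ^ Q) :
    ChOK F c (i + 1) (fun _ => K) w w e (fun j => if j < i then g j else P) B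
      (fun y j => if j < i then G y j else gl c i θ θ₀ y)
      (fun s j => if j < i then H s j else hl c i θ' s) := by
  have hp : ∀ n : ℕ, (0 : ℝ) < 2 ^ n := fun n => by positivity
  have hrnd : ∀ ω, B ω → (1 + ∑ l ∈ range i, |θ (ptr F J ω) l|) * (1 / 2 ^ J) ≤ 1 / 2 ^ Q := by
    intro ω hω
    refine (mul_le_mul_of_nonneg_right (hsiz ω hω) (by positivity)).trans ?_
    rw [mul_one_div, div_le_div_iff₀ (hp _) (hp _), ← pow_add, one_mul]
    exact pow_le_pow_right₀ (by norm_num) (by omega)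
  have hsum : ∀ ω, |∑ l ∈ range i, θ (ptr F J ω) l *
      (F.x ω (c l) - ((ptr F J ω).1 (c l) : ℝ) / 2 ^ J)| ≤
        (∑ l ∈ range i, |θ (ptr F J ω) l|) * (1 / 2 ^ J) := by
    intro ω
    refine (Finset.abs_sum_le_sum_abs _ _).trans ?_
    rw [Finset.sum_mul]
    refine Finset.sum_le_sum fun l _ => ?_
    rw [abs_mul]
    exact mul_le_mul_of_nonneg_left (x_rnd F ω (c l)) (abs_nonneg _)
  have ht : ∀ ω, ((ptr F J ω).2.1 : ℝ) / 2 ^ J = F.t ω := fun ω => rfl
  have h4 : (4 : ℝ) / 2 ^ Q ≤ 1 / 2 ^ P := by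
    rw [div_le_div_iff₀ (hp _) (hp _), one_mul]
    calc (4 : ℝ) * 2 ^ P = 2 ^ (P + 2) := by rw [pow_add]; ring
      _ ≤ 2 ^ Q := pow_le_pow_right₀ (by norm_num) hPQ
  have bx : ∀ {y : PtT F} {t : ℝ} {l : ℕ} {b : Option (Fin m) → ℝ}, l ≤ i →
      NBx c (fun j => if j < i then G y j else gl c i θ θ₀ y)
        (fun j => if j < i then g j else P) w t l b → NBx c (G y) g w t l b := by
    intro y t l b hl hb
    refine ⟨hb.1, fun j hj => ?_⟩
    have h1 := hb.2 j hj
    simp only [if_pos (show j < i by omega)] at h1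
    exact h1
  refine ⟨fun y j => ?_, fun s j => ?_, fun y j => ?_, fun s j => ?_, fun ω hω j hj => ?_,
    fun ω hω j hj b hb => ?_, fun ω hω j hj b hb l hl => ?_⟩
  · show (if j < i then G y j else gl c i θ θ₀ y).totalDegree ≤ K
    split_ifs with h
    · exact (hch.degG y j).trans (hKv j)
    · exact (deg_gl _ _ _ _ _).trans hK
  · show (if j < i then H s j else hl c i θ' s).totalDegree ≤ K
    split_ifs with h
    · exact (hch.degH s j).trans (hKv j)
    · exact (deg_hl _ _ _ _).trans hK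
  · show DepC c j (if j < i then G y j else gl c i θ θ₀ y)
    split_ifs with h
    · exact hch.depG y j
    · exact (dep_gl _ _ _ _ _).mono (not_lt.1 h)
  · show DepC c j (if j < i then H s j else hl c i θ' s)
    split_ifs with h
    · exact hch.depH s j
    · exact (dep_hl _ _ _ _).mono (not_lt.1 h)
  · show |F.x ω (c j) - eval (bt F ω) (if j < i then G (ptr F J ω) j else
      gl c i θ θ₀ (ptr F J ω))| ≤ 1 / 2 ^ (if j < i then g j else P)
    by_cases h : j < i
    · rw [if_pos h, if_pos h]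
      exact hch.pos ω hω j h
    · have hji : j = i := by omega
      subst hji
      rw [if_neg h, if_neg h, eval_gl, ht]
      have e0 : bt F ω none = F.t ω := rfl
      have e1 : ∀ k, bt F ω (some k) = F.x ω k := fun k => rfl
      simp only [e0, e1, sub_self, mul_zero, add_zero]
      have h1 := x_rnd F ω (c j)
      have h2 := hsum ω
      have h3 := hrnd ω hω
      rw [add_mul, one_mul] at h3
      have h5 : (1 : ℝ) / 2 ^ Q ≤ 1 / 2 ^ P := by
        refine le_trans ?_ h4
        exact div_le_div_of_nonneg_right (by norm_num) (hp _).le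
      refine le_trans ?_ (h3.trans h5)
      rw [← sub_sub]
      exact (abs_sub _ _).trans (add_le_add h1 h2)
  · have hb' := bx (by omega) hb
    show |eval b (if j < i then G (ptr F J ω) j else gl c i θ θ₀ (ptr F J ω)) -
      eval b (if j < i then H (slam F w ω) j else hl c i θ' (slam F w ω))| ≤
        1 / 2 ^ (if j < i then g j else P)
    by_cases h : j < i
    · rw [if_pos h, if_pos h, if_pos h]
      exact hch.agr ω hω j h b hb'
    · have hji : j = i := by omega
      subst hji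
      rw [if_neg h, if_neg h, if_neg h, eval_gl, eval_hl, ht]
      have e2 : ∀ k, (slam F w ω).1.1 k = F.u ω k := fun k => rfl
      have e3 : ∀ k, (slam F w ω).1.2 k = F.d ω k := fun k => rfl
      simp only [e2, e3]
      obtain ⟨S₁, hS₁⟩ : ∃ S₁, S₁ = ∑ l ∈ range j, θ (ptr F J ω) l *
        (F.x ω (c l) - ((ptr F J ω).1 (c l) : ℝ) / 2 ^ J) := ⟨_, rfl⟩
      obtain ⟨S₂, hS₂⟩ : ∃ S₂, S₂ = ∑ l ∈ range j, (θ (ptr F J ω) l - θ' (slam F w ω) l) *
        (b (some (c l)) - pth F ω (b none) (c l)) := ⟨_, rfl⟩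
      obtain ⟨S₃, hS₃⟩ : ∃ S₃, S₃ = F.d ω (c j) - θ₀ (ptr F J ω) -
        ∑ l ∈ range j, θ (ptr F J ω) l * F.d ω (c l) := ⟨_, rfl⟩
      have hx : F.x ω (c j) = F.u ω (c j) + F.t ω * F.d ω (c j) := rfl
      have key : (((ptr F J ω).1 (c j) : ℝ) / 2 ^ J + θ₀ (ptr F J ω) * (b none - F.t ω) +
          ∑ l ∈ range j, θ (ptr F J ω) l *
            (b (some (c l)) - ((ptr F J ω).1 (c l) : ℝ) / 2 ^ J)) -
          (F.u ω (c j) + F.d ω (c j) * b none + ∑ l ∈ range j, θ' (slam F w ω) l *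
            (b (some (c l)) - (F.u ω (c l) + F.d ω (c l) * b none))) =
          (-(F.x ω (c j) - ((ptr F J ω).1 (c j) : ℝ) / 2 ^ J) + S₁) + S₂ -
            (b none - F.t ω) * S₃ := by
        have k1 : ∑ l ∈ range j, θ (ptr F J ω) l *
            (b (some (c l)) - ((ptr F J ω).1 (c l) : ℝ) / 2 ^ J) -
            ∑ l ∈ range j, θ' (slam F w ω) l *
              (b (some (c l)) - (F.u ω (c l) + F.d ω (c l) * b none)) =
            S₁ + S₂ + (b none - F.t ω) * ∑ l ∈ range j, θ (ptr F J ω) l * F.d ω (c l) := by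
          rw [hS₁, hS₂, Finset.mul_sum, ← Finset.sum_add_distrib, ← Finset.sum_add_distrib,
            ← Finset.sum_sub_distrib]
          refine Finset.sum_congr rfl fun l _ => ?_
          have hxl : F.x ω (c l) = F.u ω (c l) + F.t ω * F.d ω (c l) := rfl
          rw [hxl]
          unfold pth
          ring
        rw [hS₃, hx]
        linear_combination k1
      rw [key]
      have h1 : |-(F.x ω (c j) - ((ptr F J ω).1 (c j) : ℝ) / 2 ^ J) + S₁| ≤ 1 / 2 ^ Q := by
        have h3 := hrnd ω hω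
        rw [add_mul, one_mul] at h3
        refine le_trans ?_ h3
        refine (abs_add_le _ _).trans (add_le_add ?_ ?_)
        · rw [abs_neg]
          exact x_rnd F ω (c j)
        · rw [hS₁]
          exact hsum ω
      have h2 : |S₂| ≤ 1 / 2 ^ Q := by
        rw [hS₂]
        exact hcst ω hω b hb'
      have h3 : |(b none - F.t ω) * S₃| ≤ 1 / 2 ^ Q := by
        rw [abs_mul]
        have k1 := hb'.1
        have k2 : |S₃| ≤ 2 ^ w / 2 ^ Q := by
          rw [hS₃]
          exact hvel ω hω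
        refine (mul_le_mul k1 k2 (abs_nonneg _) (by positivity)).trans (le_of_eq ?_)
        field_simp
      refine le_trans ?_ h4
      have e4 : (4 : ℝ) / 2 ^ Q = 1 / 2 ^ Q + 1 / 2 ^ Q + 1 / 2 ^ Q + 1 / 2 ^ Q := by ring
      have e5 : (0 : ℝ) < 1 / 2 ^ Q := by positivity
      rw [e4]
      rw [abs_le] at h1 h2 h3 ⊢
      constructor <;> linarith only [h1.1, h1.2, h2.1, h2.2, h3.1, h3.2, e5]
  · have hb' := bx (by omega) hb
    show |eval b (pderiv (some (c l)) (if j < i then G (ptr F J ω) j else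
      gl c i θ θ₀ (ptr F J ω)))| ≤ 2 ^ (e + nlp (fun j => if j < i then g j else P) l j)
    by_cases h : j < i
    · rw [if_pos h]
      refine (hch.lip ω hω j h b hb' l hl).trans (pow_le_pow_right₀ (by norm_num) ?_)
      rw [nlp_congr (g := g) (g' := fun j => if j < i then g j else P) (l := l) (i := j)
        fun x hx => (if_pos (by omega)).symm]
    · have hji : j = i := by omega
      subst hji
      rw [if_neg h, pd_gl hc θ θ₀ _ b hl]
      exact hlip ω hω l hl

end Pool.JVE
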